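import Pool.Agent.KS6_21.P2.Line

/-!
Adding the divisor of a function to the boundary.
-/

set_option autoImplicit false
set_option linter.unusedVariables false
set_option linter.unusedSectionVars false

universe u

open Polynomial Pool.Agent.W177.WD Pool.Agent.KS6_21.P1 Pool.Agent.TH188.WQ

open Pool.Agent.W558 hiding Ovr ci

namespace Pool.Agent.KS6_21.P2

section addF

variable (p : ℕ) [Fact p.Prime] {k N : Type u} [Field k] [PerfectField k] [CharP k p]
  [Field N] [Algebra k N]

/-- The last step: the divisor of `F` is added to the boundary. -/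
theorem addF1 {T I G ι : Type} [Finite T] [Fintype I] (M : LM (⊥ : Subalgebra k N) ⊤ T I)
    (F : N) (hF0 : F ≠ 0) (y h : T → N) (c μ : I → ℤ) (hPS : PS p M F ⊤ y h c μ)
    (hFr : Frc M) (g : G → N) (Γ : G → I → ℤ) (hFn : Fn M g Γ) (hF2 : Fin2 M y c)
    (f : ι → N) (n : ι → I → ℤ) (a hh : T → ι → N) (hA : ∀ t j, hh t j ∈ M.A t)
    (heq : ∀ t j, f j = a t j ^ p + mn (M.x t) (n j) * hh t j)
    (hind : ∀ t (κ : Type u) [Field κ] [Algebra k κ] (ψ : M.A t →ₐ[k] κ) (o : Option ι),
      ∃ v : LT ψ (ox (y t) (M.x t)),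
        (v.D.D ⟨h t, hPS.hA t⟩ + ψ ⟨h t, hPS.hA t⟩ * ∑ i, (c i : κ) * v.e (some i) ≠ 0 ↔
          o = none) ∧
        ∀ j, (v.D.D ⟨hh t j, hA t j⟩ + ψ ⟨hh t j, hA t j⟩ * ∑ i, (n j i : κ) * v.e (some i) ≠ 0 ↔
          o = some j)) :
    GM p k (fun o : Option ι => o.elim F f) (Sum.elim g (fun _ : Unit => F)) := by
  classical
  have hp : p.Prime := Fact.out
  have hcN : CharP N p := charP_of_injective_algebraMap (algebraMap k N).injective p
  have hPS' : PS p M ((0 : N) ^ p - (-F)) ⊤ y h c μ := by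
    rw [zero_pow hp.ne_zero, zero_sub, neg_neg]
    exact hPS
  choose fe w h' a' hfA hw hF hNF hh' hC using chart3 p M (0 : N) (-F) ⊤ y h c μ hPS' hF2
  have hF' : ∀ t, F = w t * mn (M.x t) (fun i => p * μ i + min (c i) 0) * fe t := by
    intro t
    have h1 := hF t
    rwa [zero_pow hp.ne_zero, zero_sub, neg_neg] at h1
  have hcμ : ∀ (κ : Type u) [Field κ] [Algebra k κ] (i : I),
      ((c i + p * μ i : ℤ) : κ) = (c i : κ) := by
    intro κ _ _ i
    have hp0 : (p : κ) = 0 := cast_zero (k := k) p κ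
    push_cast
    rw [hp0, zero_mul, add_zero]
  -- the transversality
  have hsnc : ∀ t, SNC (M.A t) (fun o : Option I => o.elim (fe t) (M.x t)) := by
    intro t
    refine snc_option M t (fe t) (hfA t) ?_
    intro κ _ _ ψ hf h0
    obtain ⟨v, hv, -⟩ := hind t κ ψ none
    have hv' := hv.2 rfl
    obtain ⟨hC1, hC2⟩ := hC t κ ψ hf (hh' t)
    have h1 := hC2 v
    rw [h0, zero_mul, zero_add] at h1
    refine ⟨v.D, ?_, fun i hi => ?_⟩
    · intro h2
      apply hv'
      rw [← h1, h2, mul_zero]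
    · have h3 := v.hx (some i) (M.xA t i)
      change v.D.D ⟨M.x t i, M.xA t i⟩ = ψ ⟨M.x t i, M.xA t i⟩ * _ at h3
      rw [h3, hi, zero_mul]
  let M3 : LM (⊥ : Subalgebra k N) ⊤ T (Option I) :=
    addD M _ hF0 fe w (fun i => p * μ i + min (c i) 0) hfA hw hF' hsnc
  -- monomials
  have hmn3 : ∀ t (m0 : ℤ) (m : I → ℤ), ∏ o, M3.x t o ^ (o.elim m0 m : ℤ) =
      fe t ^ m0 * mn (M.x t) m := by
    intro t m0 m
    rw [Fintype.prod_option]
    rfl
  have key : ∀ t (κ : Type u) [Field κ] [Algebra k κ] (ψ : M3.A t →ₐ[k] κ) (o : Option ι),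
      ∃ v : LT ψ (M3.x t),
        (∀ j : ι, om v (fun o' => o'.elim 0 (n j)) (hA t j) ≠ 0 ↔ o = some j) ∧
        (om v (fun o' => o'.elim 1 fun i => c i + p * μ i) (hh' t) ≠ 0 ↔ o = none) := by
    intro t κ _ _ ψ o
    let ψM : M.A t →ₐ[k] κ := ψ
    -- forms of the functions
    have hform : ∀ (v : LT ψM (ox (y t) (M.x t))) (v3 : LT ψ (M3.x t)) (hv : v3.D = v.D)
        (he : ∀ i, v3.e (some i) = v.e (some i)) (j : ι),
        om v3 (fun o' => o'.elim 0 (n j)) (hA t j) =
          v.D.D ⟨hh t j, hA t j⟩ + ψM ⟨hh t j, hA t j⟩ * ∑ i, (n j i : κ) * v.e (some i) := by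
      intro v v3 hv he j
      unfold om
      rw [Fintype.sum_option, hv]
      simp only [Option.elim_none, Option.elim_some, Int.cast_zero, zero_mul, zero_add]
      congr 2
      exact Finset.sum_congr rfl fun i _ => by rw [he i]
    obtain ⟨hC1, hC2⟩ := hC t κ ψM (hfA t) (hh' t)
    by_cases h0 : ψM ⟨fe t, hfA t⟩ = 0
    · have hne : ψM ⟨h' t, hh' t⟩ ≠ 0 := hC1 h0
      rcases o with _ | j
      · -- the vector tangent to nothing
        refine ⟨⟨TV.zero ψM, fun o => o.elim 1 fun _ => 0, ?_⟩, ?_, ?_⟩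
        · rintro (_ | i) hi
          · change (0 : κ) = ψM ⟨fe t, hi⟩ * 1
            rw [h0, zero_mul]
          · change (0 : κ) = _ * 0
            rw [mul_zero]
        · intro j
          refine ⟨fun h1 => ?_, fun h1 => by simp at h1⟩
          exfalso
          apply h1
          unfold om
          rw [Fintype.sum_option]
          simp only [Option.elim_none, Option.elim_some, Int.cast_zero, zero_mul, mul_zero,
            Finset.sum_const_zero, add_zero]
          rfl
        · refine ⟨fun _ => rfl, fun _ => ?_⟩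
          unfold om
          rw [Fintype.sum_option]
          simp only [Option.elim_none, Option.elim_some, Int.cast_one, mul_zero,
            Finset.sum_const_zero, add_zero, mul_one]
          have h2 : (TV.zero ψM).D ⟨h' t, hh' t⟩ = 0 := rfl
          change (TV.zero ψM).D ⟨h' t, hh' t⟩ + ψM ⟨h' t, hh' t⟩ ≠ 0
          rw [h2, zero_add]
          exact hne
      · obtain ⟨v, hv1, hv2⟩ := hind t κ ψM (some j)
        have hom : v.D.D ⟨h t, hPS.hA t⟩ + ψM ⟨h t, hPS.hA t⟩ * ∑ i, (c i : κ) * v.e (some i) =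
            0 := by
          by_contra h1
          simpa using hv1.1 h1
        have h3 := hC2 v
        rw [hom, h0, zero_mul, zero_add] at h3
        have hDf : v.D.D ⟨fe t, hfA t⟩ = 0 := (mul_eq_zero.1 h3).resolve_left hne
        let ε : κ := -(v.D.D ⟨h' t, hh' t⟩ + ψM ⟨h' t, hh' t⟩ * ∑ i, (c i : κ) * v.e (some i)) *
          (ψM ⟨h' t, hh' t⟩)⁻¹
        let v3 : LT ψ (M3.x t) := ⟨v.D, fun o => o.elim ε fun i => v.e (some i), by
          rintro (_ | i) hi
          · change v.D.D ⟨fe t, hi⟩ = ψM ⟨fe t, hi⟩ * ε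
            rw [hDf, h0, zero_mul]
          · exact v.hx (some i) hi⟩
        refine ⟨v3, ?_, ?_⟩
        · intro l
          rw [hform v v3 rfl (fun i => rfl)]
          exact hv2 l
        · refine ⟨fun h5 => ?_, fun h5 => by simp at h5⟩
          exfalso
          apply h5
          unfold om
          rw [Fintype.sum_option]
          simp only [Option.elim_none, Option.elim_some, Int.cast_one, one_mul]
          rw [Finset.sum_congr rfl fun i _ => by rw [hcμ κ i]]
          change v.D.D ⟨h' t, hh' t⟩ + ψM ⟨h' t, hh' t⟩ * (ε + ∑ i, (c i : κ) * v.e (some i)) = 0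
          simp only [ε]
          field_simp
          ring
    · -- outside of the divisor
      obtain ⟨v, hv1, hv2⟩ := hind t κ ψM o
      have h3 := hC2 v
      let ε : κ := v.D.D ⟨fe t, hfA t⟩ * (ψM ⟨fe t, hfA t⟩)⁻¹
      let v3 : LT ψ (M3.x t) := ⟨v.D, fun o => o.elim ε fun i => v.e (some i), by
        rintro (_ | i) hi
        · change v.D.D ⟨fe t, hi⟩ = ψM ⟨fe t, hi⟩ * ε
          simp only [ε]
          field_simp
        · exact v.hx (some i) hi⟩
      refine ⟨v3, ?_, ?_⟩
      · intro l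
        rw [hform v v3 rfl (fun i => rfl)]
        exact hv2 l
      · have h4 : om v3 (fun o' => o'.elim 1 fun i => c i + p * μ i) (hh' t) =
            (ψM ⟨fe t, hfA t⟩)⁻¹ * (v.D.D ⟨h t, hPS.hA t⟩ +
              ψM ⟨h t, hPS.hA t⟩ * ∑ i, (c i : κ) * v.e (some i)) := by
          unfold om
          rw [Fintype.sum_option]
          simp only [Option.elim_none, Option.elim_some, Int.cast_one, one_mul]
          rw [Finset.sum_congr rfl fun i _ => by rw [hcμ κ i]]
          change v.D.D ⟨h' t, hh' t⟩ + ψM ⟨h' t, hh' t⟩ * (ε + ∑ i, (c i : κ) * v.e (some i)) = _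
          rw [← h3]
          simp only [ε]
          field_simp
          ring
        rw [h4, mul_ne_zero_iff, and_iff_right (inv_ne_zero h0)]
        exact hv1
  -- the normal form of `F`
  have hNF' : ∀ t, F = (-a' t) ^ p + mn (M.x t) (fun i => c i + p * μ i) * fe t * -h' t := by
    intro t
    have h1 := hNF t
    have h2 : (-a' t) ^ p = -(a' t) ^ p := by
      have h3 : (0 - a' t) ^ p = 0 ^ p - a' t ^ p := by rw [sub_pow_char]
      rwa [zero_pow hp.ne_zero, zero_sub, zero_sub] at h3
    rw [h2]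
    linear_combination -h1
  have hh'' : ∀ t, -h' t ∈ M.A t := fun t => (M.A t).neg_mem (hh' t)
  refine ⟨T, Option I, inferInstance, inferInstance, M3,
    fun o => o.elim (fun o' => o'.elim 1 fun i => c i + p * μ i)
      fun j o' => o'.elim 0 (n j),
    fun t o => o.elim (-a' t) fun j => a t j,
    fun t o => o.elim (-h' t) fun j => hh t j,
    Sum.elim (fun b o => o.elim 0 (Γ b)) (fun _ o => o.elim 1 fun i => p * μ i + min (c i) 0),
    ⟨?_, ?_, ?_⟩, ?_, fun t x => hFr t x⟩
  · rintro t (_ | j)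
    · exact hh'' t
    · exact hA t j
  · rintro t (_ | j)
    · change F = (-a' t) ^ p +
        (∏ o : Option I, M3.x t o ^ (o.elim 1 fun i => c i + p * μ i : ℤ)) * -h' t
      rw [hmn3, zpow_one]
      conv_lhs => rw [hNF' t]
      ring
    · change f j = (a t j) ^ p +
        (∏ o : Option I, M3.x t o ^ (o.elim 0 (n j) : ℤ)) * hh t j
      rw [hmn3, zpow_zero, one_mul]
      exact heq t j
  · intro t κ _ _ ψ o
    obtain ⟨v, h1, h2⟩ := key t κ ψ o
    have hneg : ∀ (m : Option I → ℤ) (hz : -h' t ∈ M3.A t), om v m hz =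
        -om v m (show h' t ∈ M3.A t from hh' t) := by
      intro m hz
      unfold om
      have h3 : (⟨-h' t, hz⟩ : M3.A t) = -⟨h' t, hh' t⟩ := rfl
      rw [h3, map_neg, map_neg]
      ring
    refine ⟨v, ?_, ?_⟩
    · rcases o with _ | j
      · have h3 := h2.2 rfl
        refine fun h4 => h3 ?_
        have h5 := hneg (fun o' => o'.elim 1 fun i => c i + p * μ i) (hh'' t)
        have h6 : om v (fun o' => o'.elim 1 fun i => c i + p * μ i)
          (show -h' t ∈ M3.A t from hh'' t) = 0 := h4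
        rw [h6] at h5
        exact neg_eq_zero.1 h5.symm
      · exact (h1 j).2 rfl
    · rintro (_ | l) hl
      · by_contra h3
        apply hl
        have h5 := hneg (fun o' => o'.elim 1 fun i => c i + p * μ i) (hh'' t)
        refine (h2.1 fun h6 => h3 ?_).symm
        exact h5.trans (by rw [h6, neg_zero])
      · by_contra h3
        exact hl ((h1 l).1 h3).symm
  · rintro (b | _) t
    · obtain ⟨w, hw0, hwA, hwA', h1⟩ := hFn b t
      refine ⟨w, hw0, hwA, hwA', ?_⟩
      change g b = w * ∏ o : Option I, M3.x t o ^ (o.elim 0 (Γ b) : ℤ)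
      rw [hmn3, zpow_zero, one_mul]
      exact h1
    · refine ⟨w t, (hw t).1, (hw t).2.1, (hw t).2.2, ?_⟩
      change F = w t * ∏ o : Option I, M3.x t o ^ (o.elim 1 fun i => p * μ i + min (c i) 0 : ℤ)
      rw [hmn3, zpow_one]
      conv_lhs => rw [hF' t]
      ring

end addF

end Pool.Agent.KS6_21.P2
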