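import Pool.Agent.KS6_21.P2.AddF

/-!
Normal forms which become pencils after the principalization of the `p`-th power.
-/

set_option autoImplicit false
set_option linter.unusedVariables false
set_option linter.unusedSectionVars false

universe u

open Polynomial Pool.Agent.W177.WD Pool.Agent.KS6_21.P1 Pool.Agent.TH188.WQ

open Pool.Agent.W558 hiding Ovr ci

namespace Pool.Agent.KS6_21.P2

section ovp

variable {k N : Type u} [Field k] [Field N] [Algebra k N] {T T' I I' : Type} [Fintype I]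
  [Fintype I'] {M : LM (⊥ : Subalgebra k N) ⊤ T I} {y : T → N}
  {M' : LM (⊥ : Subalgebra k N) ⊤ T' I'} {y' : T' → N} {π : T' → T} {Θ : I' → I → ℤ}

lemma ovp_mn (ho : OvP M y M' y' π Θ) (t' : T') (γ : I → ℤ) :
    mn (M.x (π t')) γ = mn (M'.x t') (Pool.Agent.TH214.tr Θ γ) := by
  classical
  unfold mn Pool.Agent.TH214.tr
  have h1 : ∀ i, M.x (π t') i ^ γ i = ∏ i', M'.x t' i' ^ (Θ i' i * γ i) := by
    intro i
    rw [ho.x t' i, ← Finset.prod_zpow]
    exact Finset.prod_congr rfl fun i' _ => by rw [zpow_mul]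
  rw [Finset.prod_congr rfl fun i _ => h1 i, Finset.prod_comm]
  refine Finset.prod_congr rfl fun i' _ => ?_
  have h2 := M'.x0 t' i'
  have h3 : ∀ s : Finset I, ∏ i ∈ s, M'.x t' i' ^ (Θ i' i * γ i) =
      M'.x t' i' ^ (∑ i ∈ s, Θ i' i * γ i) := by
    intro s
    induction s using Finset.induction_on with
    | empty => simp
    | insert a s ha ih => rw [Finset.prod_insert ha, Finset.sum_insert ha, ih, zpow_add₀ h2]
  exact h3 Finset.univ

lemma ovp_sum {κ : Type u} [Field κ] {e : I → κ} {e' : I' → κ}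
    (h : ∀ i, ∑ i', (Θ i' i : κ) * e' i' = e i) (γ : I → ℤ) :
    ∑ i', (Pool.Agent.TH214.tr Θ γ i' : κ) * e' i' = ∑ i, (γ i : κ) * e i := by
  have h3 : ∀ i', (Pool.Agent.TH214.tr Θ γ i' : κ) * e' i' =
      ∑ i, (γ i : κ) * ((Θ i' i : κ) * e' i') := by
    intro i'
    unfold Pool.Agent.TH214.tr
    push_cast
    rw [Finset.sum_mul]
    apply Finset.sum_congr rfl
    intro i _
    ring
  rw [Finset.sum_congr rfl fun i' _ => h3 i', Finset.sum_comm]
  apply Finset.sum_congr rfl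
  intro i _
  rw [← Finset.mul_sum, h i]

end ovp

section core

variable (p : ℕ) [Fact p.Prime] {k N : Type u} [Field k] [PerfectField k] [CharP k p]
  [Field N] [Algebra k N]

theorem core {T I G ι : Type} [Finite T] [Fintype I] (M : LM (⊥ : Subalgebra k N) ⊤ T I)
    (f : Option ι → N) (hF0 : f none ≠ 0) (n : Option ι → I → ℤ) (a h : T → Option ι → N)
    (hNF : NFJ p M f n a h) (hFr : Frc M) (g : G → N) (Γ : G → I → ℤ) (hFn : Fn M g Γ)
    (μ : I → ℤ) (y : T → N) (hyA : ∀ t, y t ∈ M.A t)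
    (hay : ∀ t, a t none = mn (M.x t) μ * y t)
    (hch : ∀ t, LE' (M.A t) (M.x t) (n none) (fun i => p * μ i) ∨
      (y t ≠ 0 ∧ SNC (M.A t) (ox (y t) (M.x t)) ∧
        ∀ (κ : Type u) [Field κ] [Algebra k κ] (φ : M.A t →ₐ[k] κ) (o : Option ι),
          ∃ v : LT φ (ox (y t) (M.x t)),
            (v.D.D ⟨h t o, hNF.hA t o⟩ + φ ⟨h t o, hNF.hA t o⟩ *
              ∑ i, (n o i : κ) * v.e (some i) ≠ 0) ∧
            ∀ l, l ≠ o → v.D.D ⟨h t l, hNF.hA t l⟩ + φ ⟨h t l, hNF.hA t l⟩ *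
              ∑ i, (n l i : κ) * v.e (some i) = 0)) :
    GM p k f (Sum.elim g (fun _ : Unit => f none)) := by
  classical
  have hp : p.Prime := Fact.out
  have hcN : CharP N p := charP_of_injective_algebraMap (algebraMap k N).injective p
  let c : I → ℤ := fun i => n none i - p * μ i
  let W : T → Prop := fun t => LE' (M.A t) (M.x t) (n none) (fun i => p * μ i)
  have hmn : ∀ t, mn (M.x t) (n none) = mn (M.x t) μ ^ p * mn (M.x t) c := by
    intro t
    rw [← mn_mul, ← mn_add (M.x0 t)]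
    exact mn_congr fun i => by simp only [c]; ring
  have hcκ : ∀ (κ : Type u) [Field κ] [Algebra k κ] (i : I), (c i : κ) = (n none i : κ) := by
    intro κ _ _ i
    have hp0 : (p : κ) = 0 := cast_zero (k := k) p κ
    simp only [c]
    push_cast
    rw [hp0, zero_mul, sub_zero]
  let y' : T → N := fun t => if W t then 1 else y t
  let h' : T → N := fun t => if W t then mn (M.x t) (fun i => -c i) * (1 - y t) ^ p - h t none
    else -h t none
  have hzA : ∀ t, W t → mn (M.x t) (fun i => -c i) * (1 - y t) ^ p ∈ M.A t := by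
    intro t ht
    refine (M.A t).mul_mem (mn_mem (M.xA t) fun i => ?_)
      ((M.A t).pow_mem ((M.A t).sub_mem (M.A t).one_mem (hyA t)) _)
    rcases ht i with h1 | h1
    · left
      simp only [c]
      simp only at h1
      omega
    · exact Or.inr h1
  have hy'A : ∀ t, y' t ∈ M.A t := by
    intro t
    simp only [y']
    split_ifs
    · exact (M.A t).one_mem
    · exact hyA t
  have hh'A : ∀ t, h' t ∈ M.A t := by
    intro t
    simp only [h']
    split_ifs with ht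
    · exact (M.A t).sub_mem (hzA t ht) (hNF.hA t none)
    · exact (M.A t).neg_mem (hNF.hA t none)
  have hy'0 : ∀ t, y' t ≠ 0 := by
    intro t
    simp only [y']
    split_ifs with ht
    · exact one_ne_zero
    · exact ((hch t).resolve_left ht).1
  have heqF : ∀ t, f none = (∏ i, M.x t i ^ ((p : ℤ) * μ i)) *
      (y' t ^ p - (∏ i, M.x t i ^ c i) * h' t) := by
    intro t
    have h1 : f none = (a t none) ^ p + mn (M.x t) (n none) * h t none := hNF.eq t none
    have h2 : (∏ i, M.x t i ^ ((p : ℤ) * μ i)) = mn (M.x t) μ ^ p := mn_mul _ _ _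
    have h3 : mn (M.x t) c * mn (M.x t) (fun i => -c i) = 1 := by
      rw [mn_neg]
      exact mul_inv_cancel₀ (mn_ne (M.x0 t) c)
    rw [h2, h1, hay t, hmn t]
    change _ = mn (M.x t) μ ^ p * (y' t ^ p - mn (M.x t) c * h' t)
    simp only [y', h']
    by_cases ht : W t
    · rw [if_pos ht, if_pos ht, sub_pow_char, one_pow]
      linear_combination (mn (M.x t) μ ^ p * (1 - y t ^ p)) * h3
    · rw [if_neg ht, if_neg ht]
      ring
  have hsnc : ∀ t, SNC (M.A t) (ox (y' t) (M.x t)) := by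
    intro t
    by_cases ht : W t
    · have hy1 : y' t = 1 := if_pos ht
      rw [hy1]
      rintro κ _ _ φ (_ | i) hi h0
      · exfalso
        have h1 : (⟨ox (1 : N) (M.x t) none, hi⟩ : M.A t) = 1 := rfl
        rw [h1, map_one] at h0
        exact one_ne_zero h0
      · obtain ⟨D, hD, hD'⟩ := M.snc t κ φ i hi h0
        refine ⟨D, hD, ?_⟩
        rintro (_ | j) hj hne h1
        · exfalso
          have h2 : (⟨ox (1 : N) (M.x t) none, hj⟩ : M.A t) = 1 := rfl
          rw [h2, map_one] at h1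
          exact one_ne_zero h1
        · exact hD' j hj (fun h => hne (by rw [h])) h1
    · have hy1 : y' t = y t := if_neg ht
      rw [hy1]
      exact ((hch t).resolve_left ht).2.1
  -- the forms
  have hform : ∀ t (κ : Type u) [Field κ] [Algebra k κ] (φ : M.A t →ₐ[k] κ)
      (v : LT φ (ox (y' t) (M.x t))),
      v.D.D ⟨h' t, hh'A t⟩ + φ ⟨h' t, hh'A t⟩ * ∑ i, (c i : κ) * v.e (some i) =
      -(v.D.D ⟨h t none, hNF.hA t none⟩ + φ ⟨h t none, hNF.hA t none⟩ *
        ∑ i, (n none i : κ) * v.e (some i)) := by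
    intro t κ _ _ φ v
    have hs : ∑ i, (c i : κ) * v.e (some i) = ∑ i, (n none i : κ) * v.e (some i) :=
      Finset.sum_congr rfl fun i _ => by rw [hcκ κ i]
    by_cases ht : W t
    · have := M.sm t
      let v1 : LT φ (M.x t) := ⟨v.D, fun i => v.e (some i), fun i hi => v.hx (some i) hi⟩
      have h1 := (lg_root (M.snc t) (M.xA t) (M.x0 t) (hFr t) (hzA t ht) v1).eq (hzA t ht)
      have h2 : (⟨h' t, hh'A t⟩ : M.A t) = ⟨_, hzA t ht⟩ - ⟨h t none, hNF.hA t none⟩ :=
        Subtype.ext (if_pos ht)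
      rw [h2, map_sub, map_sub]
      have h3 : v.D.D ⟨_, hzA t ht⟩ = φ ⟨_, hzA t ht⟩ * ∑ i, ((-c i : ℤ) : κ) * v.e (some i) := h1
      have h4 : ∑ i, ((-c i : ℤ) : κ) * v.e (some i) = -∑ i, (n none i : κ) * v.e (some i) := by
        rw [← hs, ← Finset.sum_neg_distrib]
        exact Finset.sum_congr rfl fun i _ => by push_cast; ring
      rw [h3, h4, hs]
      ring
    · have h2 : (⟨h' t, hh'A t⟩ : M.A t) = -⟨h t none, hNF.hA t none⟩ :=
        Subtype.ext (if_neg ht)
      rw [h2, map_neg, map_neg, hs]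
      ring
  have hind0 : ∀ t (κ : Type u) [Field κ] [Algebra k κ] (φ : M.A t →ₐ[k] κ) (o : Option ι),
      ∃ v : LT φ (ox (y' t) (M.x t)),
        (v.D.D ⟨h t o, hNF.hA t o⟩ + φ ⟨h t o, hNF.hA t o⟩ *
          ∑ i, (n o i : κ) * v.e (some i) ≠ 0) ∧
        ∀ l, l ≠ o → v.D.D ⟨h t l, hNF.hA t l⟩ + φ ⟨h t l, hNF.hA t l⟩ *
          ∑ i, (n l i : κ) * v.e (some i) = 0 := by
    intro t κ _ _ φ o
    by_cases ht : W t
    · have hy1 : y' t = 1 := if_pos ht
      rw [hy1]
      obtain ⟨v, hv1, hv2⟩ := hNF.ln t κ φ o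
      refine ⟨⟨v.D, fun o' => o'.elim 0 v.e, ?_⟩, hv1, hv2⟩
      rintro (_ | i) hi
      · have h2 : (⟨ox (1 : N) (M.x t) none, hi⟩ : M.A t) = 1 := rfl
        rw [h2, v.D.D_one]
        exact (mul_zero _).symm
      · exact v.hx i hi
    · have hy1 : y' t = y t := if_neg ht
      rw [hy1]
      exact ((hch t).resolve_left ht).2.2 κ φ o
  have hPS : PS p M (f none) ⊤ y' h' c μ := by
    refine ⟨hy'A, hy'0, hh'A, fun t => le_top, fun t i => Algebra.mem_top,
      fun t => Algebra.mem_top, heqF, hsnc, ?_⟩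
    intro t κ _ _ φ
    obtain ⟨v, hv, -⟩ := hind0 t κ φ none
    refine ⟨v, fun h0 => hv ?_⟩
    have h1 := hform t κ φ v
    unfold om at h0
    rw [Fintype.sum_option] at h0
    simp only [Option.elim_none, Option.elim_some, Int.cast_zero, zero_mul, zero_add] at h0
    rw [h0] at h1
    exact neg_eq_zero.1 h1.symm
  have hLq : Lq M ⊤ := by
    intro t q _
    obtain ⟨α, hα, β, hβ, hβ0, hq⟩ := hFr t q
    refine ⟨α, hα, β, hβ, hβ0, Algebra.mem_top, ?_⟩
    rw [hq, mul_assoc, inv_mul_cancel₀ hβ0, mul_one]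
  obtain ⟨T', I', hT', hI', M', y'', c'', μ'', Γ'', π, Θ, hPS', -, hFn', hF2, hOv, hcc⟩ :=
    wq_ppr p k N T I G M (f none) ⊤ y' h' c μ g Γ hPS hLq hFn
  have hFr' : Frc M' := by
    intro t' x
    obtain ⟨α, hα, β, hβ, hβ0, hq⟩ := hFr (π t') x
    exact ⟨α, hOv.le t' hα, β, hOv.le t' hβ, hβ0, hq⟩
  have hres := addF1 p M' (f none) hF0 y'' (fun t' => h' (π t')) c'' μ'' hPS' hFr' g Γ'' hFn' hF2
    (fun j => f (some j)) (fun j => Pool.Agent.TH214.tr Θ (n (some j)))
    (fun t' j => a (π t') (some j)) (fun t' j => h (π t') (some j))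
    (fun t' j => hOv.le t' (hNF.hA (π t') (some j))) (fun t' j => by
      rw [← ovp_mn hOv]
      exact hNF.eq (π t') (some j)) ?_
  · have e1 : (fun o : Option ι => o.elim (f none) fun j => f (some j)) = f := by
      funext o
      cases o <;> rfl
    rw [e1] at hres
    exact hres
  intro t' κ _ _ ψ o
  have hp0 : (p : κ) = 0 := cast_zero (k := k) p κ
  obtain ⟨v, hv1, hv2⟩ := hind0 (π t') κ (ψ.comp (Subalgebra.inclusion (hOv.le t'))) o
  obtain ⟨v', h1, h2⟩ := hOv.lt t' κ ψ v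
  have hval : ∀ (z : N) (hz : z ∈ M.A (π t')) (γ : I → ℤ),
      v'.D.D ⟨z, hOv.le t' hz⟩ + ψ ⟨z, hOv.le t' hz⟩ *
        ∑ i', (Pool.Agent.TH214.tr Θ γ i' : κ) * v'.e (some i') =
      v.D.D ⟨z, hz⟩ + (ψ.comp (Subalgebra.inclusion (hOv.le t'))) ⟨z, hz⟩ *
        ∑ i, (γ i : κ) * v.e (some i) := by
    intro z hz γ
    rw [h1 z hz, ovp_sum (e' := fun i' => v'.e (some i')) (e := fun i => v.e (some i)) h2 γ]
    rfl
  have hiff : ∀ l, (v.D.D ⟨h (π t') l, hNF.hA (π t') l⟩ +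
      (ψ.comp (Subalgebra.inclusion (hOv.le t'))) ⟨h (π t') l, hNF.hA (π t') l⟩ *
        ∑ i, (n l i : κ) * v.e (some i) ≠ 0 ↔ o = l) := by
    intro l
    constructor
    · intro h3
      by_contra h4
      exact h3 (hv2 l fun h5 => h4 h5.symm)
    · rintro rfl
      exact hv1
  refine ⟨v', ?_, ?_⟩
  · have h3 : ∑ i', (c'' i' : κ) * v'.e (some i') =
        ∑ i', (Pool.Agent.TH214.tr Θ (fun i => c i + p * μ i) i' : κ) * v'.e (some i') := by
      refine Finset.sum_congr rfl fun i' _ => ?_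
      have h4 : ((c'' i' + p * μ'' i' : ℤ) : κ) =
          ((Pool.Agent.TH214.tr Θ (fun i => c i + p * μ i) i' : ℤ) : κ) :=
        congrArg (Int.cast : ℤ → κ) (hcc i')
      have h6 : ((c'' i' + p * μ'' i' : ℤ) : κ) = c'' i' := by
        push_cast
        rw [hp0, zero_mul, add_zero]
      rw [← h4, h6]
    rw [h3, hval _ (hh'A (π t')) (fun i => c i + p * μ i), ← hiff none]
    have h5 : ∑ i, ((c i + p * μ i : ℤ) : κ) * v.e (some i) = ∑ i, (c i : κ) * v.e (some i) := by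
      refine Finset.sum_congr rfl fun i _ => ?_
      push_cast
      rw [hp0, zero_mul, add_zero]
    rw [h5, hform (π t') κ _ v, neg_ne_zero]
  · intro j
    rw [hval _ (hNF.hA (π t') (some j)) (n (some j))]
    exact hiff (some j)

/-- As `core`, where transversality and independence along the additional divisor are consequences
of the existence of a logarithmic tangent vector on which the forms of the functions vanish. -/
theorem core2 {T I G ι : Type} [Finite T] [Fintype I] (M : LM (⊥ : Subalgebra k N) ⊤ T I)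
    (f : Option ι → N) (hF0 : f none ≠ 0) (n : Option ι → I → ℤ) (a h : T → Option ι → N)
    (hNF : NFJ p M f n a h) (hFr : Frc M) (g : G → N) (Γ : G → I → ℤ) (hFn : Fn M g Γ)
    (μ : I → ℤ) (y : T → N) (hyA : ∀ t, y t ∈ M.A t)
    (hay : ∀ t, a t none = mn (M.x t) μ * y t)
    (hch : ∀ t, LE' (M.A t) (M.x t) (n none) (fun i => p * μ i) ∨
      (y t ≠ 0 ∧ ∀ (κ : Type u) [Field κ] [Algebra k κ] (φ : M.A t →ₐ[k] κ),
        φ ⟨y t, hyA t⟩ = 0 → ∃ v : LT φ (M.x t), v.D.D ⟨y t, hyA t⟩ ≠ 0 ∧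
          ∀ l, om v (n l) (hNF.hA t l) = 0)) :
    GM p k f (Sum.elim g (fun _ : Unit => f none)) := by
  refine core p M f hF0 n a h hNF hFr g Γ hFn μ y hyA hay fun t => ?_
  rcases hch t with h1 | ⟨hy0, h1⟩
  · exact Or.inl h1
  refine Or.inr ⟨hy0, ?_, ?_⟩
  · rintro κ _ _ φ (_ | i) hi h0
    · obtain ⟨v, hv, -⟩ := h1 κ φ h0
      refine ⟨TV.comb (v.D.D ⟨y t, hyA t⟩)⁻¹ 0 v.D v.D, ?_, ?_⟩
      · rw [TV.comb_D]
        change (v.D.D ⟨y t, hyA t⟩)⁻¹ * v.D.D ⟨y t, hyA t⟩ + 0 * _ = 1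
        rw [inv_mul_cancel₀ hv, zero_mul, add_zero]
      · rintro (_ | j) hj hne h2
        · exact absurd rfl hne
        · have h3 := v.hx j (M.xA t j)
          rw [TV.comb_D]
          have h4 : v.D.D ⟨ox (y t) (M.x t) (some j), hj⟩ = 0 := by
            refine h3.trans ?_
            rw [show φ ⟨M.x t j, M.xA t j⟩ = 0 from h2, zero_mul]
          rw [h4, mul_zero, mul_zero, add_zero]
    · obtain ⟨D, hD, hD'⟩ := M.snc t κ φ i hi h0
      by_cases hy : φ ⟨y t, hyA t⟩ = 0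
      · obtain ⟨v, hv, -⟩ := h1 κ φ hy
        have hvx : ∀ j (hj : M.x t j ∈ M.A t), φ ⟨M.x t j, hj⟩ = 0 →
            v.D.D ⟨M.x t j, hj⟩ = 0 := fun j hj h2 => by rw [v.hx j hj, h2, zero_mul]
        refine ⟨TV.comb 1 (-(D.D ⟨y t, hyA t⟩ * (v.D.D ⟨y t, hyA t⟩)⁻¹)) D v.D, ?_, ?_⟩
        · rw [TV.comb_D]
          change 1 * D.D ⟨M.x t i, hi⟩ + _ * v.D.D ⟨M.x t i, hi⟩ = 1
          rw [hD, hvx i hi h0, mul_zero, add_zero, mul_one]
        · rintro (_ | j) hj hne h2
          · rw [TV.comb_D]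
            change 1 * D.D ⟨y t, hyA t⟩ + _ * v.D.D ⟨y t, hyA t⟩ = 0
            field_simp
            ring
          · rw [TV.comb_D]
            change 1 * D.D ⟨M.x t j, hj⟩ + _ * v.D.D ⟨M.x t j, hj⟩ = 0
            rw [hD' j hj (fun h => hne (by rw [h])) h2, hvx j hj h2, mul_zero, mul_zero, add_zero]
      · refine ⟨D, hD, ?_⟩
        rintro (_ | j) hj hne h2
        · exact absurd h2 hy
        · exact hD' j hj (fun h => hne (by rw [h])) h2
  · intro κ _ _ φ o
    obtain ⟨v, hv1, hv2⟩ := hNF.ln t κ φ o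
    by_cases hy : φ ⟨y t, hyA t⟩ = 0
    · obtain ⟨w, hw, hw'⟩ := h1 κ φ hy
      let u : LT φ (M.x t) := lc 1 (-(v.D.D ⟨y t, hyA t⟩ * (w.D.D ⟨y t, hyA t⟩)⁻¹)) v w
      have hu : ∀ l, om u (n l) (hNF.hA t l) = om v (n l) (hNF.hA t l) := by
        intro l
        have h2 := om_lc (1 : κ) (-(v.D.D ⟨y t, hyA t⟩ * (w.D.D ⟨y t, hyA t⟩)⁻¹)) v w (n l)
          (hNF.hA t l)
        rw [hw' l, mul_zero, add_zero, one_mul] at h2
        exact h2
      have huy : u.D.D ⟨y t, hyA t⟩ = 0 := by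
        change 1 * v.D.D ⟨y t, hyA t⟩ + _ * w.D.D ⟨y t, hyA t⟩ = 0
        field_simp
        ring
      refine ⟨⟨u.D, fun o => o.elim 0 u.e, ?_⟩, ?_, ?_⟩
      · rintro (_ | i) hi
        · refine huy.trans ?_
          exact (mul_zero _).symm
        · exact u.hx i hi
      · have h2 := hu o
        unfold om at h2 hv1
        change u.D.D _ + φ _ * ∑ i, (n o i : κ) * u.e i ≠ 0
        rw [h2]
        exact hv1
      · intro l hl
        have h2 := hu l
        rw [hv2 l hl] at h2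
        exact h2
    · refine ⟨⟨v.D, fun o => o.elim (v.D.D ⟨y t, hyA t⟩ * (φ ⟨y t, hyA t⟩)⁻¹) v.e, ?_⟩, hv1, hv2⟩
      rintro (_ | i) hi
      · change v.D.D ⟨y t, hyA t⟩ = φ ⟨y t, hyA t⟩ * (v.D.D ⟨y t, hyA t⟩ * (φ ⟨y t, hyA t⟩)⁻¹)
        field_simp
      · exact v.hx i hi

end core

end Pool.Agent.KS6_21.P2
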