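import Pool.Agent.KS6_21.P2.Step2

/-!
The first and the last term of a diagonal equation.
-/

set_option autoImplicit false
set_option linter.unusedVariables false
set_option linter.unusedSectionVars false

universe u

open Polynomial Pool.Agent.W177.WD Pool.Agent.KS6_21.P1 Pool.Agent.TH188.WQ Pool.Agent.TH214
  Pool.Agent.N98 Pool.Agent.N762.RC Pool.Agent.N762.RC2 Pool.Agent.N762.FP Pool.Agent.TH214.V

open Pool.Agent.W558 hiding Ovr ci

namespace Pool.Agent.KS6_21.P2

section prod

variable (p : ℕ) [Fact p.Prime] {k K1 E C : Type u} [Field k] [PerfectField k] [CharP k p]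
  [Field K1] [Field E] [Field C] [Algebra k K1] [Algebra k E] [Algebra k C] (i1 : K1 →ₐ[k] C)
  (i2 : E →ₐ[k] C)

/-- The product with a surface. -/
theorem md_prodE (hinj : Function.Injective (Algebra.TensorProduct.productMap i1 i2))
    (htop : IntermediateField.adjoin k (Set.range i1 ∪ Set.range i2) = ⊤)
    {P1 : Set K1} {F : K1} (h1 : Md p k P1 (fun _ : Unit => F))
    (h2 : Algebra.trdeg k E = 2) (hE : HasModel k E) (f : E) :
    Md p k (i1 '' P1 ∪ Set.range i2) (fun _ : Unit => i1 F) ∧
      ((∃ β ∈ i1 '' P1 ∪ Set.range i2, i2 f = β ^ p) ∨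
        Md p k (i1 '' P1 ∪ Set.range i2) (fun b : Bool => if b = true then i2 f else i1 F)) := by
  refine ⟨?_, ?_⟩
  · have h3 := md_prod (p := p) i1 i2 hinj htop h1
      (md_surf p h2 hE (fun e : Empty => (e.elim : E)) fun e => e.elim)
    rw [Set.image_univ] at h3
    exact h3.comp' Sum.inl Sum.inl_injective fun _ => rfl
  · by_cases hf : ∃ b, b ^ p = f
    · obtain ⟨b, rfl⟩ := hf
      exact Or.inl ⟨i2 b, Or.inr ⟨b, rfl⟩, map_pow _ _ _⟩
    · right
      have h3 := md_prod (p := p) i1 i2 hinj htop h1
        (md_surf p h2 hE (fun _ : Unit => f) fun _ => hf)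
      rw [Set.image_univ] at h3
      exact h3.comp' (fun b : Bool => if b = true then Sum.inr () else Sum.inl ()) (by
        intro a b
        cases a <;> cases b <;> simp) (by
        intro b
        cases b <;> rfl)

end prod

section base

variable (p : ℕ) [Fact p.Prime] {k E N : Type u} [Field k] [PerfectField k] [CharP k p]
  [Field E] [Field N] [Algebra k E] [Algebra E N] [Algebra k N] [IsScalarTower k E N]

/-- The first term. -/
theorem md_base (h2 : Algebra.trdeg k E = 2) (hE : HasModel k E) (f : E) (hf0 : f ≠ 0) (z : N)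
    (hz : Transcendental E z) (hgen : IntermediateField.adjoin E {z} = ⊤) (d : ℕ)
    (hfd : (∀ b, b ^ p ≠ f) ∨ ¬ p ∣ d) :
    Md p k (insert z (insert (algebraMap E N f * z ^ d) (Set.range (algebraMap E N))))
      (fun _ : Unit => algebraMap E N f * z ^ d) := by
  classical
  have hp : p.Prime := Fact.out
  have hz0 : z ≠ 0 := by
    rintro rfl
    exact hz isAlgebraic_zero
  have hnd : ¬ (p : ℤ) ∣ 1 := by
    intro h
    have := Int.le_of_dvd one_pos h
    have := hp.two_le
    omega
  by_cases hf : ∃ b, b ^ p = f
  · obtain ⟨β, rfl⟩ := hf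
    have hβ0 : β ≠ 0 := by
      rintro rfl
      exact hf0 (zero_pow hp.ne_zero)
    have hd : ¬ p ∣ d := hfd.resolve_left fun h => h β rfl
    have h1 := md_line p (md_surf p h2 hE (fun e : Empty => (e.elim : E)) fun e => e.elim) z hz
      hgen
    have h3 := md_mul p h1 (ι' := Unit) (fun _ _ => (d : ℤ)) (fun _ => ⟨none, by
      rwa [Int.natCast_dvd_natCast]⟩) (fun i i' h => absurd rfl h) (fun _ o _ => Or.inl (by
        rcases o with _ | e
        · exact Or.inr ⟨(), rfl⟩
        · exact e.elim)) (fun _ => z ^ d) (fun _ _ => by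
        rw [Fintype.prod_eq_single (none : Option Empty)]
        · simp
        · rintro (_ | e) he
          · exact absurd rfl he
          · exact e.elim)
    have h4 := md_mulp p h3 (fun _ => algebraMap E N β)
      (fun _ => Or.inl ⟨β, Set.mem_univ _, rfl⟩)
      (fun _ => (_root_.map_ne_zero _).2 hβ0)
    rw [← map_pow] at h4
    refine md_sat h4 ?_
    rintro q (rfl | rfl | ⟨q, rfl⟩) hq0
    · exact ⟨1, one_ne_zero, 1, 1, fun _ => q, fun _ => 1, fun _ => Or.inr ⟨(), rfl⟩, by simp⟩
    · refine ⟨1, one_ne_zero, 1, 2, ![z, algebraMap E N (β ^ p)], ![d, 1], ?_, ?_⟩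
      · intro i
        fin_cases i
        · exact Or.inr ⟨(), rfl⟩
        · exact Or.inl ⟨β ^ p, Set.mem_univ _, rfl⟩
      · simp [Fin.prod_univ_two]
        ring
    · exact ⟨1, one_ne_zero, 1, 1, fun _ => algebraMap E N q, fun _ => 1,
        fun _ => Or.inl ⟨q, Set.mem_univ _, rfl⟩, by simp⟩
  · have h1 := md_line p (md_surf p h2 hE (fun _ : Unit => f) fun _ => hf) z hz hgen
    have h3 := md_mul p h1 (ι' := Unit) (fun _ o => o.elim (d : ℤ) fun _ => 1)
      (fun _ => ⟨some (), hnd⟩) (fun i i' h => absurd rfl h) (fun _ o _ => Or.inl (by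
        rcases o with _ | _
        · exact Or.inr ⟨(), rfl⟩
        · exact Or.inl ⟨f, Set.mem_univ _, rfl⟩)) (fun _ => algebraMap E N f * z ^ d) (fun h _ => by
        obtain rfl : h = instFintypeOption := Subsingleton.elim _ _
        rw [Fintype.prod_option]
        simp [mul_comm])
    refine md_sat h3 ?_
    rintro q (rfl | rfl | ⟨q, rfl⟩) hq0
    · exact ⟨1, one_ne_zero, 1, 1, fun _ => q, fun _ => 1, fun _ => Or.inr ⟨(), rfl⟩, by simp⟩
    · refine ⟨1, one_ne_zero, 1, 2, ![z, algebraMap E N f], ![d, 1], ?_, ?_⟩
      · intro i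
        fin_cases i
        · exact Or.inr ⟨(), rfl⟩
        · exact Or.inl ⟨f, Set.mem_univ _, rfl⟩
      · simp [Fin.prod_univ_two]
        ring
    · exact ⟨1, one_ne_zero, 1, 1, fun _ => algebraMap E N q, fun _ => 1,
        fun _ => Or.inl ⟨q, Set.mem_univ _, rfl⟩, by simp⟩

end base

section last

variable (p : ℕ) [Fact p.Prime] {k C N : Type u} [Field k] [PerfectField k] [CharP k p]
  [Field C] [Field N] [Algebra k C] [Algebra C N] [Algebra k N] [IsScalarTower k C N] {P : Set C}

/-- The last term. -/
theorem md_last (F f : C) (hFP : F ∈ P) (hfP : f ∈ P) (hf0 : f ≠ 0)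
    (hM : Md p k P (fun _ : Unit => F))
    (hM2 : (∃ β ∈ P, f = β ^ p) ∨ Md p k P (fun b : Bool => if b = true then f else F))
    (z : N) (hgen : IntermediateField.adjoin C {z} = ⊤) (d : ℕ) (hd : ¬ p ^ 2 ∣ d)
    (hz : algebraMap C N F + algebraMap C N f * z ^ d = 0) :
    Md p k (insert z (algebraMap C N '' P)) (fun e : Empty => (e.elim : N)) := by
  classical
  have hp : p.Prime := Fact.out
  have hcN : CharP N p := charP_of_injective_algebraMap (algebraMap k N).injective p
  have hF0 : F ≠ 0 := md_ne p hM ()
  have hd0 : d ≠ 0 := by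
    rintro rfl
    exact hd (dvd_zero _)
  have hef : algebraMap C N f ≠ 0 := (_root_.map_ne_zero _).2 hf0
  have heF : algebraMap C N F ≠ 0 := (_root_.map_ne_zero _).2 hF0
  have hz0 : z ≠ 0 := by
    rintro rfl
    rw [zero_pow hd0, mul_zero, add_zero] at hz
    exact heF hz
  have hzd : z ^ d = algebraMap C N (-(F * f⁻¹)) := by
    rw [map_neg, map_mul, map_inv₀]
    field_simp
    linear_combination hz
  have hQP : ∀ q ∈ insert (-(F * f⁻¹)) P, q ≠ 0 → ∃ (n : ℕ), n ≠ 0 ∧ ∃ (c : k) (l : ℕ)
      (a : Fin l → C) (e : Fin l → ℤ), (∀ i, a i ∈ P) ∧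
      q ^ n = algebraMap k C c * ∏ i, a i ^ e i := by
    rintro q (rfl | hq) hq0
    · refine ⟨1, one_ne_zero, -1, 2, ![F, f], ![1, -1], ?_, ?_⟩
      · intro i
        fin_cases i
        · exact hFP
        · exact hfP
      · simp [Fin.prod_univ_two]
    · exact ⟨1, one_ne_zero, 1, 1, fun _ => q, fun _ => 1, fun _ => hq, by simp⟩
  by_cases hpd : p ∣ d
  · obtain ⟨e, rfl⟩ := hpd
    have he0 : e ≠ 0 := right_ne_zero_of_mul hd0
    have he : ¬ p ∣ e := by
      rintro ⟨e', rfl⟩
      exact hd ⟨e', by ring⟩
    let t : N := z ^ e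
    let L' := IntermediateField.adjoin C {t}
    let t' : L' := ⟨t, IntermediateField.mem_adjoin_simple_self C t⟩
    have hcL : CharP L' p := charP_of_injective_algebraMap (algebraMap k L').injective p
    have htp : t' ^ p = algebraMap C L' (-(F * f⁻¹)) := by
      apply Subtype.ext
      change (z ^ e) ^ p = algebraMap C N (-(F * f⁻¹))
      rw [← pow_mul, mul_comm e p, hzd]
    have hneg : (-1 : L') ^ p = -1 := neg_one_pow_char L' p
    have hcoe : ∀ q : C, ((algebraMap C L' q : L') : N) = algebraMap C N q := fun q => rfl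
    rcases hM2 with ⟨β, hβP, rfl⟩ | hM2
    · have hβ0 : β ≠ 0 := by
        rintro rfl
        exact hf0 (zero_pow hp.ne_zero)
      have hβ0' : algebraMap C L' β ≠ 0 := (_root_.map_ne_zero _).2 hβ0
      let w : L' := -1 * (algebraMap C L' β * t')
      have hwt : t' = -1 * algebraMap C L' β⁻¹ * w := by
        simp only [w]
        rw [map_inv₀]
        field_simp
      have hwp : w ^ p = algebraMap C L' F := by
        simp only [w]
        rw [mul_pow, mul_pow, hneg, htp, map_neg, map_mul, map_inv₀, map_pow]
        field_simp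
      have hgw : IntermediateField.adjoin C (Set.range fun _ : Fin 1 => w) = ⊤ := by
        rw [Set.range_const, eq_top_iff, ← adj_top (C := C) t, IntermediateField.adjoin_le_iff,
          Set.singleton_subset_iff]
        change t' ∈ IntermediateField.adjoin C {w}
        rw [hwt]
        exact mul_mem (mul_mem (neg_mem (one_mem _)) (IntermediateField.algebraMap_mem _ _))
          (IntermediateField.mem_adjoin_simple_self C w)
      have h1 : Md p k P (Sum.elim (fun _ : Unit => F) (fun e : Empty => e.elim)) :=
        hM.comp' (fun _ => ()) (by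
          rintro (a | a) (b | b) _
          · rfl
          · exact b.elim
          · exact a.elim
          · exact a.elim) (by
          rintro (a | a)
          · rfl
          · exact a.elim)
      have h2 := md_root_mul p h1 (fun _ => hFP) (fun _ : Fin 1 => w) (fun _ _ => 1)
        (fun _ _ => by
          rw [hwp, Fintype.prod_eq_single ()]
          · rw [zpow_one]
          · intro j hj
            exact absurd rfl hj) hgw
      have h3 := md_sat h2 (Q := insert t' (algebraMap C L' '' P)) (by
          rintro q (rfl | ⟨q, hq, rfl⟩) hq0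
          · refine ⟨1, one_ne_zero, -1, 2, ![w, algebraMap C L' β], ![1, -1], ?_, ?_⟩
            · intro i
              fin_cases i
              · exact Or.inr ⟨0, rfl⟩
              · exact Or.inl ⟨β, hβP, rfl⟩
            · simp [Fin.prod_univ_two]
              rw [hwt, map_inv₀]
              ring
          · exact ⟨1, one_ne_zero, 1, 1, fun _ => algebraMap C L' q, fun _ => 1,
              fun _ => Or.inl ⟨q, hq, rfl⟩, by simp⟩)
      have h4 := md_rad1 p t h3 z hz0 he rfl (Or.inl rfl) hgen (Q := insert z
        (algebraMap C N '' P)) (by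
          rintro q (rfl | ⟨q, hq, rfl⟩)
          · exact Or.inl rfl
          · exact Or.inr ⟨algebraMap C L' q, Or.inr ⟨q, hq, rfl⟩, rfl⟩)
      exact h4.comp' id Function.injective_id fun e => e.elim
    · let w : L' := -1 * t'
      have hwt : t' = -1 * w := by
        simp only [w]
        ring
      have hwp : w ^ p = algebraMap C L' F * (algebraMap C L' f)⁻¹ := by
        simp only [w]
        rw [mul_pow, hneg, htp, map_neg, map_mul, map_inv₀]
        ring
      have hgw : IntermediateField.adjoin C (Set.range fun _ : Fin 1 => w) = ⊤ := by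
        rw [Set.range_const, eq_top_iff, ← adj_top (C := C) t, IntermediateField.adjoin_le_iff,
          Set.singleton_subset_iff]
        change t' ∈ IntermediateField.adjoin C {w}
        rw [hwt]
        exact mul_mem (neg_mem (one_mem _)) (IntermediateField.mem_adjoin_simple_self C w)
      have h1 : Md p k P (Sum.elim (fun b : Bool => if b = true then f else F)
          (fun e : Empty => e.elim)) :=
        hM2.comp' (Sum.elim id fun e => e.elim) (by
          rintro (a | a) (b | b) hab
          · exact congrArg _ hab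
          · exact b.elim
          · exact a.elim
          · exact a.elim) (by
          rintro (a | a)
          · rfl
          · exact a.elim)
      have h2 := md_root_mul p h1 (fun b => by
          cases b
          · exact hFP
          · exact hfP) (fun _ : Fin 1 => w) (fun _ b => if b = true then -1 else 1)
        (fun h _ => by
          obtain rfl : h = Bool.fintype := Subsingleton.elim _ _
          rw [Fintype.prod_bool, hwp]
          simp [mul_comm]) hgw
      have h3 := md_sat h2 (Q := insert t' (algebraMap C L' '' P)) (by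
          rintro q (rfl | ⟨q, hq, rfl⟩) hq0
          · refine ⟨1, one_ne_zero, -1, 1, ![w], ![1], ?_, ?_⟩
            · intro i
              fin_cases i
              exact Or.inr ⟨0, rfl⟩
            · simp
              rw [hwt]
              ring
          · exact ⟨1, one_ne_zero, 1, 1, fun _ => algebraMap C L' q, fun _ => 1,
              fun _ => Or.inl ⟨q, hq, rfl⟩, by simp⟩)
      have h4 := md_rad1 p t h3 z hz0 he rfl (Or.inl rfl) hgen (Q := insert z
        (algebraMap C N '' P)) (by
          rintro q (rfl | ⟨q, hq, rfl⟩)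
          · exact Or.inl rfl
          · exact Or.inr ⟨algebraMap C L' q, Or.inr ⟨q, hq, rfl⟩, rfl⟩)
      exact h4.comp' id Function.injective_id fun e => e.elim
  · have h1 := md_sat hM hQP
    have h2 := md_rad (K := N) p h1 (g := 1) (fun _ => z) (fun _ => hz0) (fun _ => d)
      (fun _ => hpd) (fun _ => ⟨_, Or.inl rfl, hzd⟩) (by rw [Set.range_const]; exact hgen)
    refine (h2.comp' (f' := fun e : Empty => (e.elim : N)) (fun e => e.elim)
      (fun e => e.elim) fun e => e.elim).mono ?_
    rintro q (rfl | ⟨q, hq, rfl⟩)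
    · exact Or.inr ⟨0, rfl⟩
    · exact Or.inl ⟨q, Or.inr hq, rfl⟩

end last

end Pool.Agent.KS6_21.P2
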