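import Pool.Agent.KS6_21.P2.Pull

/-!
The Frobenius sum: the function `f + f' * z ^ p` for a new variable `z`.
-/

set_option autoImplicit false
set_option linter.unusedVariables false
set_option linter.unusedSectionVars false

universe u

open Polynomial Pool.Agent.W177.WD Pool.Agent.KS6_21.P1 Pool.Agent.TH188.WQ Pool.Agent.TH214

open Pool.Agent.W558 hiding Ovr ci

namespace Pool.Agent.KS6_21.P2

section frob

variable (p : ℕ) [Fact p.Prime] {k L N : Type u} [Field k] [PerfectField k] [CharP k p]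
  [Field L] [Field N] [Algebra k L] [Algebra k N] [Algebra L N] [IsScalarTower k L N]

theorem frob_sum {G ι : Type} (f : Bool ⊕ ι → L) (g : G → L) (hM : GM p k f g) (b : Bool → G)
    (hb : ∀ j, g (b j) = f (Sum.inl j)) (z : N) (hz : Transcendental L z)
    (hgen : IntermediateField.adjoin L {z} = ⊤) :
    GM p k (fun o : Option ι => o.elim (algebraMap L N (f (Sum.inl false)) +
        algebraMap L N (f (Sum.inl true)) * z ^ p) fun j => algebraMap L N (f (Sum.inr j)))
      (Sum.elim (Sum.elim (fun c => algebraMap L N (g c)) fun _ : Unit => z)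
        fun _ : Unit => algebraMap L N (f (Sum.inl false)) +
          algebraMap L N (f (Sum.inl true)) * z ^ p) := by
  classical
  have hp : p.Prime := Fact.out
  have hcN : CharP N p := charP_of_injective_algebraMap (algebraMap k N).injective p
  have hcL : CharP L p := charP_of_injective_algebraMap (algebraMap k L).injective p
  obtain ⟨T0, I0, hT0, hI0, B, n0, a0, h0, Γ0, hD⟩ :=
    exists_typed p hM Sum.inl Sum.inl_injective b hb
  obtain ⟨T, I, hT, hI, M, π, Θ, γ, hLn, hFr, hC⟩ := exists_line B hD.fr z hz hgen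
    (C := Bool × Bool) (fun c => if c.1 = true then n0 (Sum.inl c.2) else Γ0 (b c.2))
    (fun c => if c.2 = true then (p : ℤ) else 0)
  let em : L →+* N := algebraMap L N
  let lj : Bool → ℤ := fun j => if j = true then (p : ℤ) else 0
  let Mj : Bool → I → ℤ := fun j i => tr Θ (Γ0 (b j)) i + lj j * γ i
  let Nj : Bool → I → ℤ := fun j i => tr Θ (n0 (Sum.inl j)) i + lj j * γ i
  have hCM : ∀ t, LE' (M.A t) (M.x t) (Mj false) (Mj true) ∨
      LE' (M.A t) (M.x t) (Mj true) (Mj false) := by
    intro t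
    exact hC (false, false) (false, true) t
  have hCN : ∀ t, LE' (M.A t) (M.x t) (Nj false) (Nj true) ∨
      LE' (M.A t) (M.x t) (Nj true) (Nj false) := by
    intro t
    exact hC (true, false) (true, true) t
  choose wz hwz0 hwzA hwzA' hwz using hLn.fz
  have hz0 : z ≠ 0 := by
    rintro rfl
    exact hz isAlgebraic_zero
  have hpκ : ∀ (κ : Type u) [Field κ] [Algebra k κ], (p : κ) = 0 := fun κ _ _ =>
    cast_zero (k := k) p κ
  -- the normal form of the sum
  let F : N := em (f (Sum.inl false)) + em (f (Sum.inl true)) * z ^ p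
  let zj : Bool → N := fun j => if j = true then z else 1
  let vj : T → Bool → N := fun t j => if j = true then wz t else 1
  have hvj0 : ∀ t j, vj t j ≠ 0 := by
    intro t j
    simp only [vj]
    split_ifs
    · exact hwz0 t
    · exact one_ne_zero
  have hvjA : ∀ t j, vj t j ∈ M.A t := by
    intro t j
    simp only [vj]
    split_ifs
    · exact hwzA t
    · exact (M.A t).one_mem
  have hvjA' : ∀ t j, (vj t j)⁻¹ ∈ M.A t := by
    intro t j
    simp only [vj]
    split_ifs
    · exact hwzA' t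
    · rw [inv_one]; exact (M.A t).one_mem
  let γj : Bool → I → ℤ := fun j i => if j = true then γ i else 0
  have hzj : ∀ t j, zj j = vj t j * mn (M.x t) (γj j) := by
    intro t j
    cases j
    · simp only [zj, vj, γj, Bool.false_eq_true, if_false, one_mul]
      simp [mn]
    · simp only [zj, vj, γj, if_true]
      exact hwz t
  have hlj : ∀ j i, lj j * γ i = p * γj j i := by
    intro j i
    cases j <;> simp [lj, γj]
  have hNjp : ∀ t j, mn (M.x t) (Nj j) * vj t j ^ p =
      em (mn (B.x (π t)) (n0 (Sum.inl j))) * zj j ^ p := by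
    intro t j
    rw [hzj t j, mul_pow, mn_pull hLn.ov, ← mn_mul]
    have h1 : mn (M.x t) (Nj j) = mn (M.x t) (tr Θ (n0 (Sum.inl j))) *
        mn (M.x t) (fun i => p * γj j i) := by
      rw [← mn_add (M.x0 t)]
      exact mn_congr fun i => by rw [← hlj]
    rw [h1]
    ring
  let aj : T → Bool → N := fun t j => zj j * em (a0 (π t) (Sum.inl j))
  have hfj : ∀ t j, em (f (Sum.inl j)) * zj j ^ p = aj t j ^ p +
      mn (M.x t) (Nj j) * (vj t j ^ p * em (h0 (π t) (Sum.inl j))) := by
    intro t j
    have h1 := congrArg em (hD.nf.eq (π t) (Sum.inl j))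
    rw [map_add, map_mul, map_pow] at h1
    rw [h1, ← mul_assoc (mn (M.x t) (Nj j)), hNjp t j]
    simp only [aj]
    rw [mul_pow]
    ring
  let nF : I → ℤ := fun i => min (Nj false i) (Nj true i)
  have hnF : ∀ j i, nF i ≤ Nj j i := by
    intro j i
    cases j
    · exact min_le_left _ _
    · exact min_le_right _ _
  let dj : T → Bool → N := fun t j => mn (M.x t) (fun i => Nj j i - nF i) * vj t j ^ p
  have hdjA : ∀ t j, dj t j ∈ M.A t := by
    intro t j
    refine (M.A t).mul_mem (mn_mem (M.xA t) fun i => Or.inl ?_) ((M.A t).pow_mem (hvjA t j) p)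
    have := hnF j i
    omega
  have hdj : ∀ t j, mn (M.x t) nF * dj t j = mn (M.x t) (Nj j) * vj t j ^ p := by
    intro t j
    simp only [dj]
    rw [← mul_assoc, ← mn_add (M.x0 t)]
    congr 1
    exact mn_congr fun i => by ring
  have hh0A : ∀ t j, em (h0 (π t) j) ∈ M.A t := fun t j => hLn.ov.le t _ (hD.nf.hA (π t) j)
  let hF : T → N := fun t => dj t false * em (h0 (π t) (Sum.inl false)) +
    dj t true * em (h0 (π t) (Sum.inl true))
  have hhFA : ∀ t, hF t ∈ M.A t := fun t =>
    (M.A t).add_mem ((M.A t).mul_mem (hdjA t _) (hh0A t _))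
      ((M.A t).mul_mem (hdjA t _) (hh0A t _))
  let aF : T → N := fun t => aj t false + aj t true
  have hFeq : ∀ t, F = aF t ^ p + mn (M.x t) nF * hF t := by
    intro t
    have h1 := hfj t false
    have h2 := hfj t true
    have h3 := hdj t false
    have h4 := hdj t true
    have h5 : zj false = 1 := rfl
    have h6 : zj true = z := rfl
    rw [h5, one_pow, mul_one] at h1
    rw [h6] at h2
    simp only [F, aF, hF]
    rw [add_pow_char]
    linear_combination h1 + h2 - em (h0 (π t) (Sum.inl false)) * h3 -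
      em (h0 (π t) (Sum.inl true)) * h4
  -- the forms on lifted tangent vectors
  let n : Option ι → I → ℤ := fun o => o.elim nF fun j => tr Θ (n0 (Sum.inr j))
  let a : T → Option ι → N := fun t o => o.elim (aF t) fun j => em (a0 (π t) (Sum.inr j))
  let h : T → Option ι → N := fun t o => o.elim (hF t) fun j => em (h0 (π t) (Sum.inr j))
  let f' : Option ι → N := fun o => o.elim F fun j => em (f (Sum.inr j))
  have hhA : ∀ t o, h t o ∈ M.A t := by
    rintro t (_ | j)
    · exact hhFA t
    · exact hh0A t _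
  have hljκ : ∀ (κ : Type u) [Field κ] [Algebra k κ] (j : Bool), ((lj j : ℤ) : κ) = 0 := by
    intro κ _ _ j
    cases j
    · simp [lj]
    · simp [lj, hpκ κ]
  have hEN : ∀ (κ : Type u) [Field κ] [Algebra k κ] (e0 : I0 → κ) (e : I → κ)
      (he : ∀ i0, ∑ i, (Θ i i0 : κ) * e i = e0 i0) (j : Bool),
      ∑ i, (Nj j i : κ) * e i = ∑ i0, (n0 (Sum.inl j) i0 : κ) * e0 i0 := by
    intro κ _ _ e0 e he j
    rw [← sum_pull he]
    refine Finset.sum_congr rfl fun i _ => ?_
    simp only [Nj]
    push_cast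
    rw [hljκ κ j, zero_mul, add_zero]
  have hom1 : ∀ t (κ : Type u) [Field κ] [Algebra k κ] (φ : M.A t →ₐ[k] κ)
      (v0 : LT (φ.comp (ci (hLn.ov.le t))) (B.x (π t))) (v : LT φ (M.x t))
      (hv1 : ∀ a (ha : a ∈ B.A (π t)),
        v.D.D ⟨algebraMap L N a, hLn.ov.le t a ha⟩ = v0.D.D ⟨a, ha⟩)
      (hv2 : ∀ i0, ∑ i, (Θ i i0 : κ) * v.e i = v0.e i0) (j : ι),
      om v (n (some j)) (hhA t (some j)) = om v0 (n0 (Sum.inr j)) (hD.nf.hA (π t) (Sum.inr j)) := by
    intro t κ _ _ φ v0 v hv1 hv2 j
    unfold om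
    change v.D.D ⟨em (h0 (π t) (Sum.inr j)), _⟩ + φ ⟨em (h0 (π t) (Sum.inr j)), _⟩ *
      ∑ i, (tr Θ (n0 (Sum.inr j)) i : κ) * v.e i = _
    rw [sum_pull hv2, hv1 _ (hD.nf.hA (π t) (Sum.inr j))]
    rfl
  have hom2 : ∀ t (κ : Type u) [Field κ] [Algebra k κ] (φ : M.A t →ₐ[k] κ)
      (v0 : LT (φ.comp (ci (hLn.ov.le t))) (B.x (π t))) (v : LT φ (M.x t))
      (hv1 : ∀ a (ha : a ∈ B.A (π t)),
        v.D.D ⟨algebraMap L N a, hLn.ov.le t a ha⟩ = v0.D.D ⟨a, ha⟩)
      (hv2 : ∀ i0, ∑ i, (Θ i i0 : κ) * v.e i = v0.e i0),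
      om v (n none) (hhA t none) =
        φ ⟨dj t false, hdjA t false⟩ *
          om v0 (n0 (Sum.inl false)) (hD.nf.hA (π t) (Sum.inl false)) +
        φ ⟨dj t true, hdjA t true⟩ *
          om v0 (n0 (Sum.inl true)) (hD.nf.hA (π t) (Sum.inl true)) := by
    intro t κ _ _ φ v0 v hv1 hv2
    have := M.sm t
    have hd : ∀ j, LG v.D (dj t j) (∑ i0, (n0 (Sum.inl j) i0 : κ) * v0.e i0 -
        ∑ i, (nF i : κ) * v.e i) := by
      intro j
      have h1 := (lg_mn (M.xA t) (M.x0 t) v (fun i => Nj j i - nF i) fun i => Or.inl (by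
        have := hnF j i
        omega)).mul (lg_pow (p := p) v.D (hvjA t j))
      have h2 : ∑ i, ((Nj j i - nF i : ℤ) : κ) * v.e i + 0 =
          ∑ i0, (n0 (Sum.inl j) i0 : κ) * v0.e i0 - ∑ i, (nF i : κ) * v.e i := by
        rw [← hEN κ v0.e v.e hv2 j, add_zero, ← Finset.sum_sub_distrib]
        exact Finset.sum_congr rfl fun i _ => by push_cast; ring
      rw [h2] at h1
      exact h1
    unfold om
    change v.D.D ⟨hF t, _⟩ + φ ⟨hF t, _⟩ * ∑ i, (nF i : κ) * v.e i = _
    have h3 : (⟨hF t, hhFA t⟩ : M.A t) =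
        ⟨dj t false, hdjA t false⟩ * ⟨em (h0 (π t) (Sum.inl false)), hh0A t _⟩ +
        ⟨dj t true, hdjA t true⟩ * ⟨em (h0 (π t) (Sum.inl true)), hh0A t _⟩ := rfl
    have h4 : ∀ j, v.D.D ⟨em (h0 (π t) (Sum.inl j)), hh0A t _⟩ =
        v0.D.D ⟨h0 (π t) (Sum.inl j), hD.nf.hA (π t) (Sum.inl j)⟩ := fun j =>
      hv1 _ (hD.nf.hA (π t) (Sum.inl j))
    have h5 : ∀ j, φ ⟨em (h0 (π t) (Sum.inl j)), hh0A t _⟩ =
        (φ.comp (ci (hLn.ov.le t))) ⟨h0 (π t) (Sum.inl j), hD.nf.hA (π t) (Sum.inl j)⟩ :=
      fun j => rfl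
    rw [h3, map_add, map_add, v.D.leib, v.D.leib, map_mul, map_mul, (hd false).eq (hdjA t false),
      (hd true).eq (hdjA t true), h4, h4, h5, h5]
    ring
  have hNF : NFJ p M f' n a h := by
    refine ⟨hhA, ?_, ?_⟩
    · rintro t (_ | j)
      · exact hFeq t
      · have h1 := congrArg em (hD.nf.eq (π t) (Sum.inr j))
        rw [map_add, map_mul, map_pow] at h1
        change em (f (Sum.inr j)) = em (a0 (π t) (Sum.inr j)) ^ p +
          mn (M.x t) (tr Θ (n0 (Sum.inr j))) * em (h0 (π t) (Sum.inr j))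
        rw [h1, ← mn_pull hLn.ov]
    · rintro t κ _ _ φ (_ | j)
      · obtain ⟨j, hj⟩ : ∃ j, LE' (M.A t) (M.x t) (Nj j) (Nj (!j)) := by
          rcases hCN t with h1 | h1
          · exact ⟨false, h1⟩
          · exact ⟨true, h1⟩
        have hdu : φ ⟨dj t j, hdjA t j⟩ ≠ 0 := by
          refine ne_of_unit φ (hdjA t j) (mul_ne_zero (mn_ne (M.x0 t) _)
            (pow_ne_zero _ (hvj0 t j))) ?_
          simp only [dj]
          rw [mul_inv, ← inv_pow]
          refine (M.A t).mul_mem (mn_inv_mem (M.xA t) fun i => ?_)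
            ((M.A t).pow_mem (hvjA' t j) p)
          rcases hj i with h1 | h1
          · left
            have h2 : nF i = Nj j i := by
              simp only [nF]
              cases j
              · exact min_eq_left h1
              · exact min_eq_right h1
            omega
          · exact Or.inr h1
        obtain ⟨v0, hv0, hv0'⟩ := hD.nf.ln (π t) κ (φ.comp (ci (hLn.ov.le t))) (Sum.inl j)
        obtain ⟨v, hv1, hv2, -⟩ := hLn.lf t κ φ v0 0
        refine ⟨v, ?_, ?_⟩
        · rw [hom2 t κ φ v0 v hv1 hv2]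
          cases j
          · rw [hv0' (Sum.inl true) (by simp), mul_zero, add_zero]
            exact mul_ne_zero hdu hv0
          · rw [hv0' (Sum.inl false) (by simp), mul_zero, zero_add]
            exact mul_ne_zero hdu hv0
        · rintro (_ | l) hl
          · exact absurd rfl hl
          · rw [hom1 t κ φ v0 v hv1 hv2 l]
            exact hv0' _ (by simp)
      · obtain ⟨v0, hv0, hv0'⟩ := hD.nf.ln (π t) κ (φ.comp (ci (hLn.ov.le t))) (Sum.inr j)
        obtain ⟨v, hv1, hv2, -⟩ := hLn.lf t κ φ v0 0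
        refine ⟨v, ?_, ?_⟩
        · rw [hom1 t κ φ v0 v hv1 hv2 j]
          exact hv0
        · rintro (_ | l) hl
          · rw [hom2 t κ φ v0 v hv1 hv2, hv0' (Sum.inl true) (by simp),
              hv0' (Sum.inl false) (by simp), mul_zero, mul_zero, add_zero]
          · rw [hom1 t κ φ v0 v hv1 hv2 l]
            exact hv0' _ (fun h => hl (by rw [Sum.inr_injective h]))
  -- the roots
  let κj : Bool → I → ℤ := fun j i => tr Θ (fun i0 => Γ0 (b j) i0 / p) i + γj j i
  have hR : ∀ t j, (aj t j = 0 ∧ LE' (M.A t) (M.x t) (Nj j) (Mj j)) ∨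
      ∃ U, ∃ hU : U ∈ M.A t, U ≠ 0 ∧ U⁻¹ ∈ M.A t ∧ aj t j = U * mn (M.x t) (κj j) ∧
        (∀ i, Mj j i = p * κj j i ∨ (M.x t i)⁻¹ ∈ M.A t) ∧
        ∀ (κ : Type u) [Field κ] [Algebra k κ] (φ : M.A t →ₐ[k] κ) (v : LT φ (M.x t)),
          (∀ a (ha : a ∈ B.A (π t)), v.D.D ⟨algebraMap L N a, hLn.ov.le t a ha⟩ = 0) →
          (∀ i0, ∑ i, (Θ i i0 : κ) * v.e i = 0) →
          (v.D.D ⟨wz t, hwzA t⟩ + φ ⟨wz t, hwzA t⟩ * ∑ i, (γ i : κ) * v.e i =
            φ ⟨wz t, hwzA t⟩) →
          LG v.D U ((if j = true then 1 else 0) - ∑ i, (κj j i : κ) * v.e i) := by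
    intro t j
    rcases hD.tp j (Set.mem_univ _) (π t) with ⟨h1, h2⟩ | ⟨s, hs, hs0, hs', h1⟩
    · left
      refine ⟨?_, ?_⟩
      · simp only [aj]
        rw [h1, map_zero, mul_zero]
      · intro i
        rcases le_pull hLn.ov t h2 i with h3 | h3
        · left
          simp only [Nj, Mj]
          omega
        · exact Or.inr h3
    · right
      obtain ⟨w, hw0, hw, hw', hwf⟩ := hD.fn (b j) (π t)
      have := B.sm (π t)
      obtain ⟨u0, hu0A, hu00, hu0A', hau, hdiv⟩ := pd (B.snc (π t)) (B.xA (π t)) (B.x0 (π t))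
        (hD.fr (π t)) hp.pos (m := Γ0 (b j)) (a := a0 (π t) (Sum.inl j)) (w := w * s)
        (mul_ne_zero hw0 hs0) ((B.A _).mul_mem hw hs) (by
          rw [mul_inv]
          exact (B.A _).mul_mem hw' hs') (by
          rw [h1, ← hb j, hwf]
          unfold mn
          ring)
      have hemu : em u0 ∈ M.A t := hLn.ov.le t _ hu0A
      refine ⟨em u0 * vj t j, (M.A t).mul_mem hemu (hvjA t j), mul_ne_zero
        ((map_ne_zero em).2 hu00) (hvj0 t j), ?_, ?_, ?_, ?_⟩
      · rw [mul_inv, ← map_inv₀]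
        exact (M.A t).mul_mem (hLn.ov.le t _ hu0A') (hvjA' t j)
      · have h3 : mn (M.x t) (κj j) = mn (M.x t) (tr Θ (fun i0 => Γ0 (b j) i0 / p)) *
            mn (M.x t) (γj j) := mn_add (M.x0 t) _ _
        simp only [aj]
        rw [h3, hau, map_mul, hzj t j]
        have h4 : em (mn (B.x (π t)) fun i0 => Γ0 (b j) i0 / p) =
          mn (M.x t) (tr Θ (fun i0 => Γ0 (b j) i0 / p)) := mn_pull hLn.ov t _
        rw [h4]
        ring
      · intro i
        have h3 : LE' (B.A (π t)) (B.x (π t)) (Γ0 (b j)) (fun i0 => p * (Γ0 (b j) i0 / p)) := by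
          intro i0
          rcases hdiv i0 with h4 | h4
          · exact Or.inl (le_of_eq h4)
          · exact Or.inr h4
        have h3' : LE' (B.A (π t)) (B.x (π t)) (fun i0 => p * (Γ0 (b j) i0 / p)) (Γ0 (b j)) := by
          intro i0
          rcases hdiv i0 with h4 | h4
          · exact Or.inl (le_of_eq h4.symm)
          · exact Or.inr h4
        have h5 : tr Θ (fun i0 => p * (Γ0 (b j) i0 / p)) i =
            p * tr Θ (fun i0 => Γ0 (b j) i0 / p) i := by
          unfold tr
          rw [Finset.mul_sum]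
          exact Finset.sum_congr rfl fun i0 _ => by ring
        rcases le_pull hLn.ov t h3 i with h6 | h6
        · rcases le_pull hLn.ov t h3' i with h7 | h7
          · left
            simp only [Mj, κj]
            have h8 : tr Θ (Γ0 (b j)) i = p * tr Θ (fun i0 => Γ0 (b j) i0 / p) i :=
              (le_antisymm h6 h7).trans h5
            rw [h8, hlj]
            ring
          · exact Or.inr h7
        · exact Or.inr h6
      · intro κ _ _ φ v hv1 hv2 hv3
        have h6 : LG v.D (em u0) 0 := ⟨hemu, by rw [mul_zero]; exact hv1 u0 hu0A⟩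
        have h7 : LG v.D (vj t j) ((if j = true then 1 else 0) - ∑ i, (γj j i : κ) * v.e i) := by
          cases j
          · simp only [vj, γj, Bool.false_eq_true, if_false, Int.cast_zero, zero_mul,
              Finset.sum_const_zero, sub_zero]
            exact LG.one _
          · simp only [vj, γj, if_true]
            refine ⟨hwzA t, ?_⟩
            linear_combination hv3
        have h8 : ∑ i, (κj j i : κ) * v.e i = ∑ i, (γj j i : κ) * v.e i := by
          have h9 := sum_pull (e0 := fun _ => (0 : κ)) (e := v.e) hv2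
            (fun i0 => Γ0 (b j) i0 / p)
          have h10 : ∑ i, (κj j i : κ) * v.e i = ∑ i, (tr Θ (fun i0 => Γ0 (b j) i0 / p) i : κ) *
              v.e i + ∑ i, (γj j i : κ) * v.e i := by
            rw [← Finset.sum_add_distrib]
            exact Finset.sum_congr rfl fun i _ => by simp only [κj]; push_cast; ring
          rw [h10, h9]
          simp
        have h9 := h6.mul h7
        rw [zero_add, ← h8] at h9
        exact h9
  let μ : I → ℤ := fun i => cl p (min (Mj false i) (Mj true i))
  have hminM : ∀ j i, min (Mj false i) (Mj true i) ≤ Mj j i := by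
    intro j i
    cases j
    · exact min_le_left _ _
    · exact min_le_right _ _
  let rj : T → Bool → N := fun t j => mn (M.x t) (fun i => -μ i) * aj t j
  let y : T → N := fun t => mn (M.x t) (fun i => -μ i) * aF t
  have hyr : ∀ t, y t = rj t false + rj t true := fun t => mul_add _ _ _
  have hrjU : ∀ t j U, aj t j = U * mn (M.x t) (κj j) →
      rj t j = U * mn (M.x t) (fun i => κj j i - μ i) := by
    intro t j U hU
    simp only [rj]
    rw [hU, mn_sub (M.x0 t), mn_neg]
    ring
  have hexp : ∀ t j, (∀ i, Mj j i = p * κj j i ∨ (M.x t i)⁻¹ ∈ M.A t) →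
      ∀ i, 0 ≤ κj j i - μ i ∨ (M.x t i)⁻¹ ∈ M.A t := by
    intro t j hj i
    rcases hj i with h1 | h1
    · left
      have h2 : μ i ≤ κj j i := cl_le hp.pos (by
        rw [← h1]
        exact hminM j i)
      omega
    · exact Or.inr h1
  have hrA : ∀ t j, rj t j ∈ M.A t := by
    intro t j
    rcases hR t j with ⟨h1, -⟩ | ⟨U, hU, hU0, hU', h1, h2, -⟩
    · simp only [rj]
      rw [h1, mul_zero]
      exact (M.A t).zero_mem
    · rw [hrjU t j U h1]
      exact (M.A t).mul_mem hU (mn_mem (M.xA t) (hexp t j h2))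
  have hyA : ∀ t, y t ∈ M.A t := by
    intro t
    rw [hyr]
    exact (M.A t).add_mem (hrA t _) (hrA t _)
  have hLGr : ∀ t j (κ : Type u) [Field κ] [Algebra k κ] (φ : M.A t →ₐ[k] κ)
      (v : LT φ (M.x t)),
      (∀ a (ha : a ∈ B.A (π t)), v.D.D ⟨algebraMap L N a, hLn.ov.le t a ha⟩ = 0) →
      (∀ i0, ∑ i, (Θ i i0 : κ) * v.e i = 0) →
      (v.D.D ⟨wz t, hwzA t⟩ + φ ⟨wz t, hwzA t⟩ * ∑ i, (γ i : κ) * v.e i =
        φ ⟨wz t, hwzA t⟩) →
      LG v.D (rj t j) ((if j = true then 1 else 0) - ∑ i, (μ i : κ) * v.e i) := by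
    intro t j κ _ _ φ v hv1 hv2 hv3
    have := M.sm t
    rcases hR t j with ⟨h1, -⟩ | ⟨U, hU, hU0, hU', h1, h2, h3⟩
    · have h4 : rj t j = 0 := by
        simp only [rj]
        rw [h1, mul_zero]
      rw [h4]
      refine ⟨(M.A t).zero_mem, ?_⟩
      have h5 : (⟨0, (M.A t).zero_mem⟩ : M.A t) = 0 := rfl
      rw [h5, map_zero, map_zero, zero_mul]
    · rw [hrjU t j U h1]
      have h4 := (h3 κ φ v hv1 hv2 hv3).mul
        (lg_mn (M.xA t) (M.x0 t) v (fun i => κj j i - μ i) (hexp t j h2))
      have h5 : (if j = true then (1 : κ) else 0) - ∑ i, (κj j i : κ) * v.e i +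
          ∑ i, ((κj j i - μ i : ℤ) : κ) * v.e i =
          (if j = true then 1 else 0) - ∑ i, (μ i : κ) * v.e i := by
        have h6 : ∑ i, ((κj j i - μ i : ℤ) : κ) * v.e i =
            ∑ i, (κj j i : κ) * v.e i - ∑ i, (μ i : κ) * v.e i := by
          rw [← Finset.sum_sub_distrib]
          exact Finset.sum_congr rfl fun i _ => by push_cast; ring
        rw [h6]
        ring
      rw [h5] at h4
      exact h4
  have hF0 : F ≠ 0 := by
    intro h0
    refine nf_ne_pow M hFr hNF none 0 ?_
    rw [zero_pow hp.ne_zero]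
    exact h0.symm
  refine core2 p M f' hF0 n a h hNF hFr _ (Sum.elim (fun c => tr Θ (Γ0 c)) fun _ => γ) ?_ μ y
    hyA ?_ ?_
  · rintro (c | _) t
    · obtain ⟨w, hw0, hw, hw', hwf⟩ := hD.fn c (π t)
      refine ⟨em w, (map_ne_zero em).2 hw0, hLn.ov.le t _ hw, ?_, ?_⟩
      · rw [← map_inv₀]
        exact hLn.ov.le t _ hw'
      · change em (g c) = em w * mn (M.x t) (tr Θ (Γ0 c))
        rw [← mn_pull hLn.ov, hwf]
        exact map_mul _ _ _
    · exact ⟨wz t, hwz0 t, hwzA t, hwzA' t, hwz t⟩
  · intro t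
    simp only [y]
    rw [← mul_assoc, ← mn_add (M.x0 t)]
    have h1 : mn (M.x t) (fun i => μ i + -μ i) = 1 := by
      unfold mn
      simp
    rw [h1, one_mul]
    rfl
  · intro t
    obtain ⟨j, hj⟩ : ∃ j, LE' (M.A t) (M.x t) (Mj j) (Mj (!j)) := by
      rcases hCM t with h1 | h1
      · exact ⟨false, h1⟩
      · exact ⟨true, h1⟩
    have hjmin : ∀ i, Mj j i = min (Mj false i) (Mj true i) ∨ (M.x t i)⁻¹ ∈ M.A t := by
      intro i
      rcases hj i with h1 | h1
      · left
        cases j
        · exact (min_eq_left h1).symm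
        · exact (min_eq_right h1).symm
      · exact Or.inr h1
    rcases hR t j with ⟨h1, h2⟩ | ⟨U, hU, hU0, hU', h1, h2, -⟩
    · left
      intro i
      rcases h2 i with h3 | h3
      · rcases hjmin i with h4 | h4
        · left
          have h5 : min (Mj false i) (Mj true i) ≤ p * μ i := le_cl hp.pos _
          exact (hnF j i).trans (h3.trans (h4.le.trans h5))
        · exact Or.inr h4
      · exact Or.inr h3
    · right
      have haj0 : aj t j ≠ 0 := by
        rw [h1]
        exact mul_ne_zero hU0 (mn_ne (M.x0 t) _)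
      have hrj0 : rj t j ≠ 0 := mul_ne_zero (mn_ne (M.x0 t) _) haj0
      have hrjI : (rj t j)⁻¹ ∈ M.A t := by
        rw [hrjU t j U h1, mul_inv]
        refine (M.A t).mul_mem hU' (mn_inv_mem (M.xA t) fun i => ?_)
        rcases h2 i with h3 | h3
        · rcases hjmin i with h4 | h4
          · left
            have h5 : min (Mj false i) (Mj true i) ≤ p * μ i := le_cl hp.pos _
            rw [← h4, h3] at h5
            have h6 : κj j i ≤ μ i := le_of_mul_le_mul_left h5 (by exact_mod_cast hp.pos)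
            omega
          · exact Or.inr h4
        · exact Or.inr h3
      refine ⟨mul_ne_zero (mn_ne (M.x0 t) _) fun h0 => ?_, ?_⟩
      · by_cases hβ : a0 (π t) (Sum.inl true) = 0
        · have h3 : aj t true = 0 := by
            simp only [aj]
            rw [hβ, map_zero, mul_zero]
          have h4 : aj t false = 0 := by
            have h5 : aj t false + aj t true = 0 := h0
            rwa [h3, add_zero] at h5
          cases j
          · exact haj0 h4
          · exact haj0 h3
        · apply hz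
          have h3 : em (a0 (π t) (Sum.inl false)) + z * em (a0 (π t) (Sum.inl true)) = 0 := by
            have h5 : aj t false + aj t true = 0 := h0
            simpa [aj, zj] using h5
          have h4 : em (a0 (π t) (Sum.inl true)) ≠ 0 := (map_ne_zero em).2 hβ
          have h6 : z = em (-(a0 (π t) (Sum.inl false)) / a0 (π t) (Sum.inl true)) := by
            rw [map_div₀, map_neg]
            field_simp
            linear_combination h3
          rw [h6]
          exact isAlgebraic_algebraMap _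
      · intro κ _ _ φ hφ
        let v0 : LT (φ.comp (ci (hLn.ov.le t))) (B.x (π t)) :=
          ⟨TV.zero _, fun _ => 0, fun i hi => (mul_zero _).symm⟩
        obtain ⟨v, hv1, hv2, hv3⟩ := hLn.lf t κ φ v0 1
        have hv1' : ∀ a (ha : a ∈ B.A (π t)),
          v.D.D ⟨algebraMap L N a, hLn.ov.le t a ha⟩ = 0 := fun a ha => hv1 a ha
        have hv2' : ∀ i0, ∑ i, (Θ i i0 : κ) * v.e i = 0 := fun i0 => hv2 i0
        have hv3' := hv3 (wz t) (hwzA t) (hwz0 t) (hwzA' t) (hwz t)
        rw [mul_one] at hv3'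
        have hr1 := (hLGr t false κ φ v hv1' hv2' hv3').eq (hrA t false)
        have hr2 := (hLGr t true κ φ v hv1' hv2' hv3').eq (hrA t true)
        have hy2 : (⟨y t, hyA t⟩ : M.A t) = ⟨rj t false, hrA t false⟩ + ⟨rj t true, hrA t true⟩ :=
          Subtype.ext (hyr t)
        have hsum : φ ⟨rj t false, hrA t false⟩ + φ ⟨rj t true, hrA t true⟩ = 0 := by
          rw [← map_add, ← hy2]
          exact hφ
        have hunit : φ ⟨rj t j, hrA t j⟩ ≠ 0 := ne_of_unit φ (hrA t j) hrj0 hrjI
        have hrt : φ ⟨rj t true, hrA t true⟩ ≠ 0 := by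
          intro h3
          rw [h3, add_zero] at hsum
          cases j
          · exact hunit hsum
          · exact hunit h3
        have hom0 : ∀ l, om v0 (n0 l) (hD.nf.hA (π t) l) = 0 := by
          intro l
          unfold om
          change (0 : κ) + _ * ∑ i, (n0 l i : κ) * 0 = 0
          simp
        refine ⟨v, ?_, ?_⟩
        · rw [hy2, map_add, hr1, hr2]
          intro h3
          apply hrt
          simp only [Bool.false_eq_true, if_false, if_true] at h3
          linear_combination h3 + (∑ i, (μ i : κ) * v.e i) * hsum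
        · rintro (_ | l)
          · rw [hom2 t κ φ v0 v hv1 hv2, hom0, hom0, mul_zero, mul_zero, add_zero]
          · rw [hom1 t κ φ v0 v hv1 hv2 l]
            exact hom0 _

end frob

end Pool.Agent.KS6_21.P2
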