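import Pool.Agent.KS6_21.P2.Frob

/-!
The function `f + z ^ p` for a new variable `z`, where `f` and `z` are boundary functions.
-/

set_option autoImplicit false
set_option linter.unusedVariables false
set_option linter.unusedSectionVars false

universe u

open Polynomial Pool.Agent.W177.WD Pool.Agent.KS6_21.P1 Pool.Agent.TH188.WQ Pool.Agent.TH214

open Pool.Agent.W558 hiding Ovr ci

namespace Pool.Agent.KS6_21.P2

section frob

variable (p : ℕ) [Fact p.Prime] {k L N : Type u} [Field k] [PerfectField k] [CharP k p]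
  [Field L] [Field N] [Algebra k L] [Algebra k N] [Algebra L N] [IsScalarTower k L N]

theorem frob_sum1 {G ι : Type} (f : Option ι → L) (g : G → L) (hM : GM p k f g) (b : G)
    (hb : g b = f none) (z : N) (hz : Transcendental L z)
    (hgen : IntermediateField.adjoin L {z} = ⊤) :
    GM p k (fun o : Option ι => o.elim (algebraMap L N (f none) + z ^ p)
        fun j => algebraMap L N (f (some j)))
      (Sum.elim (Sum.elim (fun c => algebraMap L N (g c)) fun _ : Unit => z)
        fun _ : Unit => algebraMap L N (f none) + z ^ p) := by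
  classical
  have hp : p.Prime := Fact.out
  have hcN : CharP N p := charP_of_injective_algebraMap (algebraMap k N).injective p
  have hcL : CharP L p := charP_of_injective_algebraMap (algebraMap k L).injective p
  obtain ⟨T0, I0, hT0, hI0, B, n0, a0, h0, Γ0, hD⟩ :=
    exists_typed p hM (fun _ : Unit => (none : Option ι)) (fun _ _ _ => rfl) (fun _ => b)
      (fun _ => hb)
  obtain ⟨T, I, hT, hI, M, π, Θ, γ, hLn, hFr, hC⟩ := exists_line B hD.fr z hz hgen
    (C := Bool) (fun c => if c = true then 0 else Γ0 b)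
    (fun c => if c = true then (p : ℤ) else 0)
  let em : L →+* N := algebraMap L N
  let M0 : I → ℤ := tr Θ (Γ0 b)
  let N0 : I → ℤ := tr Θ (n0 none)
  let M1 : I → ℤ := fun i => p * γ i
  have hCM : ∀ t, LE' (M.A t) (M.x t) M0 M1 ∨ LE' (M.A t) (M.x t) M1 M0 := by
    intro t
    have e0 : ∀ i, tr Θ (if (false : Bool) = true then 0 else Γ0 b) i +
        (if (false : Bool) = true then (p : ℤ) else 0) * γ i = M0 i := by
      intro i
      simp [M0]
    have e1 : ∀ i, tr Θ (if (true : Bool) = true then 0 else Γ0 b) i +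
        (if (true : Bool) = true then (p : ℤ) else 0) * γ i = M1 i := by
      intro i
      simp [M1, tr]
    rcases hC false true t with h1 | h1
    · left
      intro i
      have h2 := h1 i
      beta_reduce at h2
      rw [e0, e1] at h2
      exact h2
    · right
      intro i
      have h2 := h1 i
      beta_reduce at h2
      rw [e0, e1] at h2
      exact h2
  choose wz hwz0 hwzA hwzA' hwz using hLn.fz
  have hz0 : z ≠ 0 := by
    rintro rfl
    exact hz isAlgebraic_zero
  have hpκ : ∀ (κ : Type u) [Field κ] [Algebra k κ], (p : κ) = 0 := fun κ _ _ =>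
    cast_zero (k := k) p κ
  -- the normal form of the sum
  let F : N := em (f none) + z ^ p
  have hh0A : ∀ t j, em (h0 (π t) j) ∈ M.A t := fun t j => hLn.ov.le t _ (hD.nf.hA (π t) j)
  let aF : T → N := fun t => em (a0 (π t) none) + z
  let n : Option ι → I → ℤ := fun o => tr Θ (n0 o)
  let a : T → Option ι → N := fun t o => o.elim (aF t) fun j => em (a0 (π t) (some j))
  let h : T → Option ι → N := fun t o => em (h0 (π t) o)
  let f' : Option ι → N := fun o => o.elim F fun j => em (f (some j))
  have hom1 : ∀ t (κ : Type u) [Field κ] [Algebra k κ] (φ : M.A t →ₐ[k] κ)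
      (v0 : LT (φ.comp (ci (hLn.ov.le t))) (B.x (π t))) (v : LT φ (M.x t))
      (hv1 : ∀ a (ha : a ∈ B.A (π t)),
        v.D.D ⟨algebraMap L N a, hLn.ov.le t a ha⟩ = v0.D.D ⟨a, ha⟩)
      (hv2 : ∀ i0, ∑ i, (Θ i i0 : κ) * v.e i = v0.e i0) (j : Option ι),
      om v (n j) (hh0A t j) = om v0 (n0 j) (hD.nf.hA (π t) j) := by
    intro t κ _ _ φ v0 v hv1 hv2 j
    unfold om
    change v.D.D ⟨em (h0 (π t) j), _⟩ + φ ⟨em (h0 (π t) j), _⟩ *
      ∑ i, (tr Θ (n0 j) i : κ) * v.e i = _
    rw [sum_pull hv2, hv1 _ (hD.nf.hA (π t) j)]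
    rfl
  have hNF : NFJ p M f' n a h := by
    refine ⟨hh0A, ?_, ?_⟩
    · rintro t (_ | j)
      · have h1 := congrArg em (hD.nf.eq (π t) none)
        rw [map_add, map_mul, map_pow] at h1
        change em (f none) + z ^ p = (em (a0 (π t) none) + z) ^ p +
          mn (M.x t) (tr Θ (n0 none)) * em (h0 (π t) none)
        rw [h1, ← mn_pull hLn.ov, add_pow_char]
        ring
      · have h1 := congrArg em (hD.nf.eq (π t) (some j))
        rw [map_add, map_mul, map_pow] at h1
        change em (f (some j)) = em (a0 (π t) (some j)) ^ p +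
          mn (M.x t) (tr Θ (n0 (some j))) * em (h0 (π t) (some j))
        rw [h1, ← mn_pull hLn.ov]
    · intro t κ _ _ φ j
      obtain ⟨v0, hv0, hv0'⟩ := hD.nf.ln (π t) κ (φ.comp (ci (hLn.ov.le t))) j
      obtain ⟨v, hv1, hv2, -⟩ := hLn.lf t κ φ v0 0
      refine ⟨v, ?_, ?_⟩
      · rw [hom1 t κ φ v0 v hv1 hv2 j]
        exact hv0
      · intro l hl
        rw [hom1 t κ φ v0 v hv1 hv2 l]
        exact hv0' _ hl
  -- the roots
  let κ0 : I → ℤ := tr Θ (fun i0 => Γ0 b i0 / p)
  have hR : ∀ t, (a0 (π t) none = 0 ∧ LE' (M.A t) (M.x t) N0 M0) ∨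
      ∃ U, ∃ hU : U ∈ M.A t, U ≠ 0 ∧ U⁻¹ ∈ M.A t ∧
        em (a0 (π t) none) = U * mn (M.x t) κ0 ∧
        (∀ i, M0 i = p * κ0 i ∨ (M.x t i)⁻¹ ∈ M.A t) ∧
        ∀ (κ : Type u) [Field κ] [Algebra k κ] (φ : M.A t →ₐ[k] κ) (v : LT φ (M.x t)),
          (∀ a (ha : a ∈ B.A (π t)), v.D.D ⟨algebraMap L N a, hLn.ov.le t a ha⟩ = 0) →
          (∀ i0, ∑ i, (Θ i i0 : κ) * v.e i = 0) →
          LG v.D U (-∑ i, (κ0 i : κ) * v.e i) := by
    intro t
    rcases hD.tp () (Set.mem_univ _) (π t) with ⟨h1, h2⟩ | ⟨s, hs, hs0, hs', h1⟩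
    · exact Or.inl ⟨h1, le_pull hLn.ov t h2⟩
    · right
      obtain ⟨w, hw0, hw, hw', hwf⟩ := hD.fn b (π t)
      have := B.sm (π t)
      obtain ⟨u0, hu0A, hu00, hu0A', hau, hdiv⟩ := pd (B.snc (π t)) (B.xA (π t)) (B.x0 (π t))
        (hD.fr (π t)) hp.pos (m := Γ0 b) (a := a0 (π t) none) (w := w * s)
        (mul_ne_zero hw0 hs0) ((B.A _).mul_mem hw hs) (by
          rw [mul_inv]
          exact (B.A _).mul_mem hw' hs') (by
          rw [h1, ← hb, hwf]
          unfold mn
          ring)
      have hemu : em u0 ∈ M.A t := hLn.ov.le t _ hu0A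
      refine ⟨em u0, hemu, (map_ne_zero em).2 hu00, ?_, ?_, ?_, ?_⟩
      · rw [← map_inv₀]
        exact hLn.ov.le t _ hu0A'
      · rw [hau, map_mul]
        have h4 : em (mn (B.x (π t)) fun i0 => Γ0 b i0 / p) = mn (M.x t) κ0 := mn_pull hLn.ov t _
        rw [h4]
      · intro i
        have h3 : LE' (B.A (π t)) (B.x (π t)) (Γ0 b) (fun i0 => p * (Γ0 b i0 / p)) := by
          intro i0
          rcases hdiv i0 with h4 | h4
          · exact Or.inl (le_of_eq h4)
          · exact Or.inr h4
        have h3' : LE' (B.A (π t)) (B.x (π t)) (fun i0 => p * (Γ0 b i0 / p)) (Γ0 b) := by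
          intro i0
          rcases hdiv i0 with h4 | h4
          · exact Or.inl (le_of_eq h4.symm)
          · exact Or.inr h4
        have h5 : tr Θ (fun i0 => p * (Γ0 b i0 / p)) i = p * κ0 i := by
          simp only [κ0]
          unfold tr
          rw [Finset.mul_sum]
          exact Finset.sum_congr rfl fun i0 _ => by ring
        rcases le_pull hLn.ov t h3 i with h6 | h6
        · rcases le_pull hLn.ov t h3' i with h7 | h7
          · exact Or.inl ((le_antisymm h6 h7).trans h5)
          · exact Or.inr h7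
        · exact Or.inr h6
      · intro κ _ _ φ v hv1 hv2
        have h9 : ∑ i, (κ0 i : κ) * v.e i = 0 := by
          have h9 := sum_pull (e0 := fun _ => (0 : κ)) (e := v.e) hv2 (fun i0 => Γ0 b i0 / p)
          simp only [κ0]
          rw [h9]
          simp
        rw [h9, neg_zero]
        exact ⟨hemu, by rw [mul_zero]; exact hv1 u0 hu0A⟩
  let μ : I → ℤ := fun i => cl p (min (M0 i) (M1 i))
  let rj : T → Bool → N := fun t j => mn (M.x t) (fun i => -μ i) *
    (if j = true then z else em (a0 (π t) none))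
  let y : T → N := fun t => mn (M.x t) (fun i => -μ i) * aF t
  have hyr : ∀ t, y t = rj t false + rj t true := by
    intro t
    simp only [y, rj, aF, Bool.false_eq_true, if_false, if_true]
    ring
  have hrj0U : ∀ t U, em (a0 (π t) none) = U * mn (M.x t) κ0 →
      rj t false = U * mn (M.x t) (fun i => κ0 i - μ i) := by
    intro t U hU
    simp only [rj, Bool.false_eq_true, if_false]
    rw [hU, mn_sub (M.x0 t), mn_neg]
    ring
  have hrj1U : ∀ t, rj t true = wz t * mn (M.x t) (fun i => γ i - μ i) := by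
    intro t
    simp only [rj, if_true]
    conv_lhs => rw [hwz t]
    rw [mn_sub (M.x0 t), mn_neg]
    ring
  have hexp0 : ∀ t, (∀ i, M0 i = p * κ0 i ∨ (M.x t i)⁻¹ ∈ M.A t) →
      ∀ i, 0 ≤ κ0 i - μ i ∨ (M.x t i)⁻¹ ∈ M.A t := by
    intro t hj i
    rcases hj i with h1 | h1
    · left
      have h2 : μ i ≤ κ0 i := cl_le hp.pos (by
        rw [← h1]
        exact min_le_left _ _)
      omega
    · exact Or.inr h1
  have hexp1 : ∀ i, 0 ≤ γ i - μ i := by
    intro i
    have h2 : μ i ≤ γ i := cl_le hp.pos (min_le_right _ _)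
    omega
  have hrA : ∀ t j, rj t j ∈ M.A t := by
    intro t j
    cases j
    · rcases hR t with ⟨h1, -⟩ | ⟨U, hU, hU0, hU', h1, h2, -⟩
      · simp only [rj, Bool.false_eq_true, if_false]
        rw [h1, map_zero, mul_zero]
        exact (M.A t).zero_mem
      · rw [hrj0U t U h1]
        exact (M.A t).mul_mem hU (mn_mem (M.xA t) (hexp0 t h2))
    · rw [hrj1U]
      exact (M.A t).mul_mem (hwzA t) (mn_mem (M.xA t) fun i => Or.inl (hexp1 i))
  have hyA : ∀ t, y t ∈ M.A t := by
    intro t
    rw [hyr]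
    exact (M.A t).add_mem (hrA t _) (hrA t _)
  have hLGr : ∀ t j (κ : Type u) [Field κ] [Algebra k κ] (φ : M.A t →ₐ[k] κ)
      (v : LT φ (M.x t)),
      (∀ a (ha : a ∈ B.A (π t)), v.D.D ⟨algebraMap L N a, hLn.ov.le t a ha⟩ = 0) →
      (∀ i0, ∑ i, (Θ i i0 : κ) * v.e i = 0) →
      (v.D.D ⟨wz t, hwzA t⟩ + φ ⟨wz t, hwzA t⟩ * ∑ i, (γ i : κ) * v.e i =
        φ ⟨wz t, hwzA t⟩) →
      LG v.D (rj t j) ((if j = true then 1 else 0) - ∑ i, (μ i : κ) * v.e i) := by
    intro t j κ _ _ φ v hv1 hv2 hv3
    have := M.sm t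
    cases j
    · rcases hR t with ⟨h1, -⟩ | ⟨U, hU, hU0, hU', h1, h2, h3⟩
      · have h4 : rj t false = 0 := by
          simp only [rj, Bool.false_eq_true, if_false]
          rw [h1, map_zero, mul_zero]
        rw [h4]
        refine ⟨(M.A t).zero_mem, ?_⟩
        have h5 : (⟨0, (M.A t).zero_mem⟩ : M.A t) = 0 := rfl
        rw [h5, map_zero, map_zero, zero_mul]
      · rw [hrj0U t U h1]
        have h4 := (h3 κ φ v hv1 hv2).mul
          (lg_mn (M.xA t) (M.x0 t) v (fun i => κ0 i - μ i) (hexp0 t h2))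
        have h5 : -∑ i, (κ0 i : κ) * v.e i + ∑ i, ((κ0 i - μ i : ℤ) : κ) * v.e i =
            (if (false : Bool) = true then 1 else 0) - ∑ i, (μ i : κ) * v.e i := by
          have h6 : ∑ i, ((κ0 i - μ i : ℤ) : κ) * v.e i =
              ∑ i, (κ0 i : κ) * v.e i - ∑ i, (μ i : κ) * v.e i := by
            rw [← Finset.sum_sub_distrib]
            exact Finset.sum_congr rfl fun i _ => by push_cast; ring
          rw [h6]
          simp only [Bool.false_eq_true, if_false]
          ring
        rw [h5] at h4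
        exact h4
    · rw [hrj1U]
      have h3 : LG v.D (wz t) (1 - ∑ i, (γ i : κ) * v.e i) :=
        ⟨hwzA t, by linear_combination hv3⟩
      have h4 := h3.mul (lg_mn (M.xA t) (M.x0 t) v (fun i => γ i - μ i)
        fun i => Or.inl (hexp1 i))
      have h5 : 1 - ∑ i, (γ i : κ) * v.e i + ∑ i, ((γ i - μ i : ℤ) : κ) * v.e i =
          (if (true : Bool) = true then 1 else 0) - ∑ i, (μ i : κ) * v.e i := by
        have h6 : ∑ i, ((γ i - μ i : ℤ) : κ) * v.e i =
            ∑ i, (γ i : κ) * v.e i - ∑ i, (μ i : κ) * v.e i := by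
          rw [← Finset.sum_sub_distrib]
          exact Finset.sum_congr rfl fun i _ => by push_cast; ring
        rw [h6]
        simp only [if_true]
        ring
      rw [h5] at h4
      exact h4
  have hF0 : F ≠ 0 := by
    intro h0
    refine nf_ne_pow M hFr hNF none 0 ?_
    rw [zero_pow hp.ne_zero]
    exact h0.symm
  refine core2 p M f' hF0 n a h hNF hFr _ (Sum.elim (fun c => tr Θ (Γ0 c)) fun _ => γ) ?_ μ y
    hyA ?_ ?_
  · rintro (c | _) t
    · obtain ⟨w, hw0, hw, hw', hwf⟩ := hD.fn c (π t)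
      refine ⟨em w, (map_ne_zero em).2 hw0, hLn.ov.le t _ hw, ?_, ?_⟩
      · rw [← map_inv₀]
        exact hLn.ov.le t _ hw'
      · change em (g c) = em w * mn (M.x t) (tr Θ (Γ0 c))
        rw [← mn_pull hLn.ov, hwf]
        exact map_mul _ _ _
    · exact ⟨wz t, hwz0 t, hwzA t, hwzA' t, hwz t⟩
  · intro t
    simp only [y]
    rw [← mul_assoc, ← mn_add (M.x0 t)]
    have h1 : mn (M.x t) (fun i => μ i + -μ i) = 1 := by
      unfold mn
      simp
    rw [h1, one_mul]
    rfl
  · intro t
    -- one of the two terms is a unit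
    have hmain : LE' (M.A t) (M.x t) (n none) (fun i => p * μ i) ∨
        ∃ j, rj t j ≠ 0 ∧ (rj t j)⁻¹ ∈ M.A t := by
      rcases hCM t with hc | hc
      · have hmin : ∀ i, M0 i = min (M0 i) (M1 i) ∨ (M.x t i)⁻¹ ∈ M.A t := by
          intro i
          rcases hc i with h1 | h1
          · exact Or.inl (min_eq_left h1).symm
          · exact Or.inr h1
        rcases hR t with ⟨h1, h2⟩ | ⟨U, hU, hU0, hU', h1, h2, -⟩
        · left
          intro i
          rcases h2 i with h3 | h3
          · rcases hmin i with h4 | h4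
            · left
              have h5 : min (M0 i) (M1 i) ≤ p * μ i := le_cl hp.pos _
              exact h3.trans (h4.le.trans h5)
            · exact Or.inr h4
          · exact Or.inr h3
        · right
          refine ⟨false, ?_, ?_⟩
          · rw [hrj0U t U h1]
            exact mul_ne_zero hU0 (mn_ne (M.x0 t) _)
          · rw [hrj0U t U h1, mul_inv]
            refine (M.A t).mul_mem hU' (mn_inv_mem (M.xA t) fun i => ?_)
            rcases h2 i with h3 | h3
            · rcases hmin i with h4 | h4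
              · left
                have h5 : min (M0 i) (M1 i) ≤ p * μ i := le_cl hp.pos _
                rw [← h4, h3] at h5
                have h6 : κ0 i ≤ μ i := le_of_mul_le_mul_left h5 (by exact_mod_cast hp.pos)
                omega
              · exact Or.inr h4
            · exact Or.inr h3
      · right
        refine ⟨true, ?_, ?_⟩
        · rw [hrj1U]
          exact mul_ne_zero (hwz0 t) (mn_ne (M.x0 t) _)
        · rw [hrj1U, mul_inv]
          refine (M.A t).mul_mem (hwzA' t) (mn_inv_mem (M.xA t) fun i => ?_)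
          rcases hc i with h3 | h3
          · left
            have h5 : min (M0 i) (M1 i) ≤ p * μ i := le_cl hp.pos _
            rw [min_eq_right h3] at h5
            have h6 : γ i ≤ μ i := le_of_mul_le_mul_left h5 (by exact_mod_cast hp.pos)
            omega
          · exact Or.inr h3
    rcases hmain with h1 | ⟨j, hrj0, hrjI⟩
    · exact Or.inl h1
    · right
      refine ⟨mul_ne_zero (mn_ne (M.x0 t) _) fun h0 => ?_, ?_⟩
      · apply hz
        have h3 : em (a0 (π t) none) + z = 0 := h0
        have h6 : z = em (-(a0 (π t) none)) := by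
          rw [map_neg]
          linear_combination h3
        rw [h6]
        exact isAlgebraic_algebraMap _
      · intro κ _ _ φ hφ
        let v0 : LT (φ.comp (ci (hLn.ov.le t))) (B.x (π t)) :=
          ⟨TV.zero _, fun _ => 0, fun i hi => (mul_zero _).symm⟩
        obtain ⟨v, hv1, hv2, hv3⟩ := hLn.lf t κ φ v0 1
        have hv1' : ∀ a (ha : a ∈ B.A (π t)),
          v.D.D ⟨algebraMap L N a, hLn.ov.le t a ha⟩ = 0 := fun a ha => hv1 a ha
        have hv2' : ∀ i0, ∑ i, (Θ i i0 : κ) * v.e i = 0 := fun i0 => hv2 i0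
        have hv3' := hv3 (wz t) (hwzA t) (hwz0 t) (hwzA' t) (hwz t)
        rw [mul_one] at hv3'
        have hr1 := (hLGr t false κ φ v hv1' hv2' hv3').eq (hrA t false)
        have hr2 := (hLGr t true κ φ v hv1' hv2' hv3').eq (hrA t true)
        have hy2 : (⟨y t, hyA t⟩ : M.A t) = ⟨rj t false, hrA t false⟩ + ⟨rj t true, hrA t true⟩ :=
          Subtype.ext (hyr t)
        have hsum : φ ⟨rj t false, hrA t false⟩ + φ ⟨rj t true, hrA t true⟩ = 0 := by
          rw [← map_add, ← hy2]
          exact hφ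
        have hunit : φ ⟨rj t j, hrA t j⟩ ≠ 0 := ne_of_unit φ (hrA t j) hrj0 hrjI
        have hrt : φ ⟨rj t true, hrA t true⟩ ≠ 0 := by
          intro h3
          rw [h3, add_zero] at hsum
          cases j
          · exact hunit hsum
          · exact hunit h3
        have hom0 : ∀ l, om v0 (n0 l) (hD.nf.hA (π t) l) = 0 := by
          intro l
          unfold om
          change (0 : κ) + _ * ∑ i, (n0 l i : κ) * 0 = 0
          simp
        refine ⟨v, ?_, ?_⟩
        · rw [hy2, map_add, hr1, hr2]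
          intro h3
          apply hrt
          simp only [Bool.false_eq_true, if_false, if_true] at h3
          linear_combination h3 + (∑ i, (μ i : κ) * v.e i) * hsum
        · intro l
          exact (hom1 t κ φ v0 v hv1 hv2 l).trans (hom0 l)

end frob

end Pool.Agent.KS6_21.P2
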