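import Pool.Agent.KS6_21.P2.Typed2
import Pool.Graph.R_pool_sql_team_seeded_63374d34.N98.P1

/-!
Logarithmic modifications of the product of a model with the projective line.
-/

set_option autoImplicit false
set_option linter.unusedVariables false
set_option linter.unusedSectionVars false

universe u

open Polynomial Pool.Agent.W177.WD Pool.Agent.KS6_21.P1 Pool.Agent.TH214
  Pool.Agent.TH214.V Pool.Agent.W498.Tor Pool.Agent.N98 Pool.Agent.TH188.WQ

open Pool.Agent.W558 hiding Ovr ci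

namespace Pool.Agent.KS6_21.P2

section line

variable {k L N : Type u} [Field k] [Field L] [Field N] [Algebra k L] [Algebra k N] [Algebra L N]
  [IsScalarTower k L N] {T0 I0 T I : Type} [Fintype I0] [Fintype I]

/-- The model `M` lies over the model `B`, the function `z` is a monomial, and logarithmic tangent
vectors can be lifted, with arbitrary logarithmic value on `z`. -/
structure Ln (B : LM (⊥ : Subalgebra k L) ⊤ T0 I0) (M : LM (⊥ : Subalgebra k N) ⊤ T I) (z : N)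
    (π : T → T0) (Θ : I → I0 → ℤ) (γ : I → ℤ) : Prop where
  ov : Ovr B M π Θ
  fz : ∀ t, ∃ w, w ≠ 0 ∧ w ∈ M.A t ∧ w⁻¹ ∈ M.A t ∧ z = w * mn (M.x t) γ
  lf : ∀ t (κ : Type u) [Field κ] [Algebra k κ] (φ : M.A t →ₐ[k] κ)
    (v0 : LT (φ.comp (ci (ov.le t))) (B.x (π t))) (ε : κ),
    ∃ v : LT φ (M.x t),
      (∀ a (ha : a ∈ B.A (π t)), v.D.D ⟨algebraMap L N a, ov.le t a ha⟩ = v0.D.D ⟨a, ha⟩) ∧
      (∀ i0, ∑ i, (Θ i i0 : κ) * v.e i = v0.e i0) ∧
      ∀ w (hw : w ∈ M.A t), w ≠ 0 → w⁻¹ ∈ M.A t → z = w * mn (M.x t) γ →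
        v.D.D ⟨w, hw⟩ + φ ⟨w, hw⟩ * ∑ i, (γ i : κ) * v.e i = φ ⟨w, hw⟩ * ε

/-- Lifting of tangent vectors to the product with the projective line. -/
lemma line_lt (B : LM (⊥ : Subalgebra k L) ⊤ T0 I0) {z : N} (hz0 : z ≠ 0)
    (hTr : ∀ t, Tr ((mapLM (K := N) B).A t) z) (q : T0 × Bool)
    (hle : ∀ a ∈ B.A q.1, algebraMap L N a ∈ (prodLM (mapLM (K := N) B) hz0 hTr).A q)
    {κ : Type u} [Field κ] [Algebra k κ]
    (φ : (prodLM (mapLM (K := N) B) hz0 hTr).A q →ₐ[k] κ)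
    (v0 : LT (φ.comp (ci hle)) (B.x q.1)) (ε : κ) :
    ∃ v : LT φ ((prodLM (mapLM (K := N) B) hz0 hTr).x q),
      (∀ a (ha : a ∈ B.A q.1), v.D.D ⟨algebraMap L N a, hle a ha⟩ = v0.D.D ⟨a, ha⟩) ∧
      (∀ i0, v.e (Sum.inl i0) = v0.e i0) ∧ v.e (Sum.inr true) - v.e (Sum.inr false) = ε := by
  obtain ⟨t, b⟩ := q
  let A := B.A t
  let A1 : Subalgebra k N := (B.A t).map (em k L N)
  let φ0 : A1 →ₐ[k] κ := φ.comp (Subalgebra.inclusion (le_adj A1 (zz z b)))
  let e := eqv (K := N) A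
  have h0 : ∀ a, ((φ.comp (ci hle)).comp e.symm.toAlgHom) a = φ0 a := by
    intro a
    obtain ⟨a, rfl⟩ := e.surjective a
    change φ (ci hle (e.symm (e a))) = φ0 (e a)
    rw [e.symm_apply_apply]
    rfl
  let D0 : TV φ0 := (v0.D.restr e.symm.toAlgHom).cast h0
  have hD0 : ∀ a (ha : a ∈ A) (ha' : algebraMap L N a ∈ A1), D0.D ⟨algebraMap L N a, ha'⟩ =
      v0.D.D ⟨a, ha⟩ := by
    intro a ha ha'
    have h1 : (⟨algebraMap L N a, ha'⟩ : A1) = e ⟨a, ha⟩ := Subtype.ext rfl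
    rw [h1, TV.cast_D, TV.restr_D]
    change v0.D.D (e.symm (e ⟨a, ha⟩)) = _
    rw [e.symm_apply_apply]
  have hzA : zz z b ∈ adj A1 (zz z b) := self_mem_adj _ _
  obtain ⟨D1, hD1, hD1'⟩ := ext_pe ((hTr t).zz hz0 b) φ φ0 (fun a => rfl) D0
    (φ ⟨zz z b, hzA⟩ * (if b = true then ε else -ε))
  let ee : I0 ⊕ Bool → κ := Sum.elim v0.e fun c => if b = c then (if b = true then ε else -ε) else 0
  have hee : ∀ o (ho : (prodLM (mapLM (K := N) B) hz0 hTr).x (t, b) o ∈
      (prodLM (mapLM (K := N) B) hz0 hTr).A (t, b)), D1.D ⟨_, ho⟩ = φ ⟨_, ho⟩ * ee o := by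
    rintro (i | c) ho
    · have h1 : em k L N (B.x t i) ∈ A1 := ⟨_, B.xA t i, rfl⟩
      refine (hD1 (em k L N (B.x t i)) h1 ho).trans ?_
      refine (hD0 _ (B.xA t i) h1).trans ?_
      exact v0.hx i (B.xA t i)
    · by_cases hc : b = c
      · have h1 : (prodLM (mapLM (K := N) B) hz0 hTr).x (t, b) (Sum.inr c) = zz z b := if_pos hc
        have h2 : (⟨(prodLM (mapLM (K := N) B) hz0 hTr).x (t, b) (Sum.inr c), ho⟩ :
            (prodLM (mapLM (K := N) B) hz0 hTr).A (t, b)) = ⟨zz z b, hzA⟩ := Subtype.ext h1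
        have h3 : ee (Sum.inr c) = if b = true then ε else -ε := if_pos hc
        rw [h3]
        exact ((congrArg D1.D h2).trans (hD1' hzA)).trans
          (congrArg (fun r : κ => r * (if b = true then ε else -ε)) (congrArg φ h2).symm)
      · have h1 : (prodLM (mapLM (K := N) B) hz0 hTr).x (t, b) (Sum.inr c) = 1 := if_neg hc
        have h2 : (⟨(prodLM (mapLM (K := N) B) hz0 hTr).x (t, b) (Sum.inr c), ho⟩ :
            (prodLM (mapLM (K := N) B) hz0 hTr).A (t, b)) = 1 := Subtype.ext h1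
        have h3 : ee (Sum.inr c) = 0 := if_neg hc
        rw [h3, mul_zero]
        exact (congrArg D1.D h2).trans D1.D_one
  refine ⟨⟨D1, ee, hee⟩, ?_, fun i0 => rfl, ?_⟩
  · intro a ha
    have h1 : algebraMap L N a ∈ A1 := ⟨a, ha, rfl⟩
    exact (hD1 _ h1 _).trans (hD0 a ha h1)
  · simp only [ee, Sum.elim_inr]
    cases b
    · simp
    · simp

theorem exists_line [Finite T0] (B : LM (⊥ : Subalgebra k L) ⊤ T0 I0) (hFr : Frc B) (z : N)
    (hz : Transcendental L z) (hgen : IntermediateField.adjoin L {z} = ⊤) {C : Type} [Finite C]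
    (Λ : C → I0 → ℤ) (l : C → ℤ) :
    ∃ (T I : Type) (_ : Finite T) (_ : Fintype I) (M : LM (⊥ : Subalgebra k N) ⊤ T I)
      (π : T → T0) (Θ : I → I0 → ℤ) (γ : I → ℤ), Ln B M z π Θ γ ∧ Frc M ∧
      ∀ a b, Cmp M (fun c i => tr Θ (Λ c) i + l c * γ i) a b := by
  classical
  have hz0 : z ≠ 0 := by
    rintro rfl
    exact hz isAlgebraic_zero
  have hTr : ∀ t, Tr ((mapLM (K := N) B).A t) z := fun t => tr_map hz
  let P := prodLM (mapLM (K := N) B) hz0 hTr
  let γ0 : I0 ⊕ Bool → ℤ := Sum.elim 0 (fun c => if c then 1 else -1)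
  have hγ0 : F1 P z γ0 := f1_self _ hz0 hTr
  obtain ⟨T, I, hT, hI, M, π, Θ, hOv, hΘ, -, hC⟩ := ovp_uq P
    (fun c : C => fun o => (Sum.elim (Λ c) (fun _ => 0) : I0 ⊕ Bool → ℤ) o + l c * γ0 o)
  have hPle : ∀ q : T0 × Bool, ∀ a ∈ B.A q.1, algebraMap L N a ∈ P.A q := fun q a ha =>
    le_adj _ _ ⟨a, ha, rfl⟩
  have hFrP : Frc P := fun q x => frc_adj (hFr q.1) hgen q.2 x
  refine ⟨T, I, hT, hI, M, fun t => (π t).1, fun i i0 => Θ i (Sum.inl i0), tr Θ γ0,
    ⟨⟨fun t a ha => hOv.le t (hPle (π t) a ha), ?_, fun i i0 => hΘ i _⟩, ?_, ?_⟩,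
    hFrP.ov hOv, ?_⟩
  · intro t i0
    exact hOv.x t (Sum.inl i0)
  · intro t
    obtain ⟨w, hw0, hw, hw', hwz⟩ := hγ0 (π t)
    refine ⟨w, hw0, hOv.le t hw, hOv.le t hw', ?_⟩
    rw [hwz, prod_ov hOv]
    rfl
  · intro t κ _ _ φ v0 ε
    obtain ⟨v1, h1, h2, h3⟩ := line_lt B hz0 hTr (π t) (hPle (π t))
      (φ.comp (Subalgebra.inclusion (hOv.le t))) v0 ε
    obtain ⟨v, h4, h5⟩ := hOv.lt t κ φ v1
    refine ⟨v, ?_, ?_, ?_⟩
    · intro a ha
      exact (h4 _ (hPle (π t) a ha)).trans (h1 a ha)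
    · intro i0
      rw [← h2 i0]
      exact h5 (Sum.inl i0)
    · intro w hw hw0 hw' hwz
      obtain ⟨w1, hw10, hw1, hw1', hw1z⟩ := hγ0 (π t)
      have h6 : w = w1 := by
        have h7 : w * mn (M.x t) (tr Θ γ0) = w1 * mn (M.x t) (tr Θ γ0) := by
          rw [← hwz, hw1z, prod_ov hOv]
          rfl
        exact mul_right_cancel₀ (mn_ne (M.x0 t) _) h7
      have hone : (1 : N) ∈ P.A (π t) := (P.A _).one_mem
      -- the unit is one
      have hw1one : z = 1 * ∏ i, P.x (π t) i ^ γ0 i := by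
        have h8 : F1 P z γ0 := f1_self _ hz0 hTr
        rw [one_mul]
        generalize π t = q
        obtain ⟨t', b⟩ := q
        rw [Fintype.prod_sum_type]
        simp only [γ0, Sum.elim_inl, Sum.elim_inr, Pi.zero_apply, zpow_zero,
          Finset.prod_const_one, one_mul, Fintype.prod_bool]
        change z = (if b = true then zz z b else 1) ^ _ * (if b = false then zz z b else 1) ^ _
        cases b
        · simp [zz]
        · simp [zz]
      have hP0 : ∏ i, P.x (π t) i ^ γ0 i ≠ 0 :=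
        Finset.prod_ne_zero_iff.2 fun i _ => zpow_ne_zero _ (P.x0 _ _)
      have h9 : w1 = 1 := by
        rw [hw1z] at hw1one
        exact mul_right_cancel₀ hP0 hw1one
      have h10 : (⟨w, hw⟩ : M.A t) = 1 := Subtype.ext (h6.trans h9)
      rw [h10, v.D.D_one, map_one, zero_add, one_mul, one_mul]
      have h11 := sum_tr hOv v1 v h5 γ0
      rw [h11, Fintype.sum_sum_type]
      simp only [γ0, Sum.elim_inl, Sum.elim_inr, Pi.zero_apply, Int.cast_zero, zero_mul,
        Finset.sum_const_zero, zero_add, Fintype.sum_bool]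
      rw [← h3]
      simp
      ring
  · intro a b t
    have e1 : ∀ c i, ∑ o, Θ i o * ((Sum.elim (Λ c) (fun _ => 0) : I0 ⊕ Bool → ℤ) o + l c * γ0 o) =
        tr (fun i i0 => Θ i (Sum.inl i0)) (Λ c) i + l c * tr Θ γ0 i := by
      intro c i
      unfold tr
      rw [Finset.mul_sum, Fintype.sum_sum_type, Fintype.sum_sum_type]
      simp only [Sum.elim_inl, Sum.elim_inr, γ0, Pi.zero_apply, mul_zero, add_zero, zero_add,
        Finset.sum_const_zero]
      congr 1
      refine Finset.sum_congr rfl fun c' _ => ?_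
      ring
    rcases hC a b t with h1 | h1
    · left
      intro i
      have h2 := h1 i
      beta_reduce at h2 ⊢
      rw [e1, e1] at h2
      exact h2
    · right
      intro i
      have h2 := h1 i
      beta_reduce at h2 ⊢
      rw [e1, e1] at h2
      exact h2

end line

end Pool.Agent.KS6_21.P2
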