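import Pool.Agent.KS6_21.P2.Tame

/-!
Operations: new variables and sums with `p`-th powers of new variables.
-/

set_option autoImplicit false
set_option linter.unusedVariables false
set_option linter.unusedSectionVars false

universe u

open Polynomial Pool.Agent.W177.WD Pool.Agent.KS6_21.P1 Pool.Agent.TH188.WQ Pool.Agent.TH214
  Pool.Agent.N98 Pool.Agent.N762.RC Pool.Agent.N762.RC2 Pool.Agent.N762.FP Pool.Agent.TH214.V

open Pool.Agent.W558 hiding Ovr ci

namespace Pool.Agent.KS6_21.P2

section line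

variable (p : ℕ) [Fact p.Prime] {k L N : Type u} [Field k] [PerfectField k] [CharP k p]
  [Field L] [Field N] [Algebra k L] [Algebra k N] [Algebra L N] [IsScalarTower k L N]

/-- A new variable. -/
theorem gm_line {G ι : Type} (f : ι → L) (g : G → L) (hM : GM p k f g) (z : N)
    (hz : Transcendental L z) (hgen : IntermediateField.adjoin L {z} = ⊤) :
    GM p k (fun o : Option ι => o.elim z fun j => algebraMap L N (f j))
      (Sum.elim (fun c => algebraMap L N (g c)) fun _ : Unit => z) := by
  classical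
  have hp : p.Prime := Fact.out
  obtain ⟨T0, I0, hT0, hI0, B, n0, a0, h0, Γ0, hN0, hG0, hR0⟩ := hM
  obtain ⟨T, I, hT, hI, M, π, Θ, γ, hLn, hFr, -⟩ := exists_line B hR0 z hz hgen
    (C := Empty) (fun c => c.elim) (fun c => c.elim)
  let em : L →+* N := algebraMap L N
  choose wz hwz0 hwzA hwzA' hwz using hLn.fz
  let n : Option ι → I → ℤ := fun o => o.elim γ fun j => tr Θ (n0 j)
  let a : T → Option ι → N := fun t o => o.elim 0 fun j => em (a0 (π t) j)
  let h : T → Option ι → N := fun t o => o.elim (wz t) fun j => em (h0 (π t) j)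
  have hhA : ∀ t o, h t o ∈ M.A t := by
    rintro t (_ | j)
    · exact hwzA t
    · exact hLn.ov.le t _ (hN0.hA (π t) j)
  have hom1 : ∀ t (κ : Type u) [Field κ] [Algebra k κ] (φ : M.A t →ₐ[k] κ)
      (v0 : LT (φ.comp (ci (hLn.ov.le t))) (B.x (π t))) (v : LT φ (M.x t))
      (hv1 : ∀ a (ha : a ∈ B.A (π t)),
        v.D.D ⟨algebraMap L N a, hLn.ov.le t a ha⟩ = v0.D.D ⟨a, ha⟩)
      (hv2 : ∀ i0, ∑ i, (Θ i i0 : κ) * v.e i = v0.e i0) (j : ι),
      om v (n (some j)) (hhA t (some j)) = om v0 (n0 j) (hN0.hA (π t) j) := by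
    intro t κ _ _ φ v0 v hv1 hv2 j
    unfold om
    change v.D.D ⟨em (h0 (π t) j), _⟩ + φ ⟨em (h0 (π t) j), _⟩ *
      ∑ i, (tr Θ (n0 j) i : κ) * v.e i = _
    rw [sum_pull hv2, hv1 _ (hN0.hA (π t) j)]
    rfl
  refine ⟨T, I, hT, hI, M, n, a, h, Sum.elim (fun c => tr Θ (Γ0 c)) fun _ => γ, ⟨hhA, ?_, ?_⟩,
    ?_, hFr⟩
  · rintro t (_ | j)
    · change z = 0 ^ p + mn (M.x t) γ * wz t
      rw [zero_pow hp.ne_zero, zero_add, mul_comm]
      exact hwz t
    · have h1 := congrArg em (hN0.eq (π t) j)
      rw [map_add, map_mul, map_pow] at h1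
      change em (f j) = em (a0 (π t) j) ^ p + mn (M.x t) (tr Θ (n0 j)) * em (h0 (π t) j)
      rw [h1, ← mn_pull hLn.ov]
  · rintro t κ _ _ φ (_ | j)
    · let v0 : LT (φ.comp (ci (hLn.ov.le t))) (B.x (π t)) :=
        ⟨TV.zero _, fun _ => 0, fun i hi => (mul_zero _).symm⟩
      obtain ⟨v, hv1, hv2, hv3⟩ := hLn.lf t κ φ v0 1
      refine ⟨v, ?_, ?_⟩
      · have h1 := hv3 (wz t) (hwzA t) (hwz0 t) (hwzA' t) (hwz t)
        change v.D.D ⟨wz t, _⟩ + φ ⟨wz t, _⟩ * ∑ i, (γ i : κ) * v.e i ≠ 0
        rw [h1, mul_one]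
        exact ne_of_unit φ (hwzA t) (hwz0 t) (hwzA' t)
      · rintro (_ | l) hl
        · exact absurd rfl hl
        · rw [hom1 t κ φ v0 v hv1 hv2 l]
          unfold om
          change (0 : κ) + _ * ∑ i, (n0 l i : κ) * 0 = 0
          simp
    · obtain ⟨v0, hv0, hv0'⟩ := hN0.ln (π t) κ (φ.comp (ci (hLn.ov.le t))) j
      obtain ⟨v, hv1, hv2, hv3⟩ := hLn.lf t κ φ v0 0
      refine ⟨v, ?_, ?_⟩
      · rw [hom1 t κ φ v0 v hv1 hv2 j]
        exact hv0
      · rintro (_ | l) hl
        · have h1 := hv3 (wz t) (hwzA t) (hwz0 t) (hwzA' t) (hwz t)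
          change v.D.D ⟨wz t, _⟩ + φ ⟨wz t, _⟩ * ∑ i, (γ i : κ) * v.e i = 0
          rw [h1, mul_zero]
        · rw [hom1 t κ φ v0 v hv1 hv2 l]
          exact hv0' _ fun h => hl (by rw [h])
  · rintro (c | _) t
    · obtain ⟨w, hw0, hw, hw', hwf⟩ := hG0 c (π t)
      refine ⟨em w, (map_ne_zero em).2 hw0, hLn.ov.le t _ hw, ?_, ?_⟩
      · rw [← map_inv₀]
        exact hLn.ov.le t _ hw'
      · change em (g c) = em w * mn (M.x t) (tr Θ (Γ0 c))
        rw [← mn_pull hLn.ov, hwf]
        exact map_mul _ _ _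
    · exact ⟨wz t, hwz0 t, hwzA t, hwzA' t, hwz t⟩

end line

section ops

variable (p : ℕ) [Fact p.Prime] {k L K : Type u} [Field k] [PerfectField k] [CharP k p] [Field L]
  [Field K] [Algebra k L] [Algebra L K] [Algebra k K] [IsScalarTower k L K] {P : Set L}
  {ι : Type}

lemma md_ne {f : ι → L} (hP : Md p k P f) (j : ι) : f j ≠ 0 := by
  have hp : p.Prime := Fact.out
  intro h0
  exact gm_ne_pow (hP Empty (fun e => e.elim) (fun e => e.elim) (fun e => e.elim)) j 0
    (by rw [h0, zero_pow hp.ne_zero])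

/-- The choice of the boundary functions for an operation. -/
lemma md_of_gm {J J' : Type} [Finite J] (c : J → L) (hc : ∀ j, c j ∈ P) (hc0 : ∀ j, c j ≠ 0)
    {f : ι → L} (hP : Md p k P f) {ι' : Type} (f' : ι' → K) (q : J' → K)
    (hG : ∀ (G : Type) (g : G → L), GM p k f (Sum.elim g c) →
      GM p k f' (Sum.elim (fun b => algebraMap L K (g b)) q)) :
    Md p k (algebraMap L K '' P ∪ Set.range q) f' := by
  classical
  intro B _ b hb hb0
  have hc1 : ∀ i : {i : B // b i ∈ algebraMap L K '' P}, ∃ a ∈ P, algebraMap L K a = b i :=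
    fun i => i.2
  choose a ha hba using hc1
  have h1 := hG _ a (hP _ (Sum.elim a c)
    (by
      rintro (i | i)
      · exact ha i
      · exact hc i)
    (by
      rintro (i | i)
      · intro h
        apply hb0 i
        rw [← hba, show a i = 0 from h, map_zero]
      · exact hc0 i))
  refine gm_sub h1 b ?_
  intro T I _ _ M hFr hM i
  by_cases h : b i ∈ algebraMap L K '' P
  · have h4 := hM (Sum.inl ⟨i, h⟩)
    simp only [Sum.elim_inl, hba] at h4
    exact h4
  · obtain ⟨j, hj⟩ := (hb i).resolve_left h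
    rw [← hj]
    exact hM (Sum.inr j)

/-- New variables. -/
theorem md_line {f : ι → L} (hP : Md p k P f) (z : K) (hz : Transcendental L z)
    (hgen : IntermediateField.adjoin L {z} = ⊤) :
    Md p k (algebraMap L K '' P ∪ Set.range fun _ : Unit => z)
      (fun o : Option ι => o.elim z fun j => algebraMap L K (f j)) :=
  md_of_gm p (fun e : Empty => e.elim) (fun e => e.elim) (fun e => e.elim) hP _ _
    fun G g hg => gm_line p f g (hg.reindex id Function.injective_id Sum.inl) z hz hgen

/-- The Frobenius sum. -/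
theorem md_frob {f : Bool ⊕ ι → L} (hP : Md p k P f) (hf : ∀ j, f (Sum.inl j) ∈ P) (z : K)
    (hz : Transcendental L z) (hgen : IntermediateField.adjoin L {z} = ⊤) :
    Md p k (algebraMap L K '' P ∪ Set.range fun b : Bool => if b = true then z else
        algebraMap L K (f (Sum.inl false)) + algebraMap L K (f (Sum.inl true)) * z ^ p)
      (fun o : Option ι => o.elim (algebraMap L K (f (Sum.inl false)) +
        algebraMap L K (f (Sum.inl true)) * z ^ p) fun j => algebraMap L K (f (Sum.inr j))) := by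
  refine md_of_gm p (fun j : Bool => f (Sum.inl j)) hf (fun j => md_ne p hP _) hP _ _
    fun G g hg => ?_
  have h1 := frob_sum p f (Sum.elim g fun j : Bool => f (Sum.inl j)) hg Sum.inr (fun j => rfl) z
    hz hgen
  refine gm_sub h1 _ ?_
  intro T I _ _ M hFr hM o
  rcases o with b | (_ | _)
  · exact hM (Sum.inl (Sum.inl (Sum.inl b)))
  · exact hM (Sum.inr ())
  · exact hM (Sum.inl (Sum.inr ()))

/-- The Frobenius sum with the coefficient one. -/
theorem md_frob1 {f : Option ι → L} (hP : Md p k P f) (hf : f none ∈ P) (z : K)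
    (hz : Transcendental L z) (hgen : IntermediateField.adjoin L {z} = ⊤) :
    Md p k (algebraMap L K '' P ∪ Set.range fun b : Bool => if b = true then z else
        algebraMap L K (f none) + z ^ p)
      (fun o : Option ι => o.elim (algebraMap L K (f none) + z ^ p)
        fun j => algebraMap L K (f (some j))) := by
  refine md_of_gm p (fun _ : Unit => f none) (fun _ => hf) (fun j => md_ne p hP _) hP _ _
    fun G g hg => ?_
  have h1 := frob_sum1 p f (Sum.elim g fun _ : Unit => f none) hg (Sum.inr ()) rfl z hz hgen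
  refine gm_sub h1 _ ?_
  intro T I _ _ M hFr hM o
  rcases o with b | (_ | _)
  · exact hM (Sum.inl (Sum.inl (Sum.inl b)))
  · exact hM (Sum.inr ())
  · exact hM (Sum.inl (Sum.inr ()))

/-- Sums with a new variable. -/
theorem md_tame {f : Option ι → L} (hP : Md p k P f) (hf : f none ∈ P) (c : L) (hc : c ∈ P)
    (hc0 : c ≠ 0) (z : K) (hz : Transcendental L z)
    (hgen : IntermediateField.adjoin L {z} = ⊤) :
    Md p k (algebraMap L K '' P ∪ Set.range fun b : Bool => if b = true then z else
        algebraMap L K (f none) + algebraMap L K c * z)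
      (fun o : Option ι => o.elim (algebraMap L K (f none) + algebraMap L K c * z)
        fun j => algebraMap L K (f (some j))) := by
  have hf0 : f none ≠ 0 := md_ne p hP none
  refine md_of_gm p (fun b : Bool => if b = true then c else f none) (fun b => by
    split_ifs
    · exact hc
    · exact hf) (fun b => by
    split_ifs
    · exact hc0
    · exact hf0) hP _ _ fun G g hg => ?_
  have hcf : c * (f none)⁻¹ ≠ 0 := mul_ne_zero hc0 (inv_ne_zero hf0)
  let z' : K := algebraMap L K (c * (f none)⁻¹) * z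
  have hz' : Transcendental L z' := by
    intro h
    apply hz
    have h1 : z = algebraMap L K (c * (f none)⁻¹)⁻¹ * z' := by
      simp only [z']
      rw [← mul_assoc, ← map_mul, inv_mul_cancel₀ hcf, map_one, one_mul]
    rw [h1]
    exact (isAlgebraic_algebraMap _).mul h
  have hgen' : IntermediateField.adjoin L {z'} = ⊤ := by
    rw [eq_top_iff, ← hgen, IntermediateField.adjoin_le_iff, Set.singleton_subset_iff]
    have h1 : z = algebraMap L K (c * (f none)⁻¹)⁻¹ * z' := by
      simp only [z']
      rw [← mul_assoc, ← map_mul, inv_mul_cancel₀ hcf, map_one, one_mul]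
    rw [h1]
    exact mul_mem (IntermediateField.algebraMap_mem _ _)
      (IntermediateField.mem_adjoin_simple_self L z')
  have hF : algebraMap L K (f none) * (1 + z') =
      algebraMap L K (f none) + algebraMap L K c * z := by
    have h1 : algebraMap L K (f none) * algebraMap L K (c * (f none)⁻¹) = algebraMap L K c := by
      rw [← map_mul, mul_left_comm, mul_inv_cancel₀ hf0, mul_one]
    simp only [z']
    linear_combination z * h1
  have h1 := tame_sum p f (Sum.elim g fun b : Bool => if b = true then c else f none) hg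
    (Sum.inr false) rfl z' hz' hgen'
  rw [hF] at h1
  refine gm_sub h1 _ ?_
  intro T I _ _ M hFr hM o
  rcases o with b | (_ | _)
  · exact hM (Sum.inl (Sum.inl (Sum.inl b)))
  · exact hM (Sum.inr ())
  · change IsB M z
    have h2 : IsB M z' := hM (Sum.inl (Sum.inr ()))
    have h3 : IsB M (algebraMap L K c) := hM (Sum.inl (Sum.inl (Sum.inr true)))
    have h4 : IsB M (algebraMap L K (f none)) := hM (Sum.inl (Sum.inl (Sum.inr false)))
    have h5 : z = z' * algebraMap L K (f none) * (algebraMap L K c)⁻¹ := by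
      simp only [z']
      rw [map_mul, map_inv₀]
      have h6 : algebraMap L K (f none) ≠ 0 := (_root_.map_ne_zero _).2 hf0
      have h7 : algebraMap L K c ≠ 0 := (_root_.map_ne_zero _).2 hc0
      field_simp
    rw [h5]
    exact (h2.mul h4).mul h3.inv

/-- Multiplication by `p`-th powers. -/
theorem md_mulp {f : ι → L} (hP : Md p k P f) [Finite ι] (β : ι → L) (hβ : ∀ j, β j ∈ P)
    (hβ0 : ∀ j, β j ≠ 0) : Md p k P (fun j => β j ^ p * f j) := by
  intro B _ b hb hb0
  have h1 := gm_mulp (hP (B ⊕ ι) (Sum.elim b β)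
    (by
      rintro (i | i)
      · exact hb i
      · exact hβ i)
    (by
      rintro (i | i)
      · exact hb0 i
      · exact hβ0 i)) β (fun T I _ _ M hFr hM j => hM (Sum.inr j))
  exact h1.reindex id Function.injective_id Sum.inl

end ops

end Pool.Agent.KS6_21.P2
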