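import Pool.Agent.KS6_21.P2.Core

/-!
Pull back of exponents and roots of monomials.
-/

set_option autoImplicit false
set_option linter.unusedVariables false
set_option linter.unusedSectionVars false

universe u

open Polynomial Pool.Agent.W177.WD Pool.Agent.KS6_21.P1 Pool.Agent.TH188.WQ Pool.Agent.TH214

open Pool.Agent.W558 hiding Ovr ci

namespace Pool.Agent.KS6_21.P2

/-- The quotient by `p`, rounded up. -/
def cl (p : ℕ) (ν : ℤ) : ℤ := -((-ν) / p)

lemma le_cl {p : ℕ} (hp : 0 < p) (ν : ℤ) : ν ≤ p * cl p ν := by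
  have h1 : (0 : ℤ) < p := by exact_mod_cast hp
  have h2 := Int.mul_ediv_self_le (x := -ν) h1.ne'
  unfold cl
  linarith [h2]

lemma cl_le {p : ℕ} (hp : 0 < p) {ν q : ℤ} (h : ν ≤ p * q) : cl p ν ≤ q := by
  have h1 : (0 : ℤ) < p := by exact_mod_cast hp
  have h2 : -q ≤ (-ν) / p := by
    rw [Int.le_ediv_iff_mul_le h1]
    linarith
  unfold cl
  linarith

section pull

variable {k L N : Type u} [Field k] [Field L] [Field N] [Algebra k L] [Algebra k N] [Algebra L N]
  [IsScalarTower k L N] {T0 I0 T I : Type} [Fintype I0] [Fintype I]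
  {B : LM (⊥ : Subalgebra k L) ⊤ T0 I0} {M : LM (⊥ : Subalgebra k N) ⊤ T I} {π : T → T0}
  {Θ : I → I0 → ℤ}

lemma mn_pull (ho : Ovr B M π Θ) (t : T) (m : I0 → ℤ) :
    algebraMap L N (mn (B.x (π t)) m) = mn (M.x t) (tr Θ m) := mo_pull ho t m

lemma le_pull (ho : Ovr B M π Θ) (t : T) {m n : I0 → ℤ}
    (h : LE' (B.A (π t)) (B.x (π t)) m n) : LE' (M.A t) (M.x t) (tr Θ m) (tr Θ n) := by
  intro i
  rcases nonneg_pull ho t (m := fun i0 => n i0 - m i0) (fun i0 => by
    rcases h i0 with h1 | h1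
    · left; omega
    · exact Or.inr h1) i with h1 | h1
  · left
    have h2 : ∑ i0, Θ i i0 * (n i0 - m i0) = tr Θ n i - tr Θ m i := by
      unfold tr
      rw [← Finset.sum_sub_distrib]
      exact Finset.sum_congr rfl fun i0 _ => by ring
    rw [h2] at h1
    omega
  · exact Or.inr h1

lemma sum_pull {κ : Type u} [Field κ] {e0 : I0 → κ} {e : I → κ}
    (h : ∀ i0, ∑ i, (Θ i i0 : κ) * e i = e0 i0) (m : I0 → ℤ) :
    ∑ i, (tr Θ m i : κ) * e i = ∑ i0, (m i0 : κ) * e0 i0 := by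
  have h3 : ∀ i, (tr Θ m i : κ) * e i = ∑ i0, (m i0 : κ) * ((Θ i i0 : κ) * e i) := by
    intro i
    unfold tr
    push_cast
    rw [Finset.sum_mul]
    exact Finset.sum_congr rfl fun i0 _ => by ring
  rw [Finset.sum_congr rfl fun i _ => h3 i, Finset.sum_comm]
  refine Finset.sum_congr rfl fun i0 _ => ?_
  rw [← Finset.mul_sum, h i0]

end pull

section pd

variable {k K : Type u} [Field k] [Field K] [Algebra k K] {A : Subalgebra k K}
  [Algebra.Smooth k A] {I : Type} {x : I → K} [Fintype I]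

/-- The `p`-th root of a monomial times a unit. -/
lemma pd (hS : SNC A x) (hx : ∀ i, x i ∈ A) (hx0 : ∀ i, x i ≠ 0)
    (hfr : ∀ z : K, ∃ a ∈ A, ∃ b ∈ A, b ≠ 0 ∧ z = a * b⁻¹) {p : ℕ} (hp : 0 < p)
    {m : I → ℤ} {a w : K} (hw0 : w ≠ 0) (hw : w ∈ A) (hw' : w⁻¹ ∈ A)
    (h : a ^ p = w * mn x m) :
    ∃ u ∈ A, u ≠ 0 ∧ u⁻¹ ∈ A ∧ a = u * mn x (fun i => m i / p) ∧
      ∀ i, m i = p * (m i / p) ∨ (x i)⁻¹ ∈ A := by
  classical
  have hpz : (0 : ℤ) < p := by exact_mod_cast hp
  let c : I → ℤ := fun i => m i % p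
  let q : I → ℤ := fun i => m i / p
  have hm : ∀ i, m i = c i + p * q i := fun i => (Int.emod_add_mul_ediv (m i) p).symm
  have hc0 : ∀ i, 0 ≤ c i := fun i => Int.emod_nonneg _ hpz.ne'
  have hcp : ∀ i, c i < p := fun i => Int.emod_lt_of_pos _ hpz
  have hq0 := mn_ne hx0 q
  let u : K := a * (mn x q)⁻¹
  have hup : u ^ p = w * mn x c := by
    have e2 : mn x m = mn x c * mn x q ^ p := by
      rw [← mn_mul, ← mn_add hx0]
      exact mn_congr hm
    simp only [u]
    rw [mul_pow, h, e2, inv_pow]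
    field_simp
  have hu0 : u ≠ 0 := by
    intro h0
    rw [h0, zero_pow hp.ne'] at hup
    exact mul_ne_zero hw0 (mn_ne hx0 c) hup.symm
  have huA : u ∈ A := by
    refine root_mem hfr hp.ne' ?_
    rw [hup]
    exact A.mul_mem hw (mn_mem hx fun i => Or.inl (hc0 i))
  have hui : mn x c * (u⁻¹) ^ p = w⁻¹ := by
    rw [inv_pow, hup, mul_inv]
    have := mn_ne hx0 c
    field_simp
  have huA' : u⁻¹ ∈ A := by
    refine root_mono hS hx hx0 hfr hp.ne' hcp ?_
    rw [hui]
    exact hw'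
  refine ⟨u, huA, hu0, huA', ?_, ?_⟩
  · simp only [u]
    change a = a * (mn x q)⁻¹ * mn x q
    rw [mul_assoc, inv_mul_cancel₀ hq0, mul_one]
  · intro i
    have h1 : (1 : K) * mn x (fun i => -c i) ∈ A := by
      have h2 : mn x (fun i => -c i) = w * (u⁻¹) ^ p := by
        rw [mn_neg, inv_pow, hup, mul_inv]
        field_simp
      rw [one_mul, h2]
      exact A.mul_mem hw (A.pow_mem huA' p)
    rcases nonneg_of_mem hS hx hx0 one_ne_zero (by rw [inv_one]; exact A.one_mem) h1 i with h2 | h2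
    · left
      have h3 := hc0 i
      have h4 := hm i
      have h5 : c i = 0 := le_antisymm (by linarith) h3
      rw [h5, zero_add] at h4
      exact h4
    · exact Or.inr h2

end pd

end Pool.Agent.KS6_21.P2
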