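import Pool.Agent.KS6_21.P1.Ops3

/-!
Roots and monomials in smooth algebras with a divisor with simple normal crossings.
-/

set_option autoImplicit false
set_option linter.unusedVariables false
set_option linter.unusedSectionVars false

universe u

open Polynomial Pool.Agent.W558 Pool.Agent.W177.WD Pool.Agent.KS6_21.P1

namespace Pool.Agent.KS6_21.P2

lemma mn_congr {N I : Type*} [Field N] [Fintype I] {x : I → N} {m m' : I → ℤ}
    (h : ∀ i, m i = m' i) : ∏ i, x i ^ m i = ∏ i, x i ^ m' i :=
  Finset.prod_congr rfl fun i _ => by rw [h i]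

lemma mn_single {N I : Type*} [Field N] [Fintype I] [DecidableEq I] (x : I → N) (i : I)
    (n : ℤ) : ∏ l, x l ^ (if l = i then n else 0) = x i ^ n := by
  rw [Finset.prod_eq_single i]
  · rw [if_pos rfl]
  · intro l _ hl
    rw [if_neg hl, zpow_zero]
  · intro h
    exact absurd (Finset.mem_univ _) h

section root

variable {k K : Type u} [Field k] [Field K] [Algebra k K] {A : Subalgebra k K}
  [Algebra.Smooth k A] {I : Type} {x : I → K}

/-- Smooth algebras are integrally closed in their field of fractions. -/
lemma root_mem (hfr : ∀ z : K, ∃ a ∈ A, ∃ b ∈ A, b ≠ 0 ∧ z = a * b⁻¹) {p : ℕ} (hp : p ≠ 0)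
    {b : K} (h : b ^ p ∈ A) : b ∈ A := by
  have h1 : IsIntegrallyClosed A := wd_norm k A
  have h2 : IsFractionRing A K := by
    refine IsFractionRing.of_field _ _ fun z => ?_
    obtain ⟨u, hu, v, hv, hv0, h⟩ := hfr z
    exact ⟨⟨u, hu⟩, ⟨v, hv⟩, by rw [h, div_eq_mul_inv]; rfl⟩
  have h3 : IsIntegral A b := by
    refine IsIntegral.of_pow (Nat.pos_of_ne_zero hp) ?_
    exact isIntegral_algebraMap (x := (⟨_, h⟩ : A))
  obtain ⟨w, hw⟩ := IsIntegrallyClosed.isIntegral_iff.1 h3
  rw [← hw]
  exact w.2

/-- The local equations generate radical ideals. -/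
lemma div_of_pow_div (hS : SNC A x) (hx : ∀ i, x i ∈ A) (hx0 : ∀ i, x i ≠ 0) {i : I} {a : K}
    (ha : a ∈ A) {p : ℕ} (h : a ^ p / x i ∈ A) : a / x i ∈ A := by
  have hsm := smooth_quot (⟨x i, hx i⟩ : A) (by
    intro κ _ _ φ hφ
    obtain ⟨D, hD, -⟩ := hS κ φ i (hx i) hφ
    exact ⟨D, by rw [hD]; exact one_ne_zero⟩)
  have hred := isReduced_of_smooth k (A ⧸ Ideal.span {(⟨x i, hx i⟩ : A)})
  have h1 : (Ideal.Quotient.mk (Ideal.span {(⟨x i, hx i⟩ : A)}) ⟨a, ha⟩) ^ p = 0 := by
    rw [← map_pow, Ideal.Quotient.eq_zero_iff_mem, Ideal.mem_span_singleton]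
    refine ⟨⟨_, h⟩, Subtype.ext ?_⟩
    change a ^ p = x i * (a ^ p / x i)
    have := hx0 i
    field_simp
  have h2 : Ideal.Quotient.mk (Ideal.span {(⟨x i, hx i⟩ : A)}) ⟨a, ha⟩ = 0 :=
    eq_zero_of_pow_eq_zero h1
  rw [Ideal.Quotient.eq_zero_iff_mem, Ideal.mem_span_singleton] at h2
  obtain ⟨b, hb⟩ := h2
  have h3 : a = x i * b := congrArg Subtype.val hb
  have h4 : a / x i = b := by
    have := hx0 i
    rw [h3]
    field_simp
  rw [h4]
  exact b.2

variable [Fintype I]

/-- The other local equations are not zero divisors modulo one of them. -/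
lemma div_of_mono_div [DecidableEq I] (hS : SNC A x) (hx : ∀ i, x i ∈ A) (hx0 : ∀ i, x i ≠ 0)
    (i : I) (γ : I → ℤ) (hγ : γ i = 0) {a : K} (ha : a ∈ A) (h : mn x γ * (a / x i) ∈ A) :
    a / x i ∈ A := by
  let x' : I → K := fun l => if l = i then 1 else x l
  have hx' : ∀ l, x' l ∈ A := by
    intro l
    simp only [x']
    split_ifs
    · exact A.one_mem
    · exact hx l
  refine div_mem_of_prod_mul (y := x i) (x := x') ?_ (hx i) hx' (hx0 i) ?_ γ ha ?_
  · intro κ _ _ φ o ho hφ
    have hone : ∀ (l : I) (hl : x' l ∈ A), l = i → φ ⟨x' l, hl⟩ ≠ 0 := by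
      intro l hl hli h0
      have h1 : (⟨x' l, hl⟩ : A) = 1 := Subtype.ext (if_pos hli)
      rw [h1, map_one] at h0
      exact one_ne_zero h0
    have heq : ∀ (l : I) (hl : x' l ∈ A), l ≠ i → (⟨x' l, hl⟩ : A) = ⟨x l, hx l⟩ :=
      fun l hl hli => Subtype.ext (if_neg hli)
    rcases o with _ | l
    · obtain ⟨D, hD, hD'⟩ := hS κ φ i ho hφ
      refine ⟨D, hD, ?_⟩
      rintro (_ | j) hj hne h0
      · exact absurd rfl hne
      · by_cases hji : j = i
        · exact absurd h0 (hone j hj hji)
        · change D.D ⟨x' j, hj⟩ = 0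
          change φ ⟨x' j, hj⟩ = 0 at h0
          rw [heq j hj hji] at h0 ⊢
          exact hD' j (hx j) hji h0
    · change φ ⟨x' l, ho⟩ = 0 at hφ
      by_cases hli : l = i
      · exact absurd hφ (hone l ho hli)
      · rw [heq l ho hli] at hφ
        obtain ⟨D, hD, hD'⟩ := hS κ φ l (hx l) hφ
        refine ⟨D, ?_, ?_⟩
        · change D.D ⟨x' l, ho⟩ = 1
          rw [heq l ho hli]
          exact hD
        · rintro (_ | j) hj hne h0
          · exact hD' i hj (fun h => hli h.symm) h0
          · by_cases hji : j = i
            · exact absurd h0 (hone j hj hji)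
            · change D.D ⟨x' j, hj⟩ = 0
              change φ ⟨x' j, hj⟩ = 0 at h0
              rw [heq j hj hji] at h0 ⊢
              exact hD' j (hx j) (fun h => hne (by rw [h])) h0
  · intro l
    simp only [x']
    split_ifs
    · exact one_ne_zero
    · exact hx0 l
  · have h1 : ∏ l, x' l ^ γ l = mn x γ := by
      refine Finset.prod_congr rfl fun l _ => ?_
      by_cases hli : l = i
      · rw [hli, hγ, zpow_zero, zpow_zero]
      · simp only [x', if_neg hli]
    rw [h1]
    exact h

/-- If a monomial times a unit is in `A` then its exponents are nonnegative, up to units. -/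
lemma nonneg_of_mem [DecidableEq I] (hS : SNC A x) (hx : ∀ i, x i ∈ A) (hx0 : ∀ i, x i ≠ 0)
    {m : I → ℤ} {w : K} (hw0 : w ≠ 0) (hw : w⁻¹ ∈ A) (h : w * mn x m ∈ A) (i : I) :
    0 ≤ m i ∨ (x i)⁻¹ ∈ A := by
  by_contra hcon
  push Not at hcon
  obtain ⟨hm, hxi⟩ := hcon
  apply hxi
  have h1 : mn x m ∈ A := by
    have h2 := A.mul_mem hw h
    rwa [← mul_assoc, inv_mul_cancel₀ hw0, one_mul] at h2
  have h3 : mn x (fun l => if l = i then 0 else m l) * (1 / x i) ∈ A := by
    have h4 : mn x (fun l => if l = i then 0 else m l) * (1 / x i) =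
        x i ^ (-m i - 1) * mn x m := by
      have h5 : mn x m = x i ^ m i * mn x (fun l => if l = i then 0 else m l) := by
        unfold mn
        rw [← Finset.mul_prod_erase Finset.univ _ (Finset.mem_univ i),
          ← Finset.mul_prod_erase Finset.univ (fun l => x l ^ (if l = i then 0 else m l))
          (Finset.mem_univ i), if_pos rfl, zpow_zero, one_mul]
        congr 1
        refine Finset.prod_congr rfl fun l hl => ?_
        rw [if_neg (Finset.ne_of_mem_erase hl)]
      rw [h5, ← mul_assoc, ← zpow_add₀ (hx0 i)]
      have h6 : -m i - 1 + m i = -1 := by ring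
      rw [h6, zpow_neg_one, one_div, mul_comm]
    rw [h4]
    exact A.mul_mem (zpow_mem_of (hx i) (Or.inl (by omega))) h1
  have h4 := div_of_mono_div hS hx hx0 i _ (by simp) A.one_mem h3
  rwa [one_div] at h4

/-- A root of an element whose exponents are less than `p`. -/
lemma root_mono [DecidableEq I] (hS : SNC A x) (hx : ∀ i, x i ∈ A) (hx0 : ∀ i, x i ≠ 0)
    (hfr : ∀ z : K, ∃ a ∈ A, ∃ b ∈ A, b ≠ 0 ∧ z = a * b⁻¹) {p : ℕ} (hp : p ≠ 0) {c : I → ℤ}
    (hc : ∀ i, c i < p) {b : K} (h : mn x c * b ^ p ∈ A) : b ∈ A := by
  have hmain : ∀ (c : I → ℤ), (∀ i, 0 ≤ c i) → (∀ i, c i < p) → mn x c * b ^ p ∈ A → b ∈ A := by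
    intro c hc0 hc h
    have key : ∀ s : Finset I, (b * ∏ i ∈ s, x i) ∈ A → b ∈ A := by
      intro s
      induction s using Finset.induction_on with
      | empty => intro h; simpa using h
      | insert i s hi ih =>
        intro h1
        apply ih
        have e1 : b * ∏ j ∈ insert i s, x j = b * (∏ j ∈ s, x j) * x i := by
          rw [Finset.prod_insert hi]; ring
        have h2 : (b * ∏ j ∈ insert i s, x j) / x i ∈ A := by
          refine div_of_pow_div hS hx hx0 h1 (p := p) ?_
          refine div_of_mono_div hS hx hx0 i (fun l => if l ∈ insert i s then 0 else c l)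
            (by simp) (A.pow_mem h1 p) ?_
          have e2 : mn x (fun l => if l ∈ insert i s then 0 else c l) *
              ((b * ∏ j ∈ insert i s, x j) ^ p / x i) =
              (mn x c * b ^ p) * mn x (fun l => if l = i then (p : ℤ) - c l - 1 else
                if l ∈ s then (p : ℤ) - c l else 0) := by
            have e3 : mn x c * mn x (fun l => if l = i then (p : ℤ) - c l - 1 else
                if l ∈ s then (p : ℤ) - c l else 0) =
                mn x (fun l => if l ∈ insert i s then 0 else c l) *
                  mn x (fun l => if l = i then (p : ℤ) - 1 else if l ∈ s then (p : ℤ) else 0) := by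
              rw [← mn_add hx0, ← mn_add hx0]
              refine mn_congr fun l => ?_
              by_cases hl : l = i
              · subst hl
                rw [if_pos rfl, if_pos rfl, if_pos (Finset.mem_insert_self _ _)]
                ring
              · by_cases hl' : l ∈ s
                · rw [if_neg hl, if_neg hl, if_pos hl', if_pos hl',
                    if_pos (Finset.mem_insert_of_mem hl')]
                  ring
                · rw [if_neg hl, if_neg hl, if_neg hl', if_neg hl', if_neg (by
                    rw [Finset.mem_insert]; tauto)]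
            have e4 : (∏ j ∈ insert i s, x j) ^ p = x i *
                mn x (fun l => if l = i then (p : ℤ) - 1 else if l ∈ s then (p : ℤ) else 0) := by
              have e5 : x i = mn x (fun l => if l = i then 1 else 0) :=
                ((mn_single x i 1).trans (zpow_one _)).symm
              conv_rhs => rw [e5]
              rw [← mn_add hx0, ← Finset.prod_pow]
              unfold mn
              beta_reduce
              rw [← Finset.prod_subset (Finset.subset_univ (insert i s))]
              · refine Finset.prod_congr rfl fun l hl => ?_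
                rw [← zpow_natCast]
                refine congrArg (x l ^ ·) ?_
                by_cases hl' : l = i
                · rw [if_pos hl', if_pos hl']; ring
                · rw [if_neg hl', if_neg hl', if_pos ((Finset.mem_insert.1 hl).resolve_left hl')]
                  ring
              · intro l _ hl
                rw [Finset.mem_insert, not_or] at hl
                rw [if_neg hl.1, if_neg hl.1, if_neg hl.2, add_zero, zpow_zero]
            rw [mul_pow, e4]
            have h5 : b ^ p * (x i * mn x (fun l => if l = i then (p : ℤ) - 1 else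
                if l ∈ s then (p : ℤ) else 0)) / x i = b ^ p *
                mn x (fun l => if l = i then (p : ℤ) - 1 else if l ∈ s then (p : ℤ) else 0) := by
              rw [mul_left_comm, mul_div_cancel_left₀ _ (hx0 i)]
            rw [h5]
            linear_combination (-b ^ p) * e3
          rw [e2]
          refine A.mul_mem h (mn_mem hx fun l => Or.inl ?_)
          have := hc l
          split_ifs <;> omega
        have h3 : (b * ∏ j ∈ insert i s, x j) / x i = b * ∏ j ∈ s, x j := by
          rw [e1]
          have := hx0 i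
          field_simp
        rw [h3] at h2
        exact h2
    refine key Finset.univ (root_mem hfr hp ?_)
    have e1 : (b * ∏ i, x i) ^ p = (mn x c * b ^ p) * mn x (fun i => (p : ℤ) - c i) := by
      have e2 : (∏ i, x i) ^ p = mn x c * mn x (fun i => (p : ℤ) - c i) := by
        rw [← mn_add hx0, ← Finset.prod_pow]
        refine Finset.prod_congr rfl fun l _ => ?_
        rw [← zpow_natCast]
        refine congrArg (x l ^ ·) ?_
        ring
      rw [mul_pow, e2]
      ring
    rw [e1]
    refine A.mul_mem h (mn_mem hx fun l => Or.inl ?_)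
    have := hc l
    omega
  refine hmain (fun i => max (c i) 0) (fun i => le_max_right _ _) (fun i => ?_) ?_
  · have := hc i
    have : 0 < p := Nat.pos_of_ne_zero hp
    omega
  · have e1 : mn x (fun i => max (c i) 0) = mn x (fun i => max (c i) 0 - c i) * mn x c := by
      rw [← mn_add hx0]
      refine mn_congr fun l => ?_
      ring
    rw [e1, mul_assoc]
    refine A.mul_mem (mn_mem hx fun l => Or.inl ?_) h
    have := le_max_left (c l) 0
    omega

end root

end Pool.Agent.KS6_21.P2
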