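import Pool.Agent.KS6_21.P2.Ops4

/-!
Adding the term `f * z ^ d` with a new variable `z`, where `d` is not divisible by `p ^ 2`.
-/

set_option autoImplicit false
set_option linter.unusedVariables false
set_option linter.unusedSectionVars false

universe u

open Polynomial Pool.Agent.W177.WD Pool.Agent.KS6_21.P1 Pool.Agent.TH188.WQ Pool.Agent.TH214
  Pool.Agent.N98 Pool.Agent.N762.RC Pool.Agent.N762.RC2 Pool.Agent.N762.FP Pool.Agent.TH214.V

open Pool.Agent.W558 hiding Ovr ci

namespace Pool.Agent.KS6_21.P2

lemma adj_top {C N : Type u} [Field C] [Field N] [Algebra C N] (t : N) :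
    IntermediateField.adjoin C {(⟨t, IntermediateField.mem_adjoin_simple_self C t⟩ :
      IntermediateField.adjoin C {t})} = ⊤ := by
  apply IntermediateField.lift_injective
  rw [IntermediateField.lift_adjoin, IntermediateField.lift_top, Set.image_singleton]

section step

variable (p : ℕ) [Fact p.Prime] {k C N : Type u} [Field k] [PerfectField k] [CharP k p]
  [Field C] [Field N] [Algebra k C] [Algebra C N] [Algebra k N] [IsScalarTower k C N] {P : Set C}

instance tower_top (t : N) : IsScalarTower k (IntermediateField.adjoin C {t}) N :=
  IsScalarTower.of_algebraMap_eq fun x => by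
    rw [IsScalarTower.algebraMap_apply k C (IntermediateField.adjoin C {t}),
      ← IsScalarTower.algebraMap_apply C (IntermediateField.adjoin C {t}) N,
      ← IsScalarTower.algebraMap_apply k C N]

lemma transc_pow {z : N} (hz : Transcendental C z) {e : ℕ} (he : e ≠ 0) :
    Transcendental C (z ^ e) := hz.pow (Nat.pos_of_ne_zero he)

/-- The last step: a root of a function with exponent prime to `p`. -/
theorem md_rad1 {ι : Type} (t : N) {P' : Set (IntermediateField.adjoin C {t})}
    {f : ι → IntermediateField.adjoin C {t}} (hP : Md p k P' f) (z : N) (hz0 : z ≠ 0) {e : ℕ}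
    (he : ¬ p ∣ e) (hze : z ^ e = t) (htP : (⟨t, IntermediateField.mem_adjoin_simple_self C t⟩ :
      IntermediateField.adjoin C {t}) ∈ P') (hgen : IntermediateField.adjoin C {z} = ⊤)
    {Q : Set N} (hQ : ∀ q ∈ Q, q = z ∨ ∃ q' ∈ P', (q' : N) = q) :
    Md p k Q (fun i => (f i : N)) := by
  have h1 := md_rad (K := N) p hP (g := 1) (fun _ => z) (fun _ => hz0) (fun _ => e) (fun _ => he)
    (fun _ => ⟨_, htP, hze⟩) (by
      rw [Set.range_const]
      exact IntermediateField.adjoin_eq_top_of_adjoin_eq_top C hgen)
  refine h1.mono ?_
  intro q hq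
  rcases hQ q hq with h2 | ⟨q', hq', h2⟩
  · exact Or.inr ⟨0, h2.symm⟩
  · exact Or.inl ⟨q', hq', h2⟩

/-- Adding a term. -/
theorem md_step (F f : C) (hFP : F ∈ P) (hfP : f ∈ P) (hf0 : f ≠ 0)
    (hM : Md p k P (fun _ : Unit => F))
    (hM2 : (∃ β ∈ P, f = β ^ p) ∨ Md p k P (fun b : Bool => if b = true then f else F))
    (z : N) (hz : Transcendental C z) (hgen : IntermediateField.adjoin C {z} = ⊤) (d : ℕ)
    (hd0 : d ≠ 0) (hd : ¬ p ^ 2 ∣ d) :
    Md p k (insert z (insert (algebraMap C N F + algebraMap C N f * z ^ d)
      (algebraMap C N '' P))) (fun _ : Unit => algebraMap C N F + algebraMap C N f * z ^ d) := by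
  classical
  have hp : p.Prime := Fact.out
  have hz0 : z ≠ 0 := by
    rintro rfl
    exact hz isAlgebraic_zero
  by_cases hpd : p ∣ d
  · -- the wild case
    obtain ⟨e, rfl⟩ := hpd
    have he0 : e ≠ 0 := right_ne_zero_of_mul hd0
    have he : ¬ p ∣ e := by
      rintro ⟨e', rfl⟩
      exact hd ⟨e', by ring⟩
    let t : N := z ^ e
    have ht : Transcendental C t := transc_pow hz he0
    let L' := IntermediateField.adjoin C {t}
    let t' : L' := ⟨t, IntermediateField.mem_adjoin_simple_self C t⟩
    have ht' : Transcendental C t' :=
      (transcendental_algebraMap_iff (algebraMap L' N).injective).1 ht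
    have hzt : z ^ (p * e) = t ^ p := by
      rw [mul_comm p e, pow_mul]
    rcases hM2 with ⟨β, hβP, rfl⟩ | hM2
    · have hβ0 : β ≠ 0 := by
        rintro rfl
        exact hf0 (zero_pow hp.ne_zero)
      let s : L' := algebraMap C L' β * t'
      have hts : t' = algebraMap C L' β⁻¹ * s := by
        simp only [s]
        rw [← mul_assoc, ← map_mul, inv_mul_cancel₀ hβ0, map_one, one_mul]
      have hs : Transcendental C s := by
        intro h
        apply ht'
        rw [hts]
        exact (isAlgebraic_algebraMap _).mul h
      have hgs : IntermediateField.adjoin C {s} = ⊤ := by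
        rw [eq_top_iff, ← adj_top (C := C) t, IntermediateField.adjoin_le_iff,
          Set.singleton_subset_iff]
        change t' ∈ IntermediateField.adjoin C {s}
        rw [hts]
        exact mul_mem (IntermediateField.algebraMap_mem _ _)
          (IntermediateField.mem_adjoin_simple_self C s)
      have h1 := md_frob1 p (f := fun o : Option Empty => o.elim F fun e => e.elim)
        (hM.comp' (fun _ => ()) (by
          rintro (_ | a) (_ | b) _
          · rfl
          · exact b.elim
          · exact a.elim
          · exact a.elim) (by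
          rintro (_ | a)
          · rfl
          · exact a.elim)) hFP s hs hgs
      have hF : algebraMap C L' F + s ^ p =
          algebraMap C L' F + algebraMap C L' (β ^ p) * t' ^ p := by
        simp only [s]
        rw [mul_pow, map_pow]
      have h2 := (h1.comp' (f' := fun _ : Unit => algebraMap C L' F + s ^ p) (fun _ => none)
        (fun _ _ _ => rfl) fun _ => rfl)
      have h3 := md_sat h2 (Q := insert t' (insert (algebraMap C L' F + s ^ p)
        (algebraMap C L' '' P))) (by
          rintro q (rfl | rfl | ⟨q, hq, rfl⟩) hq0
          · refine ⟨1, one_ne_zero, 1, 2, ![s, algebraMap C L' β], ![1, -1], ?_, ?_⟩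
            · intro i
              fin_cases i
              · exact Or.inr ⟨true, rfl⟩
              · exact Or.inl ⟨β, hβP, rfl⟩
            · simp [Fin.prod_univ_two]
              rw [hts]
              rw [map_inv₀]
              ring
          · exact ⟨1, one_ne_zero, 1, 1, fun _ => algebraMap C L' F + s ^ p, fun _ => 1,
              fun _ => Or.inr ⟨false, rfl⟩, by simp⟩
          · exact ⟨1, one_ne_zero, 1, 1, fun _ => algebraMap C L' q, fun _ => 1,
              fun _ => Or.inl ⟨q, hq, rfl⟩, by simp⟩)
      have h4 := md_rad1 p t h3 z hz0 he rfl (Or.inl rfl) hgen (Q := insert z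
        (insert (algebraMap C N F + algebraMap C N (β ^ p) * z ^ (p * e))
        (algebraMap C N '' P))) (by
          rintro q (rfl | rfl | ⟨q, hq, rfl⟩)
          · exact Or.inl rfl
          · refine Or.inr ⟨_, Or.inr (Or.inl rfl), ?_⟩
            rw [hF, hzt]
            rfl
          · exact Or.inr ⟨algebraMap C L' q, Or.inr (Or.inr ⟨q, hq, rfl⟩), rfl⟩)
      have h5 : ((algebraMap C L' F + s ^ p : L') : N) =
          algebraMap C N F + algebraMap C N (β ^ p) * z ^ (p * e) := by
        rw [hF, hzt]
        rfl
      rw [h5] at h4
      exact h4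
    · have h1 := md_frob p (f := Sum.elim (fun b : Bool => if b = true then f else F)
        (fun e : Empty => e.elim)) (hM2.comp' (Sum.elim id fun e => e.elim) (by
          rintro (a | a) (b | b) hab
          · exact congrArg _ hab
          · exact b.elim
          · exact a.elim
          · exact a.elim) (by
          rintro (a | a)
          · rfl
          · exact a.elim)) (by
          intro j
          cases j
          · exact hFP
          · exact hfP) t' ht' (adj_top t)
      have h2 := (h1.comp' (f' := fun _ : Unit => algebraMap C L' F + algebraMap C L' f * t' ^ p)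
        (fun _ => none) (fun _ _ _ => rfl) fun _ => rfl)
      have h4 := md_rad1 p t h2 z hz0 he rfl (Or.inr ⟨true, rfl⟩) hgen (Q := insert z
        (insert (algebraMap C N F + algebraMap C N f * z ^ (p * e))
        (algebraMap C N '' P))) (by
          rintro q (rfl | rfl | ⟨q, hq, rfl⟩)
          · exact Or.inl rfl
          · refine Or.inr ⟨_, Or.inr ⟨false, rfl⟩, ?_⟩
            rw [hzt]
            rfl
          · exact Or.inr ⟨algebraMap C L' q, Or.inl ⟨q, hq, rfl⟩, rfl⟩)
      have h5 : ((algebraMap C L' F + algebraMap C L' f * t' ^ p : L') : N) =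
          algebraMap C N F + algebraMap C N f * z ^ (p * e) := by
        rw [hzt]
        rfl
      rw [h5] at h4
      exact h4
  · -- the tame case
    let t : N := z ^ d
    have ht : Transcendental C t := transc_pow hz hd0
    let L' := IntermediateField.adjoin C {t}
    let t' : L' := ⟨t, IntermediateField.mem_adjoin_simple_self C t⟩
    have ht' : Transcendental C t' :=
      (transcendental_algebraMap_iff (algebraMap L' N).injective).1 ht
    have h1 := md_tame p (f := fun o : Option Empty => o.elim F fun e => e.elim)
      (hM.comp' (fun _ => ()) (by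
          rintro (_ | a) (_ | b) _
          · rfl
          · exact b.elim
          · exact a.elim
          · exact a.elim) (by
          rintro (_ | a)
          · rfl
          · exact a.elim)) hFP f hfP hf0 t' ht' (adj_top t)
    have h2 := (h1.comp' (f' := fun _ : Unit => algebraMap C L' F + algebraMap C L' f * t')
      (fun _ => none) (fun _ _ _ => rfl) fun _ => rfl)
    exact md_rad1 p t h2 z hz0 hpd rfl (Or.inr ⟨true, rfl⟩) hgen (by
        rintro q (rfl | rfl | ⟨q, hq, rfl⟩)
        · exact Or.inl rfl
        · exact Or.inr ⟨_, Or.inr ⟨false, rfl⟩, rfl⟩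
        · exact Or.inr ⟨algebraMap C L' q, Or.inl ⟨q, hq, rfl⟩, rfl⟩)

end step

end Pool.Agent.KS6_21.P2
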