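import Pool.Agent.KS6_21.P2.Frob1

/-!
The function `f * (1 + z)` for a new variable `z`, where `f` and `z` are boundary functions.
-/

set_option autoImplicit false
set_option linter.unusedVariables false
set_option linter.unusedSectionVars false

universe u

open Polynomial Pool.Agent.W177.WD Pool.Agent.KS6_21.P1 Pool.Agent.TH188.WQ Pool.Agent.TH214

open Pool.Agent.W558 hiding Ovr ci

namespace Pool.Agent.KS6_21.P2

section tame

variable (p : ℕ) [Fact p.Prime] {k L N : Type u} [Field k] [PerfectField k] [CharP k p]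
  [Field L] [Field N] [Algebra k L] [Algebra k N] [Algebra L N] [IsScalarTower k L N]

theorem tame_sum {G ι : Type} (f : Option ι → L) (g : G → L) (hM : GM p k f g) (b : G)
    (hb : g b = f none) (z : N) (hz : Transcendental L z)
    (hgen : IntermediateField.adjoin L {z} = ⊤) :
    GM p k (fun o : Option ι => o.elim (algebraMap L N (f none) * (1 + z))
        fun j => algebraMap L N (f (some j)))
      (Sum.elim (Sum.elim (fun c => algebraMap L N (g c)) fun _ : Unit => z)
        fun _ : Unit => algebraMap L N (f none) * (1 + z)) := by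
  classical
  have hp : p.Prime := Fact.out
  have hcN : CharP N p := charP_of_injective_algebraMap (algebraMap k N).injective p
  have hcL : CharP L p := charP_of_injective_algebraMap (algebraMap k L).injective p
  obtain ⟨T0, I0, hT0, hI0, B, n0, a0, h0, Γ0, hD⟩ :=
    exists_typed p hM (fun _ : Unit => (none : Option ι)) (fun _ _ _ => rfl) (fun _ => b)
      (fun _ => hb)
  obtain ⟨T, I, hT, hI, M, π, Θ, γ, hLn, hFr, hC⟩ := exists_line B hD.fr z hz hgen
    (C := Bool) (fun c => if c = true then Γ0 b else n0 none)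
    (fun c => if c = true then 1 else 0)
  let em : L →+* N := algebraMap L N
  let M0 : I → ℤ := tr Θ (Γ0 b)
  let N0 : I → ℤ := tr Θ (n0 none)
  let M1 : I → ℤ := fun i => M0 i + γ i
  have hCM : ∀ t, LE' (M.A t) (M.x t) N0 M1 ∨ LE' (M.A t) (M.x t) M1 N0 := by
    intro t
    have e0 : ∀ i, tr Θ (if (false : Bool) = true then Γ0 b else n0 none) i +
        (if (false : Bool) = true then (1 : ℤ) else 0) * γ i = N0 i := by
      intro i
      simp [N0]
    have e1 : ∀ i, tr Θ (if (true : Bool) = true then Γ0 b else n0 none) i +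
        (if (true : Bool) = true then (1 : ℤ) else 0) * γ i = M1 i := by
      intro i
      simp [M1, M0]
    rcases hC false true t with h1 | h1
    · left
      intro i
      have h2 := h1 i
      beta_reduce at h2
      rw [e0, e1] at h2
      exact h2
    · right
      intro i
      have h2 := h1 i
      beta_reduce at h2
      rw [e0, e1] at h2
      exact h2
  choose wz hwz0 hwzA hwzA' hwz using hLn.fz
  choose wf hwf0 hwfA hwfA' hwf using fun t0 => hD.fn b t0
  have hz0 : z ≠ 0 := by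
    rintro rfl
    exact hz isAlgebraic_zero
  have hpκ : ∀ (κ : Type u) [Field κ] [Algebra k κ], (p : κ) = 0 := fun κ _ _ =>
    cast_zero (k := k) p κ
  -- the normal form of the sum
  let F : N := em (f none) * (1 + z)
  have hh0A : ∀ t j, em (h0 (π t) j) ∈ M.A t := fun t j => hLn.ov.le t _ (hD.nf.hA (π t) j)
  let nF : I → ℤ := fun i => min (N0 i) (M1 i)
  let d0 : T → N := fun t => mn (M.x t) (fun i => N0 i - nF i)
  let d1 : T → N := fun t => (em (wf (π t)) * wz t) * mn (M.x t) (fun i => M1 i - nF i)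
  have hnF0 : ∀ i, 0 ≤ N0 i - nF i := fun i => by
    have := min_le_left (N0 i) (M1 i)
    simp only [nF]
    omega
  have hnF1 : ∀ i, 0 ≤ M1 i - nF i := fun i => by
    have := min_le_right (N0 i) (M1 i)
    simp only [nF]
    omega
  have hwA : ∀ t, em (wf (π t)) * wz t ∈ M.A t := fun t =>
    (M.A t).mul_mem (hLn.ov.le t _ (hwfA (π t))) (hwzA t)
  have hd0A : ∀ t, d0 t ∈ M.A t := fun t => mn_mem (M.xA t) fun i => Or.inl (hnF0 i)
  have hd1A : ∀ t, d1 t ∈ M.A t := fun t =>
    (M.A t).mul_mem (hwA t) (mn_mem (M.xA t) fun i => Or.inl (hnF1 i))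
  let hF : T → N := fun t => d0 t * em (h0 (π t) none) + d1 t
  have hhFA : ∀ t, hF t ∈ M.A t := fun t =>
    (M.A t).add_mem ((M.A t).mul_mem (hd0A t) (hh0A t _)) (hd1A t)
  have hemf : ∀ t, em (f none) = em (wf (π t)) * mn (M.x t) M0 := by
    intro t
    have h1 : f none = wf (π t) * mn (B.x (π t)) (Γ0 b) := by
      rw [← hb]
      exact hwf (π t)
    rw [h1, map_mul]
    congr 1
    exact mn_pull hLn.ov t _
  have hFeq : ∀ t, F = em (a0 (π t) none) ^ p + mn (M.x t) nF * hF t := by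
    intro t
    have h1 := congrArg em (hD.nf.eq (π t) none)
    rw [map_add, map_mul, map_pow] at h1
    have h1' : em (f none) = em (a0 (π t) none) ^ p + mn (M.x t) N0 * em (h0 (π t) none) := by
      rw [h1]
      congr 2
      exact mn_pull hLn.ov t _
    have h2 : mn (M.x t) nF * d0 t = mn (M.x t) N0 := by
      simp only [d0]
      rw [← mn_add (M.x0 t)]
      exact mn_congr fun i => by ring
    have h3 : mn (M.x t) nF * mn (M.x t) (fun i => M1 i - nF i) =
        mn (M.x t) M0 * mn (M.x t) γ := by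
      rw [← mn_add (M.x0 t), ← mn_add (M.x0 t)]
      exact mn_congr fun i => by simp only [M1]; ring
    have h4 : em (f none) * z = mn (M.x t) nF * d1 t := by
      conv_lhs => rw [hemf t, hwz t]
      simp only [d1]
      linear_combination -(em (wf (π t)) * wz t) * h3
    simp only [F, hF]
    linear_combination h1' - em (h0 (π t) none) * h2 + h4
  let n : Option ι → I → ℤ := fun o => o.elim nF fun j => tr Θ (n0 (some j))
  let a : T → Option ι → N := fun t o => em (a0 (π t) o)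
  let h : T → Option ι → N := fun t o => o.elim (hF t) fun j => em (h0 (π t) (some j))
  let f' : Option ι → N := fun o => o.elim F fun j => em (f (some j))
  have hhA : ∀ t o, h t o ∈ M.A t := by
    rintro t (_ | j)
    · exact hhFA t
    · exact hh0A t _
  have hom1 : ∀ t (κ : Type u) [Field κ] [Algebra k κ] (φ : M.A t →ₐ[k] κ)
      (v0 : LT (φ.comp (ci (hLn.ov.le t))) (B.x (π t))) (v : LT φ (M.x t))
      (hv1 : ∀ a (ha : a ∈ B.A (π t)),
        v.D.D ⟨algebraMap L N a, hLn.ov.le t a ha⟩ = v0.D.D ⟨a, ha⟩)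
      (hv2 : ∀ i0, ∑ i, (Θ i i0 : κ) * v.e i = v0.e i0) (j : ι),
      om v (n (some j)) (hhA t (some j)) =
        om v0 (n0 (some j)) (hD.nf.hA (π t) (some j)) := by
    intro t κ _ _ φ v0 v hv1 hv2 j
    unfold om
    change v.D.D ⟨em (h0 (π t) (some j)), _⟩ + φ ⟨em (h0 (π t) (some j)), _⟩ *
      ∑ i, (tr Θ (n0 (some j)) i : κ) * v.e i = _
    rw [sum_pull hv2, hv1 _ (hD.nf.hA (π t) (some j))]
    rfl
  have hom2 : ∀ t (κ : Type u) [Field κ] [Algebra k κ] (φ : M.A t →ₐ[k] κ)
      (v0 : LT (φ.comp (ci (hLn.ov.le t))) (B.x (π t))) (v : LT φ (M.x t)) (ε s : κ)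
      (hv1 : ∀ a (ha : a ∈ B.A (π t)),
        v.D.D ⟨algebraMap L N a, hLn.ov.le t a ha⟩ = v0.D.D ⟨a, ha⟩)
      (hv2 : ∀ i0, ∑ i, (Θ i i0 : κ) * v.e i = v0.e i0)
      (hv3 : v.D.D ⟨wz t, hwzA t⟩ + φ ⟨wz t, hwzA t⟩ * ∑ i, (γ i : κ) * v.e i =
        φ ⟨wz t, hwzA t⟩ * ε)
      (hs : v0.D.D ⟨wf (π t), hwfA (π t)⟩ +
        (φ.comp (ci (hLn.ov.le t))) ⟨wf (π t), hwfA (π t)⟩ * ∑ i0, (Γ0 b i0 : κ) * v0.e i0 =
        (φ.comp (ci (hLn.ov.le t))) ⟨wf (π t), hwfA (π t)⟩ * s),
      om v (n none) (hhA t none) =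
        φ ⟨d0 t, hd0A t⟩ * om v0 (n0 none) (hD.nf.hA (π t) none) +
        φ ⟨d1 t, hd1A t⟩ * (s + ε) := by
    intro t κ _ _ φ v0 v ε s hv1 hv2 hv3 hs
    have := M.sm t
    have h1 : LG v.D (d0 t) (∑ i0, (n0 none i0 : κ) * v0.e i0 - ∑ i, (nF i : κ) * v.e i) := by
      have h1 := lg_mn (M.xA t) (M.x0 t) v (fun i => N0 i - nF i) fun i => Or.inl (hnF0 i)
      have h2 : ∑ i, ((N0 i - nF i : ℤ) : κ) * v.e i =
          ∑ i0, (n0 none i0 : κ) * v0.e i0 - ∑ i, (nF i : κ) * v.e i := by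
        rw [← sum_pull hv2, ← Finset.sum_sub_distrib]
        exact Finset.sum_congr rfl fun i _ => by simp only [N0]; push_cast; ring
      rw [h2] at h1
      exact h1
    have h2 : LG v.D (d1 t) (s + ε - ∑ i, (nF i : κ) * v.e i) := by
      have h3 : LG v.D (wz t) (ε - ∑ i, (γ i : κ) * v.e i) :=
        ⟨hwzA t, by linear_combination hv3⟩
      have h4 : LG v.D (em (wf (π t))) (s - ∑ i0, (Γ0 b i0 : κ) * v0.e i0) := by
        refine ⟨hLn.ov.le t _ (hwfA (π t)), ?_⟩
        have h5 : v.D.D ⟨em (wf (π t)), hLn.ov.le t _ (hwfA (π t))⟩ =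
            v0.D.D ⟨wf (π t), hwfA (π t)⟩ := hv1 _ (hwfA (π t))
        have h6 : φ ⟨em (wf (π t)), hLn.ov.le t _ (hwfA (π t))⟩ =
            (φ.comp (ci (hLn.ov.le t))) ⟨wf (π t), hwfA (π t)⟩ := rfl
        rw [h5, h6]
        linear_combination hs
      have h5 := (h4.mul h3).mul (lg_mn (M.xA t) (M.x0 t) v (fun i => M1 i - nF i)
        fun i => Or.inl (hnF1 i))
      have h6 : s - ∑ i0, (Γ0 b i0 : κ) * v0.e i0 + (ε - ∑ i, (γ i : κ) * v.e i) +
          ∑ i, ((M1 i - nF i : ℤ) : κ) * v.e i = s + ε - ∑ i, (nF i : κ) * v.e i := by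
        rw [← sum_pull hv2]
        have h7 : ∑ i, ((M1 i - nF i : ℤ) : κ) * v.e i =
            ∑ i, (tr Θ (Γ0 b) i : κ) * v.e i + ∑ i, (γ i : κ) * v.e i -
              ∑ i, (nF i : κ) * v.e i := by
          rw [← Finset.sum_add_distrib, ← Finset.sum_sub_distrib]
          exact Finset.sum_congr rfl fun i _ => by simp only [M1, M0]; push_cast; ring
        rw [h7]
        ring
      rw [h6] at h5
      exact h5
    unfold om
    change v.D.D ⟨hF t, _⟩ + φ ⟨hF t, _⟩ * ∑ i, (nF i : κ) * v.e i = _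
    have h3 : (⟨hF t, hhFA t⟩ : M.A t) =
        ⟨d0 t, hd0A t⟩ * ⟨em (h0 (π t) none), hh0A t _⟩ + ⟨d1 t, hd1A t⟩ := rfl
    have h4 : v.D.D ⟨em (h0 (π t) none), hh0A t _⟩ =
        v0.D.D ⟨h0 (π t) none, hD.nf.hA (π t) none⟩ := hv1 _ (hD.nf.hA (π t) none)
    have h5 : φ ⟨em (h0 (π t) none), hh0A t _⟩ =
        (φ.comp (ci (hLn.ov.le t))) ⟨h0 (π t) none, hD.nf.hA (π t) none⟩ := rfl
    rw [h3, map_add, map_add, v.D.leib, map_mul, h1.eq (hd0A t), h2.eq (hd1A t), h4, h5]
    ring
  have hexs : ∀ t (κ : Type u) [Field κ] [Algebra k κ] (φ : M.A t →ₐ[k] κ)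
      (v0 : LT (φ.comp (ci (hLn.ov.le t))) (B.x (π t))),
      ∃ s, v0.D.D ⟨wf (π t), hwfA (π t)⟩ +
        (φ.comp (ci (hLn.ov.le t))) ⟨wf (π t), hwfA (π t)⟩ * ∑ i0, (Γ0 b i0 : κ) * v0.e i0 =
        (φ.comp (ci (hLn.ov.le t))) ⟨wf (π t), hwfA (π t)⟩ * s := by
    intro t κ _ _ φ v0
    have h1 : (φ.comp (ci (hLn.ov.le t))) ⟨wf (π t), hwfA (π t)⟩ ≠ 0 :=
      ne_of_unit _ (hwfA (π t)) (hwf0 _) (hwfA' _)
    refine ⟨(v0.D.D ⟨wf (π t), hwfA (π t)⟩ +
        (φ.comp (ci (hLn.ov.le t))) ⟨wf (π t), hwfA (π t)⟩ * ∑ i0, (Γ0 b i0 : κ) * v0.e i0) /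
        (φ.comp (ci (hLn.ov.le t))) ⟨wf (π t), hwfA (π t)⟩, ?_⟩
    rw [mul_div_cancel₀ _ h1]
  have hNF : NFJ p M f' n a h := by
    refine ⟨hhA, ?_, ?_⟩
    · rintro t (_ | j)
      · exact hFeq t
      · have h1 := congrArg em (hD.nf.eq (π t) (some j))
        rw [map_add, map_mul, map_pow] at h1
        change em (f (some j)) = em (a0 (π t) (some j)) ^ p +
          mn (M.x t) (tr Θ (n0 (some j))) * em (h0 (π t) (some j))
        rw [h1, ← mn_pull hLn.ov]
    · rintro t κ _ _ φ (_ | j)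
      · rcases hCM t with hc | hc
        · have hdu : φ ⟨d0 t, hd0A t⟩ ≠ 0 := by
            refine ne_of_unit φ (hd0A t) (mn_ne (M.x0 t) _) (mn_inv_mem (M.xA t) fun i => ?_)
            rcases hc i with h1 | h1
            · left
              have h2 : nF i = N0 i := min_eq_left h1
              omega
            · exact Or.inr h1
          obtain ⟨v0, hv0, hv0'⟩ := hD.nf.ln (π t) κ (φ.comp (ci (hLn.ov.le t))) none
          obtain ⟨s, hs⟩ := hexs t κ φ v0
          obtain ⟨v, hv1, hv2, hv3⟩ := hLn.lf t κ φ v0 (-s)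
          refine ⟨v, ?_, ?_⟩
          · rw [hom2 t κ φ v0 v (-s) s hv1 hv2
              (hv3 (wz t) (hwzA t) (hwz0 t) (hwzA' t) (hwz t)) hs, add_neg_cancel, mul_zero,
              add_zero]
            exact mul_ne_zero hdu hv0
          · rintro (_ | l) hl
            · exact absurd rfl hl
            · rw [hom1 t κ φ v0 v hv1 hv2 l]
              exact hv0' _ hl
        · have hdu : φ ⟨d1 t, hd1A t⟩ ≠ 0 := by
            refine ne_of_unit φ (hd1A t) (mul_ne_zero (mul_ne_zero
              ((map_ne_zero em).2 (hwf0 _)) (hwz0 t)) (mn_ne (M.x0 t) _)) ?_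
            simp only [d1]
            rw [mul_inv, mul_inv, ← map_inv₀]
            refine (M.A t).mul_mem ((M.A t).mul_mem (hLn.ov.le t _ (hwfA' _)) (hwzA' t))
              (mn_inv_mem (M.xA t) fun i => ?_)
            rcases hc i with h1 | h1
            · left
              have h2 : nF i = M1 i := min_eq_right h1
              omega
            · exact Or.inr h1
          let v0 : LT (φ.comp (ci (hLn.ov.le t))) (B.x (π t)) :=
            ⟨TV.zero _, fun _ => 0, fun i hi => (mul_zero _).symm⟩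
          have hs : v0.D.D ⟨wf (π t), hwfA (π t)⟩ +
              (φ.comp (ci (hLn.ov.le t))) ⟨wf (π t), hwfA (π t)⟩ *
                ∑ i0, (Γ0 b i0 : κ) * v0.e i0 =
              (φ.comp (ci (hLn.ov.le t))) ⟨wf (π t), hwfA (π t)⟩ * 0 := by
            change (0 : κ) + _ * ∑ i0, (Γ0 b i0 : κ) * 0 = _ * 0
            simp
          have hom0 : ∀ l, om v0 (n0 l) (hD.nf.hA (π t) l) = 0 := by
            intro l
            unfold om
            change (0 : κ) + _ * ∑ i, (n0 l i : κ) * 0 = 0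
            simp
          obtain ⟨v, hv1, hv2, hv3⟩ := hLn.lf t κ φ v0 1
          refine ⟨v, ?_, ?_⟩
          · rw [hom2 t κ φ v0 v 1 0 hv1 hv2
              (hv3 (wz t) (hwzA t) (hwz0 t) (hwzA' t) (hwz t)) hs, hom0, mul_zero, zero_add,
              zero_add, mul_one]
            exact hdu
          · rintro (_ | l) hl
            · exact absurd rfl hl
            · rw [hom1 t κ φ v0 v hv1 hv2 l]
              exact hom0 _
      · obtain ⟨v0, hv0, hv0'⟩ := hD.nf.ln (π t) κ (φ.comp (ci (hLn.ov.le t))) (some j)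
        obtain ⟨s, hs⟩ := hexs t κ φ v0
        obtain ⟨v, hv1, hv2, hv3⟩ := hLn.lf t κ φ v0 (-s)
        refine ⟨v, ?_, ?_⟩
        · rw [hom1 t κ φ v0 v hv1 hv2 j]
          exact hv0
        · rintro (_ | l) hl
          · rw [hom2 t κ φ v0 v (-s) s hv1 hv2
              (hv3 (wz t) (hwzA t) (hwz0 t) (hwzA' t) (hwz t)) hs, add_neg_cancel, mul_zero,
              add_zero, hv0' none (by simp), mul_zero]
          · rw [hom1 t κ φ v0 v hv1 hv2 l]
            exact hv0' _ hl
  -- the root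
  have hF0 : F ≠ 0 := by
    intro h0
    refine nf_ne_pow M hFr hNF none 0 ?_
    rw [zero_pow hp.ne_zero]
    exact h0.symm
  let κ0 : I → ℤ := tr Θ (fun i0 => Γ0 b i0 / p)
  have hR : ∀ t, (em (a0 (π t) none) = 0 ∧ LE' (M.A t) (M.x t) N0 M0) ∨
      ∃ U, U ∈ M.A t ∧ U ≠ 0 ∧ U⁻¹ ∈ M.A t ∧ em (a0 (π t) none) = U * mn (M.x t) κ0 ∧
        ∀ i, M0 i = p * κ0 i ∨ (M.x t i)⁻¹ ∈ M.A t := by
    intro t
    rcases hD.tp () (Set.mem_univ _) (π t) with ⟨h1, h2⟩ | ⟨s, hs, hs0, hs', h1⟩
    · refine Or.inl ⟨?_, le_pull hLn.ov t h2⟩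
      have h3 : a0 (π t) none = 0 := h1
      rw [h3, map_zero]
    · right
      have := B.sm (π t)
      obtain ⟨u0, hu0A, hu00, hu0A', hau, hdiv⟩ := pd (B.snc (π t)) (B.xA (π t)) (B.x0 (π t))
        (hD.fr (π t)) hp.pos (m := Γ0 b) (a := a0 (π t) none) (w := wf (π t) * s)
        (mul_ne_zero (hwf0 _) hs0) ((B.A _).mul_mem (hwfA _) hs) (by
          rw [mul_inv]
          exact (B.A _).mul_mem (hwfA' _) hs') (by
          rw [h1, ← hb]
          conv_lhs => rw [hwf (π t)]
          unfold mn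
          ring)
      have hemu : em u0 ∈ M.A t := hLn.ov.le t _ hu0A
      refine ⟨em u0, hemu, (map_ne_zero em).2 hu00, ?_, ?_, ?_⟩
      · rw [← map_inv₀]
        exact hLn.ov.le t _ hu0A'
      · rw [hau, map_mul]
        have h4 : em (mn (B.x (π t)) fun i0 => Γ0 b i0 / p) = mn (M.x t) κ0 := mn_pull hLn.ov t _
        rw [h4]
      · intro i
        have h3 : LE' (B.A (π t)) (B.x (π t)) (Γ0 b) (fun i0 => p * (Γ0 b i0 / p)) := by
          intro i0
          rcases hdiv i0 with h4 | h4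
          · exact Or.inl (le_of_eq h4)
          · exact Or.inr h4
        have h3' : LE' (B.A (π t)) (B.x (π t)) (fun i0 => p * (Γ0 b i0 / p)) (Γ0 b) := by
          intro i0
          rcases hdiv i0 with h4 | h4
          · exact Or.inl (le_of_eq h4.symm)
          · exact Or.inr h4
        have h5 : tr Θ (fun i0 => p * (Γ0 b i0 / p)) i = p * κ0 i := by
          simp only [κ0]
          unfold tr
          rw [Finset.mul_sum]
          exact Finset.sum_congr rfl fun i0 _ => by ring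
        rcases le_pull hLn.ov t h3 i with h6 | h6
        · rcases le_pull hLn.ov t h3' i with h7 | h7
          · exact Or.inl ((le_antisymm h6 h7).trans h5)
          · exact Or.inr h7
        · exact Or.inr h6
  let μ : I → ℤ := fun i => cl p (M0 i)
  let y : T → N := fun t => mn (M.x t) (fun i => -μ i) * em (a0 (π t) none)
  have hyU : ∀ t U, em (a0 (π t) none) = U * mn (M.x t) κ0 →
      y t = U * mn (M.x t) (fun i => κ0 i - μ i) := by
    intro t U hU
    simp only [y]
    rw [hU, mn_sub (M.x0 t), mn_neg]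
    ring
  have hμ : ∀ t, (∀ i, M0 i = p * κ0 i ∨ (M.x t i)⁻¹ ∈ M.A t) →
      ∀ i, κ0 i = μ i ∨ (M.x t i)⁻¹ ∈ M.A t := by
    intro t hj i
    rcases hj i with h1 | h1
    · left
      have h2 : μ i ≤ κ0 i := cl_le hp.pos h1.le
      have h3 : M0 i ≤ p * μ i := le_cl hp.pos _
      rw [h1] at h3
      have h4 : κ0 i ≤ μ i := le_of_mul_le_mul_left h3 (by exact_mod_cast hp.pos)
      omega
    · exact Or.inr h1
  have hyA : ∀ t, y t ∈ M.A t := by
    intro t
    rcases hR t with ⟨h1, -⟩ | ⟨U, hU, hU0, hU', h1, h2⟩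
    · simp only [y]
      rw [h1, mul_zero]
      exact (M.A t).zero_mem
    · rw [hyU t U h1]
      refine (M.A t).mul_mem hU (mn_mem (M.xA t) fun i => ?_)
      rcases hμ t h2 i with h3 | h3
      · left; omega
      · exact Or.inr h3
  refine core2 p M f' hF0 n a h hNF hFr _ (Sum.elim (fun c => tr Θ (Γ0 c)) fun _ => γ) ?_ μ y
    hyA ?_ ?_
  · rintro (c | _) t
    · obtain ⟨w, hw0, hw, hw', hwf⟩ := hD.fn c (π t)
      refine ⟨em w, (map_ne_zero em).2 hw0, hLn.ov.le t _ hw, ?_, ?_⟩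
      · rw [← map_inv₀]
        exact hLn.ov.le t _ hw'
      · change em (g c) = em w * mn (M.x t) (tr Θ (Γ0 c))
        rw [← mn_pull hLn.ov, hwf]
        exact map_mul _ _ _
    · exact ⟨wz t, hwz0 t, hwzA t, hwzA' t, hwz t⟩
  · intro t
    simp only [y]
    rw [← mul_assoc, ← mn_add (M.x0 t)]
    have h1 : mn (M.x t) (fun i => μ i + -μ i) = 1 := by
      unfold mn
      simp
    rw [h1, one_mul]
  · intro t
    rcases hR t with ⟨h1, h2⟩ | ⟨U, hU, hU0, hU', h1, h2⟩
    · left
      intro i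
      rcases h2 i with h3 | h3
      · left
        have h5 : M0 i ≤ p * μ i := le_cl hp.pos _
        exact (min_le_left _ _).trans (h3.trans h5)
      · exact Or.inr h3
    · right
      have hy0 : y t ≠ 0 := by
        rw [hyU t U h1]
        exact mul_ne_zero hU0 (mn_ne (M.x0 t) _)
      have hyI : (y t)⁻¹ ∈ M.A t := by
        rw [hyU t U h1, mul_inv]
        refine (M.A t).mul_mem hU' (mn_inv_mem (M.xA t) fun i => ?_)
        rcases hμ t h2 i with h3 | h3
        · left; omega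
        · exact Or.inr h3
      refine ⟨hy0, ?_⟩
      intro κ _ _ φ hφ
      exact absurd hφ (ne_of_unit φ (hyA t) hy0 hyI)

end tame

end Pool.Agent.KS6_21.P2
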