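import Pool.Agent.KS6_21.P2.Dia

/-!
Diagonal equations in an extension of the base field.
-/

set_option autoImplicit false
set_option linter.unusedVariables false
set_option linter.unusedSectionVars false

universe u

open Polynomial Pool.Agent.W177.WD Pool.Agent.KS6_21.P1 Pool.Agent.TH188.WQ Pool.Agent.TH214
  Pool.Agent.N98 Pool.Agent.N762.RC Pool.Agent.N762.RC2 Pool.Agent.N762.FP Pool.Agent.TH214.V

open Pool.Agent.W558 hiding Ovr ci

namespace Pool.Agent.KS6_21.P2

section emb

variable {k C K : Type u} [Field k] [Field C] [Field K] [Algebra k C] [Algebra k K]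
  [Algebra C K] [IsScalarTower k C K]

lemma range_adjoin (z : K) :
    ((IntermediateField.adjoin C {z}).restrictScalars k) =
      (IsScalarTower.toAlgHom k C K).fieldRange ⊔ IntermediateField.adjoin k {z} := by
  apply le_antisymm
  · intro x hx
    have hx' : x ∈ IntermediateField.adjoin C {z} := hx
    clear hx
    induction hx' using IntermediateField.adjoin_induction with
    | mem y hy =>
      rw [Set.mem_singleton_iff] at hy
      subst hy
      exact (le_sup_right : IntermediateField.adjoin k {y} ≤ _)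
        (IntermediateField.mem_adjoin_simple_self k y)
    | algebraMap c =>
      exact (le_sup_left : (IsScalarTower.toAlgHom k C K).fieldRange ≤ _) ⟨c, rfl⟩
    | add x y hx hy hx' hy' => exact add_mem hx' hy'
    | inv x hx hx' => exact inv_mem hx'
    | mul x y hx hy hx' hy' => exact mul_mem hx' hy'
  · refine sup_le ?_ ?_
    · rintro x ⟨c, rfl⟩
      exact IntermediateField.algebraMap_mem (IntermediateField.adjoin C {z}) c
    · rw [IntermediateField.adjoin_le_iff, Set.singleton_subset_iff]
      exact IntermediateField.mem_adjoin_simple_self C z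

lemma transc_of (A : IntermediateField k K) (h : (IsScalarTower.toAlgHom k C K).fieldRange = A)
    {z : K} (hz : Transcendental A z) : Transcendental C z := by
  subst h
  intro ha
  apply hz
  let _ : Algebra C (IsScalarTower.toAlgHom k C K).fieldRange :=
    ((IsScalarTower.toAlgHom k C K).rangeRestrict.toRingHom).toAlgebra
  have : IsScalarTower C (IsScalarTower.toAlgHom k C K).fieldRange K :=
    IsScalarTower.of_algebraMap_eq fun x => rfl
  exact ha.extendScalars (algebraMap C (IsScalarTower.toAlgHom k C K).fieldRange).injective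

end emb

section mdk

variable (p : ℕ) [Fact p.Prime] {k K : Type u} [Field k] [PerfectField k] [CharP k p] [Field K]
  [Algebra k K]

/-- The property of `Md` for a subfield of `K`. -/
def MdK (A : IntermediateField k K) (P : Set K) (F : K) : Prop :=
  P ⊆ A ∧ ∃ (L : Type u) (_ : Field L) (_ : Algebra k L) (j : L →ₐ[k] K) (F' : L),
    j.fieldRange = A ∧ j F' = F ∧ Md p k (j ⁻¹' P) (fun _ : Unit => F')

/-- The fields of coefficients. -/
def IsCoef (E : IntermediateField k K) : Prop :=
  (Algebra.trdeg k E = 2 ∧ HasModel k E) ∨ E = ⊥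

lemma md_const {C : Type u} [Field C] [Algebra k C] {P : Set C} {ι : Type} {f : ι → C}
    (h : Md p k P f) : Md p k (P ∪ Set.range (algebraMap k C)) f := by
  refine md_sat h ?_
  rintro z (hz | ⟨c, rfl⟩) hz0
  · exact ⟨1, one_ne_zero, 1, 1, fun _ => z, fun _ => 1, fun _ => hz, by simp⟩
  · exact ⟨1, one_ne_zero, c, 0, fun i => i.elim0, fun i => i.elim0, fun i => i.elim0, by simp⟩

/-- The compositum with a field of coefficients. -/
lemma mdk_comp {A E : IntermediateField k K} {P : Set K} {F : K} (h : MdK p A P F)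
    (hE : IsCoef E) (hinj : Function.Injective (Algebra.TensorProduct.productMap A.val E.val))
    {f : K} (hf : f ∈ E) :
    ∃ (C : Type u) (_ : Field C) (_ : Algebra k C) (j : C →ₐ[k] K) (F' f' : C),
      j.fieldRange = A ⊔ E ∧ j F' = F ∧ j f' = f ∧
      Md p k (j ⁻¹' (P ∪ E)) (fun _ : Unit => F') ∧
      ((∃ β ∈ j ⁻¹' (P ∪ E), f' = β ^ p) ∨
        Md p k (j ⁻¹' (P ∪ E)) (fun b : Bool => if b = true then f' else F')) := by
  classical
  have hp : p.Prime := Fact.out
  obtain ⟨hPA, L, hL1, hL2, j, F', hj, hjF, hM⟩ := h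
  rcases hE with ⟨hE1, hE2⟩ | rfl
  · have h1 : ∀ x, j x ∈ (A ⊔ E).toSubalgebra := fun x => (le_sup_left : A ≤ A ⊔ E) (by
      rw [← hj]
      exact ⟨x, rfl⟩)
    have h2 : ∀ x : E, E.val x ∈ (A ⊔ E).toSubalgebra := fun x =>
      (le_sup_right : E ≤ A ⊔ E) x.2
    let i1 : L →ₐ[k] (A ⊔ E : IntermediateField k K) := j.codRestrict (A ⊔ E).toSubalgebra h1
    let i2 : E →ₐ[k] (A ⊔ E : IntermediateField k K) := E.val.codRestrict (A ⊔ E).toSubalgebra h2
    have hi1 : ∀ x, ((i1 x : (A ⊔ E : IntermediateField k K)) : K) = j x := fun x => rfl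
    have hi2 : ∀ x, ((i2 x : (A ⊔ E : IntermediateField k K)) : K) = x := fun x => rfl
    have hjA0 : ∀ x, j x ∈ A := fun x => by
        rw [← hj]
        exact ⟨x, rfl⟩
    have hinj' : Function.Injective (Algebra.TensorProduct.productMap i1 i2) := by
      have h3 : ∀ x, j x ∈ A.toSubalgebra := hjA0
      let jA : L →ₐ[k] A := j.codRestrict A.toSubalgebra h3
      have hjA : Function.Injective jA := jA.toRingHom.injective
      have h4 : ((A ⊔ E).val).comp (Algebra.TensorProduct.productMap i1 i2) =
          (Algebra.TensorProduct.productMap A.val E.val).comp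
            (Algebra.TensorProduct.map jA (AlgHom.id k E)) := by
        apply Algebra.TensorProduct.ext
        · ext x
          simp only [AlgHom.comp_apply, Algebra.TensorProduct.includeLeft_apply,
            Algebra.TensorProduct.productMap_apply_tmul, map_one, mul_one,
            Algebra.TensorProduct.map_tmul]
          rfl
        · ext x
          simp only [AlgHom.comp_apply, Algebra.TensorProduct.includeRight_apply,
            Algebra.TensorProduct.productMap_apply_tmul, map_one, one_mul,
            Algebra.TensorProduct.map_tmul, AlgHom.restrictScalars_apply]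
          rfl
      have h5 : Function.Injective ((Algebra.TensorProduct.productMap A.val E.val).comp
          (Algebra.TensorProduct.map jA (AlgHom.id k E))) := by
        rw [AlgHom.coe_comp]
        refine hinj.comp ?_
        exact TensorProduct.map_injective_of_flat_flat jA.toLinearMap (AlgHom.id k E).toLinearMap
          hjA Function.injective_id
      rw [← h4, AlgHom.coe_comp] at h5
      exact h5.of_comp
    have htop : IntermediateField.adjoin k (Set.range i1 ∪ Set.range i2) = ⊤ := by
      apply IntermediateField.lift_injective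
      rw [IntermediateField.lift_adjoin, IntermediateField.lift_top, Set.image_union]
      have h6 : (Subtype.val '' Set.range i1 : Set K) = A := by
        ext x
        constructor
        · rintro ⟨_, ⟨y, rfl⟩, rfl⟩
          exact hjA0 y
        · intro hx
          have hx' : x ∈ A := hx
          rw [← hj] at hx'
          obtain ⟨y, hy⟩ := hx'
          exact ⟨i1 y, ⟨y, rfl⟩, hy⟩
      have h7 : (Subtype.val '' Set.range i2 : Set K) = E := by
        ext x
        constructor
        · rintro ⟨_, ⟨y, rfl⟩, rfl⟩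
          exact y.2
        · intro hx
          exact ⟨i2 ⟨x, hx⟩, ⟨_, rfl⟩, rfl⟩
      rw [h6, h7]
      rfl
    obtain ⟨h8, h9⟩ := md_prodE p i1 i2 hinj' htop hM hE1 hE2 ⟨f, hf⟩
    have hsub : ((A ⊔ E).val ⁻¹' (P ∪ E)) ⊆ i1 '' (j ⁻¹' P) ∪ Set.range i2 := by
      rintro x (hx | hx)
      · have hx' : (x : K) ∈ j.fieldRange := by
          rw [hj]
          exact hPA hx
        obtain ⟨y, hy⟩ := hx'
        refine Or.inl ⟨y, ?_, Subtype.ext hy⟩
        change j y ∈ P
        have hy' : j y = x := hy
        rw [hy']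
        exact hx
      · exact Or.inr ⟨⟨x, hx⟩, rfl⟩
    have hsub' : i1 '' (j ⁻¹' P) ∪ Set.range i2 ⊆ ((A ⊔ E).val ⁻¹' (P ∪ E)) := by
      rintro _ (⟨y, hy, rfl⟩ | ⟨y, rfl⟩)
      · exact Or.inl hy
      · exact Or.inr y.2
    refine ⟨(A ⊔ E : IntermediateField k K), inferInstance, inferInstance, (A ⊔ E).val, i1 F',
      i2 ⟨f, hf⟩, IntermediateField.fieldRange_val _, hjF, rfl, h8.mono hsub, ?_⟩
    rcases h9 with ⟨β, hβ, h10⟩ | h10
    · exact Or.inl ⟨β, hsub' hβ, h10⟩
    · exact Or.inr (h10.mono hsub)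
  · obtain ⟨c, rfl⟩ := IntermediateField.mem_bot.1 hf
    have := PerfectField.toPerfectRing (K := k) p
    obtain ⟨b, hb⟩ := surjective_frobenius k p c
    have hb' : b ^ p = c := hb
    refine ⟨L, hL1, hL2, j, F', algebraMap k L c, ?_, hjF, AlgHom.commutes _ _, ?_, ?_⟩
    · rw [hj, sup_bot_eq]
    · refine (md_const p hM).mono ?_
      rintro x (hx | hx)
      · exact Or.inl hx
      · obtain ⟨c', hc'⟩ := IntermediateField.mem_bot.1 hx
        refine Or.inr ⟨c', ?_⟩
        apply j.toRingHom.injective
        change j (algebraMap k L c') = j x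
        rw [AlgHom.commutes]
        exact hc'
    · refine Or.inl ⟨algebraMap k L b, Or.inr ?_, by rw [← map_pow, hb']⟩
      change j (algebraMap k L b) ∈ (⊥ : IntermediateField k K)
      rw [AlgHom.commutes]
      exact IntermediateField.algebraMap_mem _ _

/-- Adding a term. -/
theorem mdk_step {A E : IntermediateField k K} {P : Set K} {F : K} (h : MdK p A P F)
    (hFP : F ∈ P) (hE : IsCoef E)
    (hinj : Function.Injective (Algebra.TensorProduct.productMap A.val E.val)) {f : K}
    (hf : f ∈ E) (hf0 : f ≠ 0) (z : K) (hz : Transcendental (A ⊔ E : IntermediateField k K) z)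
    (d : ℕ) (hd0 : d ≠ 0) (hd : ¬ p ^ 2 ∣ d) :
    MdK p ((A ⊔ E) ⊔ IntermediateField.adjoin k {z}) (insert z (insert (F + f * z ^ d) (P ∪ E)))
      (F + f * z ^ d) := by
  have hFA : F ∈ A := h.1 hFP
  have hPA : P ⊆ A := h.1
  refine ⟨?_, ?_⟩
  · have hle1 : A ≤ (A ⊔ E) ⊔ IntermediateField.adjoin k {z} := le_sup_left.trans le_sup_left
    have hle2 : E ≤ (A ⊔ E) ⊔ IntermediateField.adjoin k {z} := le_sup_right.trans le_sup_left
    have hzm : z ∈ (A ⊔ E) ⊔ IntermediateField.adjoin k {z} :=
      (le_sup_right : IntermediateField.adjoin k {z} ≤ _)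
        (IntermediateField.mem_adjoin_simple_self k z)
    rintro x (rfl | rfl | hx | hx)
    · exact hzm
    · exact add_mem (hle1 hFA) (mul_mem (hle2 hf) (pow_mem hzm _))
    · exact hle1 (hPA hx)
    · exact hle2 hx
  obtain ⟨C, hC1, hC2, j, F', f', hj, hjF, hjf, hM, hM2⟩ := mdk_comp p h hE hinj hf
  let _ : Algebra C K := j.toRingHom.toAlgebra
  have : IsScalarTower k C K := IsScalarTower.of_algebraMap_eq fun x => (j.commutes x).symm
  have hzC : Transcendental C z := transc_of (A ⊔ E) hj hz
  let N := IntermediateField.adjoin C {z}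
  let z' : N := ⟨z, IntermediateField.mem_adjoin_simple_self C z⟩
  have hz' : Transcendental C z' := (transcendental_algebraMap_iff (algebraMap N K).injective).1 hzC
  have hf'0 : f' ≠ 0 := by
    rintro rfl
    exact hf0 (by rw [← hjf, map_zero])
  have h1 := md_step p F' f' (P := j ⁻¹' (P ∪ E)) (Or.inl (by
    change j F' ∈ P
    rw [hjF]; exact hFP)) (Or.inr (by
    change j f' ∈ E
    rw [hjf]; exact hf)) hf'0 hM hM2 z' hz' (adj_top z) d hd0 hd
  let j' : N →ₐ[k] K := N.val.restrictScalars k
  have hval : j' (algebraMap C N F' + algebraMap C N f' * z' ^ d) = F + f * z ^ d := by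
    rw [← hjF, ← hjf]
    rfl
  refine ⟨N, inferInstance, inferInstance, j', algebraMap C N F' + algebraMap C N f' * z' ^ d,
    ?_, hval, h1.mono ?_⟩
  · have h2 : (IsScalarTower.toAlgHom k C K).fieldRange = A ⊔ E := hj
    rw [← h2, ← range_adjoin z]
    ext x
    constructor
    · rintro ⟨y, rfl⟩
      exact y.2
    · intro hx
      exact ⟨⟨x, hx⟩, rfl⟩
  · have hmem : ∀ x : N, (x : K) ∈ P ∪ E → x ∈ algebraMap C N '' (j ⁻¹' (P ∪ E)) := by
      intro x hx
      have hx' : (x : K) ∈ j.fieldRange := by
        rw [hj]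
        rcases hx with hx | hx
        · exact (le_sup_left : A ≤ A ⊔ E) (hPA hx)
        · exact (le_sup_right : E ≤ A ⊔ E) hx
      obtain ⟨y, hy⟩ := hx'
      have hy' : j y = x := hy
      refine ⟨y, ?_, Subtype.ext hy⟩
      change j y ∈ P ∪ E
      rw [hy']
      exact hx
    intro x hx
    rcases hx with hx | hx | hx
    · exact Or.inl (Subtype.ext hx)
    · refine Or.inr (Or.inl ?_)
      apply j'.toRingHom.injective
      exact Eq.trans hx hval.symm
    · exact Or.inr (Or.inr (hmem x hx))

/-- The last term. -/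
theorem mdk_last {A E : IntermediateField k K} {P : Set K} {F : K} (h : MdK p A P F)
    (hFP : F ∈ P) (hE : IsCoef E)
    (hinj : Function.Injective (Algebra.TensorProduct.productMap A.val E.val)) {f : K}
    (hf : f ∈ E) (hf0 : f ≠ 0) (z : K)
    (d : ℕ) (hd : ¬ p ^ 2 ∣ d) (hz : F + f * z ^ d = 0)
    (htop : (A ⊔ E) ⊔ IntermediateField.adjoin k {z} = ⊤) :
    Mod k (insert z (P ∪ E)) := by
  have hPA : P ⊆ A := h.1
  obtain ⟨C, hC1, hC2, j, F', f', hj, hjF, hjf, hM, hM2⟩ := mdk_comp p h hE hinj hf
  let _ : Algebra C K := j.toRingHom.toAlgebra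
  have : IsScalarTower k C K := IsScalarTower.of_algebraMap_eq fun x => (j.commutes x).symm
  have hf'0 : f' ≠ 0 := by
    rintro rfl
    exact hf0 (by rw [← hjf, map_zero])
  have hgen : IntermediateField.adjoin C {z} = ⊤ := by
    have h2 : (IsScalarTower.toAlgHom k C K).fieldRange = A ⊔ E := hj
    rw [← h2, ← range_adjoin z] at htop
    rw [eq_top_iff]
    intro x _
    have h3 : x ∈ (IntermediateField.adjoin C {z}).restrictScalars k := by
      rw [htop]
      trivial
    exact h3
  have h1 := md_last p F' f' (P := j ⁻¹' (P ∪ E)) (N := K) (Or.inl (by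
    change j F' ∈ P
    rw [hjF]; exact hFP)) (Or.inr (by
    change j f' ∈ E
    rw [hjf]; exact hf)) hf'0 hM hM2 z hgen d hd (by
    change j F' + j f' * z ^ d = 0
    rw [hjF, hjf]
    exact hz)
  refine (h1.mono ?_).mod
  rintro x (hx | hx)
  · exact Or.inl hx
  · have hx' : (x : K) ∈ j.fieldRange := by
      rw [hj]
      rcases hx with hx | hx
      · exact (le_sup_left : A ≤ A ⊔ E) (hPA hx)
      · exact (le_sup_right : E ≤ A ⊔ E) hx
    obtain ⟨y, hy⟩ := hx'
    have hy' : j y = x := hy
    refine Or.inr ⟨y, ?_, hy⟩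
    change j y ∈ P ∪ E
    rw [hy']
    exact hx

/-- The first term. -/
theorem mdk_base (E : IntermediateField k K) (hE1 : Algebra.trdeg k E = 2) (hE2 : HasModel k E)
    {f : K} (hf : f ∈ E) (hf0 : f ≠ 0) (z : K) (d : ℕ)
    (h : ((∀ b ∈ E, b ^ p ≠ f) ∧ z = 1) ∨ (Transcendental E z ∧
      ((∀ b ∈ E, b ^ p ≠ f) ∨ ¬ p ∣ d))) :
    MdK p (E ⊔ IntermediateField.adjoin k {z}) (insert z (insert (f * z ^ d) E)) (f * z ^ d) := by
  have hzm : z ∈ E ⊔ IntermediateField.adjoin k {z} :=
      (le_sup_right : IntermediateField.adjoin k {z} ≤ _)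
        (IntermediateField.mem_adjoin_simple_self k z)
  have hEm : E ≤ E ⊔ IntermediateField.adjoin k {z} := le_sup_left
  refine ⟨?_, ?_⟩
  · rintro x (rfl | rfl | hx)
    · exact hzm
    · exact mul_mem (hEm hf) (pow_mem hzm _)
    · exact hEm hx
  rcases h with ⟨h1, rfl⟩ | ⟨hz, h1⟩
  · have h2 := md_surf p hE1 hE2 (fun _ : Unit => (⟨f, hf⟩ : E)) (fun _ => by
      rintro ⟨b, hb⟩
      exact h1 b b.2 (congrArg Subtype.val hb))
    refine ⟨E, inferInstance, inferInstance, E.val, ⟨f, hf⟩, ?_, ?_, h2.mono (Set.subset_univ _)⟩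
    · rw [IntermediateField.fieldRange_val, IntermediateField.adjoin_one, sup_bot_eq]
    · rw [one_pow, mul_one]
      rfl
  · let N := IntermediateField.adjoin E {z}
    let z' : N := ⟨z, IntermediateField.mem_adjoin_simple_self E z⟩
    have hz' : Transcendental E z' := (transcendental_algebraMap_iff (algebraMap N K).injective).1 hz
    have h2 := md_base (p := p) (N := N) hE1 hE2 ⟨f, hf⟩ (fun h => hf0 (congrArg Subtype.val h)) z'
      hz' (adj_top z) d (h1.imp (fun h3 b hb => h3 b b.2 (congrArg Subtype.val hb)) id)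
    let j' : N →ₐ[k] K := N.val.restrictScalars k
    refine ⟨N, inferInstance, inferInstance, j', algebraMap E N ⟨f, hf⟩ * z' ^ d, ?_, rfl,
      h2.mono ?_⟩
    · have h3 : (IsScalarTower.toAlgHom k E K).fieldRange = E := by
        ext x
        constructor
        · rintro ⟨y, rfl⟩
          exact y.2
        · intro hx
          exact ⟨⟨x, hx⟩, rfl⟩
      conv_rhs => rw [← h3]
      rw [← range_adjoin z]
      ext x
      constructor
      · rintro ⟨y, rfl⟩
        exact y.2
      · intro hx
        exact ⟨⟨x, hx⟩, rfl⟩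
    · intro x hx
      rcases hx with hx | hx | hx
      · exact Or.inl (Subtype.ext hx)
      · exact Or.inr (Or.inl (Subtype.ext hx))
      · exact Or.inr (Or.inr ⟨⟨x, hx⟩, rfl⟩)

end mdk

end Pool.Agent.KS6_21.P2
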