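import Pool.Agent.KS6_21.P2.Types

/-!
Models with typed charts.
-/

set_option autoImplicit false
set_option linter.unusedVariables false
set_option linter.unusedSectionVars false

universe u

open Polynomial Pool.Agent.W558 Pool.Agent.W177.WD Pool.Agent.KS6_21.P1 Pool.Agent.TH214

namespace Pool.Agent.KS6_21.P2

/-- The exponents `m` are at most `n`, up to units. -/
def LE' {k K : Type u} [Field k] [Field K] [Algebra k K] (A : Subalgebra k K) {I : Type}
    (x : I → K) (m n : I → ℤ) : Prop := ∀ i, m i ≤ n i ∨ (x i)⁻¹ ∈ A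

/-- The type of a chart: the `p`-th power in the normal form is zero and the form `d f / f` has no
zeros, or the `p`-th power in the normal form is `f` times a unit. -/
def Tp {k K : Type u} [Field k] [Field K] [Algebra k K] (p : ℕ) (A : Subalgebra k K) {I : Type}
    (x : I → K) (f a : K) (n m : I → ℤ) : Prop :=
  (a = 0 ∧ LE' A x n m) ∨ ∃ s ∈ A, s ≠ 0 ∧ s⁻¹ ∈ A ∧ a ^ p = f * s

section tr

variable {k K : Type u} [Field k] [Field K] [Algebra k K] {A A' : Subalgebra k K} {I I' : Type}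
  [Fintype I] [Fintype I'] {x : I → K} {x' : I' → K} {Θ : I' → I → ℤ}

lemma LE'.tr (hx : ∀ i, x' i ∈ A') (hx0 : ∀ i, x' i ≠ 0) (hA : ∀ a ∈ A, a ∈ A')
    (hΘ : ∀ i' i, 0 ≤ Θ i' i) (hxx : ∀ i, x i = ∏ i', x' i' ^ Θ i' i) {m n : I → ℤ}
    (h : LE' A x m n) : LE' A' x' (Pool.Agent.TH214.tr Θ m) (Pool.Agent.TH214.tr Θ n) := by
  classical
  intro i'
  by_cases hc : ∃ i, 0 < Θ i' i ∧ (x i)⁻¹ ∈ A
  · right
    obtain ⟨i, hi, hxi⟩ := hc
    have h1 := hA _ hxi
    have h2 : (x' i')⁻¹ = (x i)⁻¹ * (x' i' ^ (Θ i' i - 1) *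
        ∏ l ∈ Finset.univ.erase i', x' l ^ Θ l i) := by
      rw [hxx i, ← Finset.mul_prod_erase Finset.univ _ (Finset.mem_univ i')]
      have h3 : ∏ l ∈ Finset.univ.erase i', x' l ^ Θ l i ≠ 0 :=
        Finset.prod_ne_zero_iff.2 fun l _ => zpow_ne_zero _ (hx0 l)
      have h4 := zpow_ne_zero (Θ i' i) (hx0 i')
      rw [zpow_sub_one₀ (hx0 i')]
      have h5 := hx0 i'
      field_simp
    rw [h2]
    exact A'.mul_mem h1 (A'.mul_mem (zpow_mem_of (hx i') (Or.inl (by omega)))
      (A'.prod_mem fun l _ => zpow_mem_of (hx l) (Or.inl (hΘ l i))))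
  · left
    push Not at hc
    refine Finset.sum_le_sum fun i _ => ?_
    rcases (hΘ i' i).lt_or_eq with h1 | h1
    · exact mul_le_mul_of_nonneg_left ((h i).resolve_right (hc i h1)) (hΘ i' i)
    · rw [← h1, zero_mul, zero_mul]

lemma Tp.tr {p : ℕ} (hx : ∀ i, x' i ∈ A') (hx0 : ∀ i, x' i ≠ 0) (hA : ∀ a ∈ A, a ∈ A')
    (hΘ : ∀ i' i, 0 ≤ Θ i' i) (hxx : ∀ i, x i = ∏ i', x' i' ^ Θ i' i) {f a : K} {m n : I → ℤ}
    (h : Tp p A x f a n m) :
    Tp p A' x' f a (Pool.Agent.TH214.tr Θ n) (Pool.Agent.TH214.tr Θ m) := by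
  rcases h with ⟨h1, h2⟩ | ⟨s, hs, hs0, hs', h1⟩
  · exact Or.inl ⟨h1, h2.tr hx hx0 hA hΘ hxx⟩
  · exact Or.inr ⟨s, hA _ hs, hs0, hA _ hs', h1⟩

end tr

section repl

variable {p : ℕ} [Fact p.Prime] {k K : Type u} [Field k] [CharP k p] [Field K] [Algebra k K]
  {T I : Type} [Fintype I] [DecidableEq I]

/-- The logarithmic form depends only on the function. -/
lemma om_repl {A : Subalgebra k K} [Algebra.Smooth k A] {x : I → K} (hS : SNC A x)
    (hx : ∀ i, x i ∈ A) (hx0 : ∀ i, x i ≠ 0)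
    (hfr : ∀ z : K, ∃ a ∈ A, ∃ b ∈ A, b ≠ 0 ∧ z = a * b⁻¹) {n : I → ℤ} {a a' h h' : K}
    (hh : h ∈ A) (hh' : h' ∈ A) (heq : a ^ p + mn x n * h = a' ^ p + mn x n * h')
    {κ : Type u} [Field κ] [Algebra k κ] {φ : A →ₐ[k] κ} (v : LT φ x) :
    om v n hh' = om v n hh := by
  have hcK : CharP K p := charP_of_injective_algebraMap (algebraMap k K).injective p
  have e1 : h' = h + mn x (fun i => -n i) * (a - a') ^ p := by
    rw [sub_pow_char, mn_neg]
    have h1 := mn_ne hx0 n
    have h2 : (mn x n)⁻¹ * mn x n = 1 := inv_mul_cancel₀ h1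
    linear_combination (h - h') * h2 - (mn x n)⁻¹ * heq
  have hz : mn x (fun i => -n i) * (a - a') ^ p ∈ A := by
    have h1 := A.sub_mem hh' hh
    rwa [e1, add_sub_cancel_left] at h1
  have h1 := (lg_root hS hx hx0 hfr hz v).eq hz
  have h2 : (⟨h', hh'⟩ : A) = ⟨h, hh⟩ + ⟨_, hz⟩ := Subtype.ext e1
  unfold om
  rw [h2, map_add, map_add, h1]
  simp only [Int.cast_neg, neg_mul, Finset.sum_neg_distrib]
  ring

theorem nfj_repl {ι : Type} (M : LM (⊥ : Subalgebra k K) ⊤ T I) (hFr : Frc M) {f : ι → K}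
    {n : ι → I → ℤ} {a h : T → ι → K} (hN : NFJ p M f n a h) (a' h' : T → ι → K)
    (hA : ∀ t j, h' t j ∈ M.A t) (heq : ∀ t j, f j = a' t j ^ p + mn (M.x t) (n j) * h' t j) :
    NFJ p M f n a' h' where
  hA := hA
  eq := heq
  ln := by
    intro t κ _ _ φ j
    have := M.sm t
    obtain ⟨v, hv1, hv2⟩ := hN.ln t κ φ j
    have h1 : ∀ l, om v (n l) (hA t l) = om v (n l) (hN.hA t l) := fun l =>
      om_repl (M.snc t) (M.xA t) (M.x0 t) (hFr t) (hN.hA t l) (hA t l)
        ((hN.eq t l).symm.trans (heq t l)) v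
    exact ⟨v, by rw [h1]; exact hv1, fun l hl => by rw [h1]; exact hv2 l hl⟩

/-- Refinement of the charts according to the type of one function. -/
theorem refine_type {ι : Type} [Finite T] [DecidableEq ι]
    (M : LM (⊥ : Subalgebra k K) ⊤ T I) (hFr : Frc M) {f : ι → K} {n : ι → I → ℤ}
    {a h : T → ι → K} (hN : NFJ p M f n a h) (j : ι) (m : I → ℤ)
    (hF : ∀ t, ∃ w, w ≠ 0 ∧ w ∈ M.A t ∧ w⁻¹ ∈ M.A t ∧ f j = w * mn (M.x t) m)
    (hle : ∀ t, LE' (M.A t) (M.x t) m (n j)) :
    ∃ (M' : LM (⊥ : Subalgebra k K) ⊤ (T × Bool) I) (a' h' : T × Bool → ι → K),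
      Ov M M' Prod.fst (fun i' i => if i' = i then 1 else 0) ∧
      NFJ p M' f n a' h' ∧ (∀ q l, l ≠ j → a' q l = a q.1 l) ∧
      ∀ q, Tp p (M'.A q) (M'.x q) (f j) (a' q j) (n j) m := by
  classical
  have hp : p.Prime := Fact.out
  have hf0 : ∀ t : T, f j ≠ 0 := by
    intro t
    obtain ⟨w, hw0, -, -, hw⟩ := hF t
    rw [hw]
    exact mul_ne_zero hw0 (mn_ne (M.x0 t) m)
  let s : T → K := fun t => a t j ^ p / f j
  have hs1 : ∀ t, 1 - s t = mn (M.x t) (n j) * h t j / f j := by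
    intro t
    have h1 : f j = a t j ^ p + mn (M.x t) (n j) * h t j := hN.eq t j
    have h2 := hf0 t
    simp only [s]
    rw [eq_div_iff h2, sub_mul, div_mul_cancel₀ _ h2, one_mul]
    linear_combination h1
  have h1sA : ∀ t, 1 - s t ∈ M.A t := by
    intro t
    obtain ⟨w, hw0, hw, hw', hwf⟩ := hF t
    rw [hs1]
    have e1 : mn (M.x t) (n j) * h t j / f j =
        mn (M.x t) (fun i => n j i - m i) * h t j * w⁻¹ := by
      rw [hwf, mn_sub (M.x0 t)]
      have := mn_ne (M.x0 t) m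
      field_simp
    rw [e1]
    refine (M.A t).mul_mem ((M.A t).mul_mem (mn_mem (M.xA t) fun i => ?_) (hN.hA t j)) hw'
    rcases hle t i with h | h
    · left; omega
    · exact Or.inr h
  have hsA : ∀ t, s t ∈ M.A t := by
    intro t
    have h1 := (M.A t).sub_mem (M.A t).one_mem (h1sA t)
    rwa [sub_sub_cancel] at h1
  have hhne : ∀ t, h t j ≠ 0 := by
    intro t h0
    obtain ⟨V⟩ : Nonempty (M.A t) := ⟨0⟩
    have hnt : Nontrivial (M.A t) := inferInstance
    obtain ⟨I0, hI0⟩ := Ideal.exists_maximal (M.A t)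
    let _ : Field (M.A t ⧸ I0) := Ideal.Quotient.field I0
    obtain ⟨v, hv, -⟩ := hN.ln t (M.A t ⧸ I0) (Ideal.Quotient.mkₐ k I0) j
    apply hv
    unfold om
    have h1 : (⟨h t j, hN.hA t j⟩ : M.A t) = 0 := Subtype.ext h0
    rw [h1, map_zero, map_zero, zero_mul, add_zero]
  have h1s0 : ∀ t, 1 - s t ≠ 0 := by
    intro t
    rw [hs1]
    exact div_ne_zero (mul_ne_zero (mn_ne (M.x0 t) _) (hhne t)) (hf0 t)
  let hh : T → Bool → K := fun t b => if b = true then (if s t = 0 then 1 else s t) else 1 - s t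
  have hhA : ∀ t b, hh t b ∈ M.A t := by
    intro t b
    simp only [hh]
    split_ifs
    · exact (M.A t).one_mem
    · exact hsA t
    · exact h1sA t
  have hh0 : ∀ t b, hh t b ≠ 0 := by
    intro t b
    simp only [hh]
    split_ifs with h1 h2
    · exact one_ne_zero
    · exact h2
    · exact h1s0 t
  have hcov : ∀ t (V : ValuationSubring K), (∀ f ∈ M.A t, f ∈ V) → ∃ b, (hh t b)⁻¹ ∈ V := by
    intro t V hV
    by_cases h0 : s t = 0
    · refine ⟨true, ?_⟩
      simp only [hh, if_pos h0]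
      simp only [if_true, inv_one]
      exact V.one_mem
    · have h1 : (⟨s t, hV _ (hsA t)⟩ : V) + ⟨1 - s t, hV _ (h1sA t)⟩ = 1 :=
        Subtype.ext (add_sub_cancel _ _)
      have key : ∀ (z : K) (hz : z ∈ V), IsUnit (⟨z, hz⟩ : V) → z⁻¹ ∈ V := by
        intro z hz hu
        obtain ⟨b, hb⟩ := hu.exists_right_inv
        have h2 : z * b = 1 := congrArg Subtype.val hb
        have h4 : z⁻¹ = b := by
          rw [inv_eq_iff_eq_inv, eq_inv_of_mul_eq_one_left h2]
        rw [h4]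
        exact b.2
      rcases IsLocalRing.isUnit_or_isUnit_of_add_one h1 with h2 | h2
      · refine ⟨true, ?_⟩
        simp only [hh, if_neg h0, if_true]
        exact key _ _ h2
      · exact ⟨false, by simpa [hh] using key _ _ h2⟩
  obtain ⟨M', hA', hx', -⟩ := exists_refine M hh hhA hh0 hcov
  have hOv := Pool.Agent.W349.WD.ov_refine M hh hhA hh0 M' hA' hx'
  have hFr' : Frc M' := hFr.ov hOv
  have htr : ∀ γ : I → ℤ, Pool.Agent.TH214.tr (fun i' i : I => if i' = i then (1 : ℤ) else 0) γ =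
      γ := by
    intro γ
    funext i'
    unfold Pool.Agent.TH214.tr
    simp
  have hN' : NFJ p M' f n (fun q => a q.1) (fun q => h q.1) := by
    have h1 := nfj_ov hOv hN
    have h2 : (fun l => Pool.Agent.TH214.tr (fun i' i : I => if i' = i then (1 : ℤ) else 0)
      (n l)) = n := funext fun l => htr (n l)
    rw [h2] at h1
    exact h1
  have hx'' : ∀ q : T × Bool, M'.x q = M.x q.1 := fun q => congrFun hx' q
  have hinv : ∀ q : T × Bool, (hh q.1 q.2)⁻¹ ∈ M'.A q := by
    intro q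
    rw [hA']
    exact inv_mem_rA M hh q
  let W : T × Bool → Prop := fun q => q.2 = true ∧ s q.1 ≠ 0
  -- the new coefficients
  let a' : T × Bool → ι → K := fun q l => if l = j then (if W q then a q.1 j else 0) else a q.1 l
  let h' : T × Bool → ι → K := fun q l => if l = j then
    (if W q then h q.1 j else f j * (mn (M.x q.1) (n j))⁻¹) else h q.1 l
  have hnotW : ∀ q : T × Bool, ¬ W q → f j * (mn (M.x q.1) (n j))⁻¹ ∈ M'.A q ∧
      mn (M.x q.1) (fun i => m i - n j i) ∈ M'.A q := by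
    rintro ⟨t, b⟩ hq
    obtain ⟨w, hw0, hw, hw', hwf⟩ := hF t
    have e1 : f j * (mn (M.x t) (n j))⁻¹ = h t j * (1 - s t)⁻¹ := by
      rw [hs1]
      have h1 := mn_ne (M.x0 t) (n j)
      have h2 := hhne t
      have h3 := hf0 t
      field_simp
    have h1 : (1 - s t)⁻¹ ∈ M'.A (t, b) := by
      cases b
      · have h2 := hinv (t, false)
        simpa [hh] using h2
      · have h2 : s t = 0 := by
          by_contra h3
          exact hq ⟨rfl, h3⟩
        rw [h2, sub_zero, inv_one]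
        exact (M'.A _).one_mem
    have h2 : f j * (mn (M.x t) (n j))⁻¹ ∈ M'.A (t, b) := by
      rw [e1]
      exact (M'.A _).mul_mem (hOv.le (t, b) (hN.hA t j)) h1
    refine ⟨h2, ?_⟩
    have e2 : mn (M.x t) (fun i => m i - n j i) = w⁻¹ * (f j * (mn (M.x t) (n j))⁻¹) := by
      rw [mn_sub (M.x0 t), hwf]
      field_simp
    change mn (M.x t) (fun i => m i - n j i) ∈ M'.A (t, b)
    rw [e2]
    exact (M'.A _).mul_mem (hOv.le (t, b) hw') h2
  refine ⟨M', a', h', hOv, nfj_repl M' hFr' hN' a' h' ?_ ?_, ?_, ?_⟩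
  · intro q l
    simp only [h']
    split_ifs with h1 h2
    · exact hOv.le q (hN.hA q.1 j)
    · exact (hnotW q h2).1
    · exact hOv.le q (hN.hA q.1 l)
  · intro q l
    rw [hx'']
    simp only [a', h']
    split_ifs with h1 h2
    · rw [h1]
      exact hN.eq q.1 j
    · rw [h1, zero_pow hp.ne_zero, zero_add]
      have := mn_ne (M.x0 q.1) (n j)
      field_simp
    · exact hN.eq q.1 l
  · intro q l hl
    simp only [a', if_neg hl]
  · intro q
    by_cases hW : W q
    · right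
      refine ⟨s q.1, hOv.le q (hsA q.1), hW.2, ?_, ?_⟩
      · have h1 := hinv q
        obtain ⟨t, b⟩ := q
        obtain ⟨h2, h3⟩ := hW
        simp only at h2 h3
        subst h2
        simpa [hh, h3] using h1
      · simp only [a', if_pos hW, if_true, s]
        rw [mul_div_cancel₀ _ (hf0 q.1)]
    · left
      refine ⟨by simp only [a', if_neg hW, if_true], ?_⟩
      intro i
      have := M'.sm q
      have h1 := (hnotW q hW).2
      rw [← hx''] at h1
      have h2 : (1 : K) * mn (M'.x q) (fun i => m i - n j i) ∈ M'.A q := by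
        rw [one_mul]
        exact h1
      rcases nonneg_of_mem (M'.snc q) (M'.xA q) (M'.x0 q) one_ne_zero
        (by rw [inv_one]; exact (M'.A q).one_mem) h2 i with h | h
      · left; omega
      · exact Or.inr h

end repl

end Pool.Agent.KS6_21.P2
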