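import Pool.Agent.KS6_21.P2.Typed
import Pool.Graph.R_seed8.TH214.V.OvpQ

/-!
Existence of models with typed charts.
-/

set_option autoImplicit false
set_option linter.unusedVariables false
set_option linter.unusedSectionVars false

universe u

open Polynomial Pool.Agent.W558 Pool.Agent.W177.WD Pool.Agent.KS6_21.P1 Pool.Agent.TH214
  Pool.Agent.TH214.V

namespace Pool.Agent.KS6_21.P2

section typed

variable (p : ℕ) [Fact p.Prime] {k K : Type u} [Field k] [CharP k p] [Field K] [Algebra k K]

/-- A model with a joint normal form, with boundary functions and with charts which are typed with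
respect to the functions `f (e j)`, `j ∈ S`. -/
structure TD {T I ι G J : Type} [Fintype I] (M : LM (⊥ : Subalgebra k K) ⊤ T I) (f : ι → K)
    (g : G → K) (n : ι → I → ℤ) (a h : T → ι → K) (Γ : G → I → ℤ) (e : J → ι) (b : J → G)
    (S : Set J) : Prop where
  nf : NFJ p M f n a h
  fn : Fn M g Γ
  fr : Frc M
  le : ∀ j t, LE' (M.A t) (M.x t) (Γ (b j)) (n (e j))
  tp : ∀ j ∈ S, ∀ t, Tp p (M.A t) (M.x t) (f (e j)) (a t (e j)) (n (e j)) (Γ (b j))

theorem exists_typed {ι G J : Type} [Finite J] {f : ι → K} {g : G → K} (h : GM p k f g)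
    (e : J → ι) (he : Function.Injective e) (b : J → G) (hfg : ∀ j, g (b j) = f (e j)) :
    ∃ (T I : Type) (_ : Finite T) (_ : Fintype I) (M : LM (⊥ : Subalgebra k K) ⊤ T I)
      (n : ι → I → ℤ) (a h : T → ι → K) (Γ : G → I → ℤ), TD p M f g n a h Γ e b Set.univ := by
  classical
  have hJ : Fintype J := Fintype.ofFinite J
  have key : ∀ S : Finset J, ∃ (T I : Type) (_ : Finite T) (_ : Fintype I)
      (M : LM (⊥ : Subalgebra k K) ⊤ T I) (n : ι → I → ℤ) (a h : T → ι → K) (Γ : G → I → ℤ),
      TD p M f g n a h Γ e b (S : Set J) := by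
    intro S
    induction S using Finset.induction_on with
    | empty =>
      obtain ⟨T, I, hT, hI, M, n, a, h, Γ, hN, hG, hR⟩ := h
      obtain ⟨T', I', hT', hI', M', π, Θ, hOv, hΘ, -, hC⟩ := ovp_uq M
        (fun q : J × Bool => if q.2 = true then Γ (b q.1) else n (e q.1))
      refine ⟨T', I', hT', hI', M', fun l => tr Θ (n l), fun t' => a (π t'), fun t' => h (π t'),
        fun c => tr Θ (Γ c), nfj_ov hOv hN, hG.ov hOv, hR.ov hOv, ?_, ?_⟩
      · intro j t
        have := M'.sm t
        have hN' := nfj_ov hOv hN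
        obtain ⟨w, hw0, hw, hw', hwf⟩ := hG.ov hOv (b j) t
        refine exp_le (p := p) (M'.snc t) (M'.xA t) (M'.x0 t) (hR.ov hOv t) hw0 hw hw'
          (hN'.hA t (e j)) (a := a (π t) (e j)) ?_ (fun κ _ _ φ => ?_) ?_
        · have h1 := hN'.eq t (e j)
          rw [← hfg j, hwf] at h1
          exact h1
        · obtain ⟨v, hv, -⟩ := hN'.ln t κ φ (e j)
          exact ⟨v, hv⟩
        · rcases hC (j, true) (j, false) t with h1 | h1
          · left
            intro i
            simpa [Pool.Agent.TH214.tr] using h1 i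
          · right
            intro i
            simpa [Pool.Agent.TH214.tr] using h1 i
      · intro j hj
        simp at hj
    | insert j S hj ih =>
      obtain ⟨T, I, hT, hI, M, n, a, h, Γ, hD⟩ := ih
      obtain ⟨M', a', h', hOv, hN', ha', hT'⟩ := refine_type M hD.fr hD.nf (e j) (Γ (b j))
        (fun t => by
          rw [← hfg j]
          exact hD.fn (b j) t) (fun t => hD.le j t)
      have htr : ∀ γ : I → ℤ,
          Pool.Agent.TH214.tr (fun i' i : I => if i' = i then (1 : ℤ) else 0) γ = γ := by
        intro γ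
        funext i'
        unfold Pool.Agent.TH214.tr
        simp
      have hΘ : ∀ i' i : I, (0 : ℤ) ≤ if i' = i then (1 : ℤ) else 0 := by
        intro i' i
        split_ifs <;> norm_num
      refine ⟨T × Bool, I, inferInstance, hI, M', n, a', h', Γ, hN', ?_, hD.fr.ov hOv, ?_, ?_⟩
      · have h1 := hD.fn.ov hOv
        have h2 : (fun (c : G) (i' : I) => ∑ i, (if i' = i then (1 : ℤ) else 0) * Γ c i) = Γ := by
          funext c i'
          simp
        rw [h2] at h1
        exact h1
      · intro l q
        have h1 := (hD.le l q.1).tr (M'.xA q) (M'.x0 q) (fun a ha => hOv.le q ha) hΘ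
          (fun i => hOv.x q i)
        rw [htr, htr] at h1
        exact h1
      · intro l hl q
        by_cases hlj : l = j
        · subst hlj
          exact hT' q
        · have hlS : l ∈ (S : Set J) := by
            have h1 := Finset.mem_coe.1 hl
            exact Finset.mem_coe.2 ((Finset.mem_insert.1 h1).resolve_left hlj)
          have h1 := (hD.tp l hlS q.1).tr (M'.xA q) (M'.x0 q) (fun a ha => hOv.le q ha) hΘ
            (fun i => hOv.x q i)
          rw [htr, htr, ← ha' q (e l) fun h => hlj (he h)] at h1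
          exact h1
  obtain ⟨T, I, hT, hI, M, n, a, h, Γ, hD⟩ := key Finset.univ
  refine ⟨T, I, hT, hI, M, n, a, h, Γ, hD.nf, hD.fn, hD.fr, hD.le, fun j _ => hD.tp j ?_⟩
  exact Finset.mem_coe.2 (Finset.mem_univ j)

end typed

end Pool.Agent.KS6_21.P2
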