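import Pool.Agent.KS6_21.P2.Root
import Pool.Graph.R_seed8.TH214.Dual

/-!
The types of the charts with respect to a function which is a boundary function.
-/

set_option autoImplicit false
set_option linter.unusedVariables false
set_option linter.unusedSectionVars false

universe u

open Polynomial Pool.Agent.W558 Pool.Agent.W177.WD Pool.Agent.KS6_21.P1 Pool.Agent.TH214

namespace Pool.Agent.KS6_21.P2

section pts

variable {k K : Type u} [Field k] [Field K] [Algebra k K] {A : Subalgebra k K}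

/-- An element without zeros is a unit. -/
lemma unit_of_pts {a : K} (ha : a ∈ A) (h : ∀ (κ : Type u) [Field κ] [Algebra k κ]
    (φ : A →ₐ[k] κ), φ ⟨a, ha⟩ ≠ 0) : a ≠ 0 ∧ a⁻¹ ∈ A := by
  have h1 : IsUnit (⟨a, ha⟩ : A) := by
    by_contra hne
    obtain ⟨m, hm, hle⟩ := exists_max_ideal_of_mem_nonunits (mem_nonunits_iff.2 hne)
    let _ : Field (A ⧸ m) := Ideal.Quotient.field m
    exact h (A ⧸ m) (Ideal.Quotient.mkₐ k m) (Ideal.Quotient.eq_zero_iff_mem.2 hle)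
  obtain ⟨b, hb⟩ := h1.exists_right_inv
  have h2 : a * b = 1 := congrArg Subtype.val hb
  have h3 : a ≠ 0 := left_ne_zero_of_mul_eq_one h2
  refine ⟨h3, ?_⟩
  have h4 : a⁻¹ = b := by
    rw [inv_eq_iff_eq_inv, eq_inv_of_mul_eq_one_left h2]
  rw [h4]
  exact b.2

lemma ne_of_unit {κ : Type u} [Field κ] [Algebra k κ] (φ : A →ₐ[k] κ) {a : K} (ha : a ∈ A)
    (h0 : a ≠ 0) (hi : a⁻¹ ∈ A) : φ ⟨a, ha⟩ ≠ 0 := by
  intro h
  have h1 : φ ⟨a, ha⟩ * φ ⟨a⁻¹, hi⟩ = 1 := by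
    rw [← map_mul, ← map_one φ]
    congr 1
    exact Subtype.ext (mul_inv_cancel₀ h0)
  rw [h, zero_mul] at h1
  exact zero_ne_one h1

end pts

section dom

variable {p : ℕ} [Fact p.Prime] {k K : Type u} [Field k] [CharP k p] [Field K] [Algebra k K]
  {A : Subalgebra k K} [Algebra.Smooth k A] {I : Type} [Fintype I] [DecidableEq I] {x : I → K}

/-- Values of the logarithmic forms on monomials. -/
lemma lg_mn {κ : Type u} [Field κ] [Algebra k κ] {φ : A →ₐ[k] κ} (hx : ∀ i, x i ∈ A)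
    (hx0 : ∀ i, x i ≠ 0) (v : LT φ x) (m : I → ℤ) (hm : ∀ i, 0 ≤ m i ∨ (x i)⁻¹ ∈ A) :
    LG v.D (mn x m) (∑ i, (m i : κ) * v.e i) :=
  LG.prod _ _ _ fun i _ => LG.zpow ⟨hx i, v.hx i (hx i)⟩ (hx0 i) _ (hm i)

lemma lg_pow {κ : Type u} [Field κ] [Algebra k κ] {φ : A →ₐ[k] κ} (D : TV φ) {b : K}
    (hb : b ∈ A) : LG D (b ^ p) 0 := by
  refine ⟨A.pow_mem hb p, ?_⟩
  have h1 : (⟨b ^ p, A.pow_mem hb p⟩ : A) = ⟨b, hb⟩ ^ p := rfl
  have hp0 : (p : κ) = 0 := cast_zero (k := k) p κ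
  rw [h1, tv_pow, hp0, zero_mul, zero_mul, mul_zero]

/-- The logarithmic derivative of a `p`-th power times a monomial. -/
lemma lg_root (hS : SNC A x) (hx : ∀ i, x i ∈ A) (hx0 : ∀ i, x i ≠ 0)
    (hfr : ∀ z : K, ∃ a ∈ A, ∃ b ∈ A, b ≠ 0 ∧ z = a * b⁻¹) {m : I → ℤ} {a : K}
    (h : mn x m * a ^ p ∈ A) {κ : Type u} [Field κ] [Algebra k κ] {φ : A →ₐ[k] κ}
    (v : LT φ x) : LG v.D (mn x m * a ^ p) (∑ i, (m i : κ) * v.e i) := by
  have hp : p.Prime := Fact.out
  have hp0 : (p : κ) = 0 := cast_zero (k := k) p κ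
  let c : I → ℤ := fun i => m i % p
  let q : I → ℤ := fun i => m i / p
  have hm : ∀ i, m i = c i + p * q i := fun i => (Int.emod_add_mul_ediv (m i) p).symm
  have hpz : (0 : ℤ) < p := by exact_mod_cast hp.pos
  have e1 : mn x m * a ^ p = mn x c * (mn x q * a) ^ p := by
    have e2 : mn x m = mn x c * mn x q ^ p := by
      rw [← mn_mul, ← mn_add hx0]
      exact mn_congr hm
    rw [e2, mul_pow]
    ring
  have hb : mn x q * a ∈ A := by
    refine root_mono hS hx hx0 hfr hp.ne_zero (c := c) (fun i => Int.emod_lt_of_pos _ hpz) ?_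
    rw [← e1]
    exact h
  rw [e1]
  have h2 := (lg_mn hx hx0 v c fun i => Or.inl (Int.emod_nonneg _ hpz.ne')).mul
    (lg_pow (p := p) v.D hb)
  have h3 : ∑ i, (c i : κ) * v.e i + 0 = ∑ i, (m i : κ) * v.e i := by
    rw [add_zero]
    refine Finset.sum_congr rfl fun i _ => ?_
    congr 1
    rw [hm i]
    push_cast
    rw [hp0, zero_mul, add_zero]
  rw [h3] at h2
  exact h2

/-- Comparison of the exponents of the normal form of a boundary function. -/
lemma exp_le (hS : SNC A x) (hx : ∀ i, x i ∈ A) (hx0 : ∀ i, x i ≠ 0)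
    (hfr : ∀ z : K, ∃ a ∈ A, ∃ b ∈ A, b ≠ 0 ∧ z = a * b⁻¹) {m n : I → ℤ} {a h w : K}
    (hw0 : w ≠ 0) (hw : w ∈ A) (hw' : w⁻¹ ∈ A) (hh : h ∈ A)
    (heq : w * mn x m = a ^ p + mn x n * h)
    (hln : ∀ (κ : Type u) [Field κ] [Algebra k κ] (φ : A →ₐ[k] κ), ∃ v : LT φ x, om v n hh ≠ 0)
    (hc : (∀ i, m i ≤ n i ∨ (x i)⁻¹ ∈ A) ∨ ∀ i, n i ≤ m i ∨ (x i)⁻¹ ∈ A) :
    ∀ i, m i ≤ n i ∨ (x i)⁻¹ ∈ A := by
  rcases hc with hc | hc
  · exact hc
  have hmn : mn x (fun i => m i - n i) ∈ A := mn_mem hx fun i => by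
    rcases hc i with h | h
    · left; omega
    · exact Or.inr h
  have e1 : w * mn x (fun i => m i - n i) = mn x (fun i => -n i) * a ^ p + h := by
    rw [mn_sub hx0, mn_neg, ← mul_assoc, heq]
    have := mn_ne hx0 n
    field_simp
  have hz : mn x (fun i => -n i) * a ^ p ∈ A := by
    have h1 := A.sub_mem (A.mul_mem hw hmn) hh
    rwa [e1, add_sub_cancel_right] at h1
  have hu := unit_of_pts hmn fun κ _ _ φ h0 => by
    obtain ⟨v, hv⟩ := hln κ φ
    apply hv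
    have h1 := lg_root hS hx hx0 hfr hz v
    have h2 : (⟨h, hh⟩ : A) = ⟨w, hw⟩ * ⟨_, hmn⟩ - ⟨_, hz⟩ := Subtype.ext (by
      change h = w * mn x (fun i => m i - n i) - mn x (fun i => -n i) * a ^ p
      rw [e1, add_sub_cancel_left])
    have h3 := (lg_mn hx hx0 v (fun i => m i - n i) fun i => by
      rcases hc i with h | h
      · left; omega
      · exact Or.inr h).eq hmn
    unfold om
    rw [h2, map_sub, v.D.leib, h1.eq hz, h3, map_sub, map_mul, h0]
    simp only [Int.cast_neg, neg_mul, Finset.sum_neg_distrib]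
    ring
  intro i
  have h4 : (1 : K) * mn x (fun i => n i - m i) ∈ A := by
    have h5 : mn x (fun i => n i - m i) = (mn x (fun i => m i - n i))⁻¹ := by
      rw [← mn_neg]
      exact mn_congr fun i => by ring
    rw [one_mul, h5]
    exact hu.2
  rcases nonneg_of_mem hS hx hx0 one_ne_zero (by rw [inv_one]; exact A.one_mem) h4 i with h | h
  · left; omega
  · exact Or.inr h

end dom

end Pool.Agent.KS6_21.P2
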