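import Pool.Agent.KS6_21.P2.Tow
import Pool.Graph.R_seed8.TH214.U.Abs

/-!
Uniformization of valuations which are determined by their values on the functions of a set with
log smooth models.
-/

set_option autoImplicit false

open Pool.Agent.W418.LU2 Pool.Agent.W558 Pool.Agent.TH214.U Pool.Agent.N762.FP
  Pool.Agent.KS6_21.P1 Pool.Agent.N762.RC Pool.Agent.N762.RC2 Pool.Agent.N98

namespace Pool.Agent.KS6_21.P2

theorem unif_of_mod {k K : Type} [Field k] [Field K] [Algebra k K] {P : Set K} (hP : Mod k P)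
    (V : ValuationSubring K) (hkV : ∀ c : k, algebraMap k K c ∈ V) (C : Subalgebra k K)
    (hC : ∀ x : K, IsAlgebraic C x)
    (hV : ∀ z ∈ C, ∃ (N : ℕ) (a : Fin N → K), (∀ j, a j ∈ Submonoid.closure (P ∪ {w | w⁻¹ ∈ P})) ∧
      z = ∑ j, a j ∧ ∀ j, V.valuation (a j) ≤ V.valuation z)
    (A : Subalgebra k K) (hA : A.FG)
    (hfr : ∀ x : K, ∃ a ∈ A, ∃ b ∈ A, b ≠ 0 ∧ x = a * b⁻¹) (hAV : ∀ a ∈ A, a ∈ V) :
    Unif V A.toSubring := by
  classical
  let G : Set K := {w | w ≠ 0 ∧ w ∈ Submonoid.closure (P ∪ {w | w⁻¹ ∈ P})}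
  have hT : ∀ z ∈ Algebra.adjoin k (C : Set K), Dmn V G z := by
    intro z hz
    rw [Algebra.adjoin_eq C] at hz
    obtain ⟨N, a, ha, hz', hv⟩ := hV z hz
    refine ⟨N, a, fun j => ?_, hz', hv⟩
    by_cases h : a j = 0
    · exact Or.inl h
    · exact Or.inr ⟨h, ha j⟩
  have halg : ∀ x : K, IsAlgebraic (IntermediateField.adjoin k (C : Set K)) x := by
    intro x
    obtain ⟨Q, hQ0, hQ⟩ := hC x
    let φ : C →+* IntermediateField.adjoin k (C : Set K) :=
      { toFun := fun c => ⟨c, IntermediateField.subset_adjoin k _ c.2⟩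
        map_one' := rfl
        map_mul' := fun _ _ => rfl
        map_zero' := rfl
        map_add' := fun _ _ => rfl }
    have hφ : Function.Injective φ := fun a b hab =>
      Subtype.ext (congrArg (fun c : IntermediateField.adjoin k (C : Set K) => (c : K)) hab)
    refine ⟨Q.map φ, (Polynomial.map_ne_zero_iff hφ).2 hQ0, ?_⟩
    rw [Polynomial.aeval_def, Polynomial.eval₂_map]
    exact hQ
  refine unif_abs V hkV (C : Set K) G (fun y hy => hy.1) hT halg (fun S _ v hv => ?_) A hA hAV hfr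
  -- each element of the closure is a product
  have hcl : ∀ w ∈ Submonoid.closure (P ∪ {w | w⁻¹ ∈ P}), w ≠ 0 →
      ∃ (l : ℕ) (a : Fin l → K) (e : Fin l → ℤ), (∀ i, a i ∈ P) ∧ w = ∏ i, a i ^ e i := by
    intro w hw
    induction hw using Submonoid.closure_induction with
    | mem x hx =>
      intro hx0
      rcases hx with hx | hx
      · exact ⟨1, fun _ => x, fun _ => 1, fun _ => hx, by simp⟩
      · exact ⟨1, fun _ => x⁻¹, fun _ => -1, fun _ => hx, by simp⟩
    | one => exact fun _ => ⟨0, fun i => i.elim0, fun i => i.elim0, fun i => i.elim0, by simp⟩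
    | mul x y hx hy ihx ihy =>
      intro hxy
      obtain ⟨l, a, e, ha, h1⟩ := ihx (left_ne_zero_of_mul hxy)
      obtain ⟨l', a', e', ha', h2⟩ := ihy (right_ne_zero_of_mul hxy)
      refine ⟨l + l', Fin.append a a', Fin.append e e', ?_, ?_⟩
      · intro i
        induction i using Fin.addCases with
        | left i => simpa using ha i
        | right i => simpa using ha' i
      · rw [Fin.prod_univ_add, h1, h2]
        simp
  choose! l a e ha hw using hcl
  have h4 : Md 0 k P (fun e : Empty => (e.elim : K)) := md_of_mod 0 hP _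
  have h5 := (md_sat h4 (Q := G) (by
    rintro w ⟨hw0, hwG⟩ -
    exact ⟨1, one_ne_zero, 1, l w, a w, e w, ha w hwG hw0, by
      rw [pow_one, map_one, one_mul]
      exact hw w hwG hw0⟩)).mod
  obtain ⟨T, I, hT', hI', M, hFr, hM⟩ := h5 S v hv fun i => (hv i).1
  have h6 : ∀ i, IsB M (v i) := fun i => by
    obtain ⟨m, hm, h⟩ := hM i
    exact isB_of_pow hFr (fun h0 => hm (by rw [h0, Nat.cast_zero])) h
  choose Γ hΓ using h6
  exact ⟨T, I, hT', hI', M, Γ, fun b t => hΓ b t, hFr⟩

end Pool.Agent.KS6_21.P2
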